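import Mathlib

set_option autoImplicit false

namespace Pool.Agent.W_MP_83c777_nt

open Finset

/-- The prime `q` may be used to cover the position `x`. -/
def Al (k q x : ℕ) : Prop := k % q ≤ x % q

instance (k q x : ℕ) : Decidable (Al k q x) := by unfold Al; infer_instance

/-- distance to the nearer end of `[0, k-1]` -/
def idx (k x : ℕ) : ℕ := min x (k - 1 - x)

lemma al_symm {k q x : ℕ} (hx : x < k) (hq : 0 < q) (h : Al k q x) : Al k q (k - 1 - x) := by
  unfold Al at *
  have e : k = x + (k - 1 - x) + 1 := by omega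
  set y := k - 1 - x with hy
  have h1 : x % q < q := Nat.mod_lt _ hq
  have h2 : y % q < q := Nat.mod_lt _ hq
  have h3 : k % q < q := Nat.mod_lt _ hq
  have h4 : k % q = (x % q + y % q + 1) % q := by
    conv_lhs => rw [e]
    simp [Nat.add_mod]
  by_cases h5 : x % q + y % q + 1 < q
  · rw [Nat.mod_eq_of_lt h5] at h4; omega
  · have h6 : (x % q + y % q + 1) % q = x % q + y % q + 1 - q := by
      rw [Nat.mod_eq_sub_mod (by omega), Nat.mod_eq_of_lt (by omega)]
    omega

lemma al_idx {k q x : ℕ} (hx : x < k) (hq : 0 < q) : Al k q x ↔ Al k q (idx k x) := by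
  unfold idx
  constructor
  · intro h
    rcases min_choice x (k - 1 - x) with h1 | h1 <;> rw [h1]
    · exact h
    · exact al_symm hx hq h
  · intro h
    rcases min_choice x (k - 1 - x) with h1 | h1 <;> rw [h1] at h
    · exact h
    · have := al_symm (by omega) hq h
      rwa [show k - 1 - (k - 1 - x) = x by omega] at this

/-- A covering of `[0,k-1]` by admissible residue classes. -/
def Cov (k : ℕ) : Prop := ∃ r : ℕ → ℕ, (∀ q, q.Prime → q ≤ k → k % q ≤ r q ∧ r q < q) ∧
  ∀ x < k, ∃ q, q.Prime ∧ q ≤ k ∧ x % q = r q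

lemma mod_pow_key {q r k e i : ℕ} (hq : 2 ≤ q) (hr : k % q ≤ r) (hrq : r < q) (hi : 1 ≤ i)
    (hie : i ≤ e) : k % q ^ i ≤ (r + (q ^ e - q)) % q ^ i := by
  have hq0 : 0 < q := by omega
  obtain ⟨j, rfl⟩ : ∃ j, i = j + 1 := ⟨i - 1, by omega⟩
  obtain ⟨d, rfl⟩ : ∃ d, e = d + (j + 1) := ⟨e - (j + 1), by omega⟩
  -- q^(j+1) ≤ ...
  have h1 : k % q ^ (j + 1) = k % q + q * (k / q % q ^ j) := by
    rw [pow_succ', Nat.mod_mul]
  have h2 : k / q % q ^ j ≤ q ^ j - 1 := by
    have := Nat.mod_lt (k / q) (pow_pos hq0 j)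
    omega
  have hpj : 1 ≤ q ^ j := Nat.one_le_pow _ _ hq0
  have h3 : k % q ^ (j + 1) ≤ r + (q ^ (j + 1) - q) := by
    rw [h1]
    have h4 : q * (k / q % q ^ j) ≤ q * (q ^ j - 1) := Nat.mul_le_mul_left _ h2
    have h5 : q * (q ^ j - 1) = q ^ (j + 1) - q := by
      rw [Nat.mul_sub, pow_succ']; simp
    omega
  have h6 : (r + (q ^ (d + (j + 1)) - q)) % q ^ (j + 1) = r + (q ^ (j + 1) - q) := by
    have h7 : q ≤ q ^ (j + 1) := by
      calc q = q * 1 := by ring
        _ ≤ q * q ^ j := Nat.mul_le_mul_left _ hpj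
        _ = q ^ (j + 1) := by rw [pow_succ']
    have h8 : q ^ (j+1) ≤ q ^ (d + (j + 1)) := Nat.pow_le_pow_right hq0 (by omega)
    have h9 : r + (q ^ (d + (j + 1)) - q) = (r + (q ^ (j + 1) - q)) + q ^ (j + 1) * (q ^ d - 1) := by
      have h10 : q ^ (j + 1) * (q ^ d - 1) = q ^ (d + (j + 1)) - q ^ (j + 1) := by
        rw [Nat.mul_sub, ← pow_add, mul_one, add_comm (j+1) d]
      rw [h10]; omega
    rw [h9, Nat.add_mul_mod_self_left, Nat.mod_eq_of_lt (by omega)]
  rw [h6]; exact h3

/-- Covering implies the failure of `H_k`. -/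
theorem not_H_of_cov {k : ℕ} (hk : 1 ≤ k) (hc : Cov k) :
    ∃ n, 2 * k ≤ n ∧ ∀ i < k, ¬ (n - i) ∣ n.choose k := by
  obtain ⟨r, hr, hcov⟩ := hc
  -- CRT
  let S : Finset ℕ := (range (k + 1)).filter Nat.Prime
  have hS : ∀ q ∈ S, q.Prime ∧ q ≤ k := by
    intro q hq
    simp only [S, mem_filter, mem_range] at hq
    exact ⟨hq.2, by omega⟩
  have hcop : Set.Pairwise (S : Set ℕ) (Function.onFun Nat.Coprime (fun q => q ^ k)) := by
    intro a ha b hb hab
    exact Nat.Coprime.pow _ _ ((Nat.coprime_primes (hS a ha).1 (hS b hb).1).2 hab)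
  obtain ⟨n0, hn0⟩ := Nat.chineseRemainderOfFinset (fun q => r q + (q ^ k - q)) (fun q => q ^ k) S
    (fun q hq => pow_ne_zero _ (hS q hq).1.ne_zero) hcop
  let W : ℕ := ∏ q ∈ S, q ^ k
  have hW : 1 ≤ W := Finset.prod_pos (fun q hq => pow_pos (hS q hq).1.pos _)
  obtain ⟨n, hndef⟩ : ∃ n, n = n0 + W * (2 * k) := ⟨_, rfl⟩
  have hn2k : 2 * k ≤ n := by
    have : 1 * (2 * k) ≤ W * (2 * k) := Nat.mul_le_mul_right _ hW
    omega
  have hnmod : ∀ q ∈ S, n % q ^ k = r q + (q ^ k - q) := by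
    intro q hq
    have h1 : n ≡ n0 [MOD q ^ k] := by
      have : q ^ k ∣ W * (2 * k) := (Finset.dvd_prod_of_mem (fun q => q ^ k) hq).mul_right _
      have h2 : W * (2 * k) ≡ 0 [MOD q ^ k] := (Nat.modEq_zero_iff_dvd).2 this
      have h3 := (Nat.ModEq.refl n0).add h2
      rw [add_zero, ← hndef] at h3
      exact h3
    have h2 := h1.trans (hn0 q hq)
    unfold Nat.ModEq at h2
    rw [h2, Nat.mod_eq_of_lt]
    have h3 := (hr q (hS q hq).1 (hS q hq).2).2
    have h4 : q ≤ q ^ k := Nat.le_self_pow (by omega) q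
    omega
  refine ⟨n, hn2k, ?_⟩
  intro i hi hdvd
  obtain ⟨q, hqp, hqk, hiq⟩ := hcov i hi
  have hqS : q ∈ S := by simp [S, hqp]; omega
  have hq2 := hqp.two_le
  obtain ⟨hr1, hr2⟩ := hr q hqp hqk
  have hnk := hnmod q hqS
  -- every digit condition
  have hdig : ∀ j, 1 ≤ j → k % q ^ j ≤ n % q ^ j := by
    intro j hj
    by_cases hjk : j ≤ k
    · have h1 : n % q ^ j = (n % q ^ k) % q ^ j := by
        rw [Nat.mod_mod_of_dvd _ (pow_dvd_pow q hjk)]
      rw [h1, hnk]
      exact mod_pow_key hq2 hr1 hr2 hj hjk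
    · have h2 : k < q ^ k := Nat.lt_pow_self hqp.one_lt
      have h3 : n % q ^ k ≤ n % q ^ j := by
        have h4 : (n % q ^ j) % q ^ k = n % q ^ k := Nat.mod_mod_of_dvd _ (pow_dvd_pow q (by omega))
        rw [← h4]; exact Nat.mod_le _ _
      have h5 := mod_pow_key (k := k) hq2 hr1 hr2 hk (le_refl k)
      rw [Nat.mod_eq_of_lt h2] at h5
      have h6 : (r q + (q ^ k - q)) % q ^ k = n % q ^ k := by
        rw [← hnk, Nat.mod_mod]
      rw [h6] at h5
      exact (Nat.mod_le _ _).trans (h5.trans h3)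
  have hkn : k ≤ n := by omega
  -- q does not divide choose
  have hnd : ¬ q ∣ n.choose k := by
    have hfac : (n.choose k).factorization q = 0 := by
      rw [Nat.factorization_choose hqp hkn (Nat.lt_add_one _), Finset.card_eq_zero,
        Finset.filter_eq_empty_iff]
      intro j hj
      rw [mem_Ico] at hj
      have h1 := hdig j hj.1
      have hpos : 0 < q ^ j := pow_pos hqp.pos j
      have h2 : (n - k) % q ^ j = n % q ^ j - k % q ^ j := by
        have h3 : n - k = (n % q ^ j - k % q ^ j) + q ^ j * (n / q ^ j - k / q ^ j) := by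
          have e1 := Nat.mod_add_div n (q ^ j)
          have e2 := Nat.mod_add_div k (q ^ j)
          have e3 : k / q ^ j ≤ n / q ^ j := Nat.div_le_div_right hkn
          have e4 : q ^ j * (k / q ^ j) ≤ q ^ j * (n / q ^ j) := Nat.mul_le_mul_left _ e3
          rw [Nat.mul_sub]
          generalize q ^ j * (k / q ^ j) = A at *
          generalize q ^ j * (n / q ^ j) = B at *
          generalize n % q ^ j = C at *
          generalize k % q ^ j = D at *
          omega
        rw [h3, Nat.add_mul_mod_self_left, Nat.mod_eq_of_lt]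
        exact (Nat.sub_le _ _).trans_lt (Nat.mod_lt n hpos)
      have h4 := Nat.mod_lt n hpos
      rw [h2]
      clear h2
      generalize n % q ^ j = A at *
      generalize k % q ^ j = B at *
      generalize q ^ j = C at *
      omega
    intro hd
    have := (hqp.dvd_iff_one_le_factorization (Nat.choose_pos hkn).ne').1 hd
    omega
  -- q divides n - i
  have hqi : q ∣ n - i := by
    have h1 : n % q = r q := by
      have h2 : n % q = (n % q ^ k) % q := by
        rw [Nat.mod_mod_of_dvd _ (dvd_pow_self q (by omega))]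
      rw [h2, hnk]
      have h3 : q ^ k - q = q * (q ^ (k - 1) - 1) := by
        rw [Nat.mul_sub, ← pow_succ', mul_one]
        congr 2; omega
      rw [h3, Nat.add_mul_mod_self_left, Nat.mod_eq_of_lt hr2]
    have h2 : i ≡ n [MOD q] := by
      unfold Nat.ModEq; rw [hiq, h1]
    exact (Nat.modEq_iff_dvd' (by omega)).1 h2
  exact hnd (hqi.trans hdvd)

end Pool.Agent.W_MP_83c777_nt
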