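import Mathlib

set_option autoImplicit false

namespace Pool.Agent.W_MP_83c777_nt

open Finset Filter

/-- `lam k ^ 100 = log k` -/
noncomputable def lam (k : ℕ) : ℝ := (Real.log k) ^ ((1 : ℝ) / 100)

lemma lam_nonneg (k : ℕ) : 0 ≤ lam k := by
  unfold lam
  exact Real.rpow_nonneg (Real.log_natCast_nonneg k) _

lemma lam_pow (k : ℕ) : lam k ^ 100 = Real.log k := by
  unfold lam
  rw [← Real.rpow_natCast, ← Real.rpow_mul (Real.log_natCast_nonneg k)]
  norm_num

lemma lam_mono {a b : ℕ} (ha : 1 ≤ a) (h : a ≤ b) : lam a ≤ lam b := by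
  unfold lam
  apply Real.rpow_le_rpow (Real.log_natCast_nonneg a) _ (by norm_num)
  apply Real.log_le_log (by exact_mod_cast ha)
  exact_mod_cast h

lemma tendsto_lam : Tendsto lam atTop atTop := by
  unfold lam
  exact (tendsto_rpow_atTop (by norm_num : (0 : ℝ) < 1 / 100)).comp
    (Real.tendsto_log_atTop.comp tendsto_natCast_atTop_atTop)

lemma ev_lam {p : ℝ → Prop} (h : ∀ᶠ x in atTop, p x) : ∀ᶠ k : ℕ in atTop, p (lam k) :=
  tendsto_lam.eventually h

lemma ev_log_le (C : ℝ) : ∀ᶠ x : ℝ in atTop, C * Real.log x ≤ x := by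
  have h := (Real.isLittleO_log_id_atTop).bound (c := 1 / (|C| + 1)) (by positivity)
  filter_upwards [h, eventually_ge_atTop 1] with x hx hx1
  have hl : 0 ≤ Real.log x := Real.log_nonneg hx1
  simp only [id, Real.norm_eq_abs, abs_of_nonneg hl, abs_of_nonneg (by linarith : (0:ℝ) ≤ x)] at hx
  have hC : 0 < |C| + 1 := by positivity
  rw [one_div_mul_eq_div, le_div_iff₀ hC] at hx
  have h1 : C ≤ |C| := le_abs_self C
  nlinarith

lemma ev_pow_le_exp (C : ℝ) (n : ℕ) : ∀ᶠ x : ℝ in atTop, C * x ^ n ≤ Real.exp x := by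
  have h := (Real.isLittleO_pow_exp_atTop (n := n)).bound (c := 1 / (|C| + 1)) (by positivity)
  filter_upwards [h, eventually_ge_atTop 1] with x hx hx1
  have hp : 0 ≤ x ^ n := by positivity
  simp only [Real.norm_eq_abs, abs_of_nonneg hp, abs_of_pos (Real.exp_pos x)] at hx
  have hC : 0 < |C| + 1 := by positivity
  rw [one_div_mul_eq_div, le_div_iff₀ hC] at hx
  have h1 : C ≤ |C| := le_abs_self C
  nlinarith

end Pool.Agent.W_MP_83c777_nt
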