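import Mathlib

set_option autoImplicit false

namespace Pool.Agent.W_MP_83c777_nt

open Finset

lemma count_ap (a X d v : ℕ) (hd : 0 < d) :
    |(({t ∈ Ico a (a + X) | t ≡ v [MOD d]} : Finset ℕ).card : ℝ) - X / d| ≤ 1 := by
  have h := Nat.Ico_filter_modEq_card a (a + X) hd v
  have hd' : (0 : ℚ) < d := by exact_mod_cast hd
  set N := ({t ∈ Ico a (a + X) | t ≡ v [MOD d]} : Finset ℕ).card with hN
  have key : |((N : ℤ) : ℚ) - X / d| ≤ 1 := by
    rw [h]
    push_cast
    have e1 : (((a : ℚ) + X - v) / d) = ((a : ℚ) - v) / d + X / d := by ring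
    rw [e1]
    set u : ℚ := ((a : ℚ) - v) / d
    set w : ℚ := (X : ℚ) / d
    have hw : 0 ≤ w := by positivity
    have h1 := Int.le_ceil (u + w)
    have h2 := Int.ceil_lt_add_one (u + w)
    have h3 := Int.le_ceil u
    have h4 := Int.ceil_lt_add_one u
    rw [abs_le]
    constructor
    · have := le_max_left ((⌈u + w⌉ : ℚ) - ⌈u⌉) 0
      linarith
    · have h5 : max ((⌈u + w⌉ : ℚ) - ⌈u⌉) 0 ≤ w + 1 := by
        apply max_le <;> linarith
      linarith
  have := (Rat.cast_le (K := ℝ)).2 key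
  push_cast at this
  exact this

lemma count_gen (Ω : ℕ → Finset ℕ) (a X : ℕ) (T : Finset ℕ) :
    (∀ q ∈ T, q.Prime ∧ Ω q ⊆ range q) → ∀ d v : ℕ, 0 < d → (∀ q ∈ T, Nat.Coprime d q) →
    |(({t ∈ Ico a (a + X) | t ≡ v [MOD d] ∧ ∀ q ∈ T, t % q ∈ Ω q} : Finset ℕ).card : ℝ)
      - X / d * ∏ q ∈ T, (((Ω q).card : ℝ) / q)| ≤ ∏ q ∈ T, ((Ω q).card : ℝ) := by
  induction T using Finset.induction_on with
  | empty =>
    intro _ d v hd _
    simpa using count_ap a X d v hd
  | insert q0 T hq0 ih =>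
    intro hT d v hd hcop
    have hq0p : q0.Prime := (hT q0 (mem_insert_self _ _)).1
    have hq0s : Ω q0 ⊆ range q0 := (hT q0 (mem_insert_self _ _)).2
    have hcop0 : Nat.Coprime d q0 := hcop q0 (mem_insert_self _ _)
    have ihT := ih (fun q hq => hT q (mem_insert_of_mem hq))
    set s : Finset ℕ := {t ∈ Ico a (a + X) | t ≡ v [MOD d] ∧ ∀ q ∈ insert q0 T, t % q ∈ Ω q} with hs
    have hmaps : ∀ t ∈ s, t % q0 ∈ Ω q0 := by
      intro t ht
      rw [hs, mem_filter] at ht
      exact ht.2.2 q0 (mem_insert_self _ _)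
    have hcard : s.card = ∑ c ∈ Ω q0, (s.filter (fun t => t % q0 = c)).card :=
      Finset.card_eq_sum_card_fiberwise hmaps
    have hfib : ∀ c ∈ Ω q0, s.filter (fun t => t % q0 = c) =
        {t ∈ Ico a (a + X) | t ≡ (Nat.chineseRemainder hcop0 v c : ℕ) [MOD (d * q0)] ∧
          ∀ q ∈ T, t % q ∈ Ω q} := by
      intro c hc
      have hc1 : c < q0 := by simpa using hq0s hc
      have hcr := (Nat.chineseRemainder hcop0 v c).2
      ext t
      rw [hs]
      simp only [mem_filter, mem_insert, forall_eq_or_imp, and_assoc]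
      have hiff : t ≡ (Nat.chineseRemainder hcop0 v c : ℕ) [MOD (d * q0)] ↔
          t ≡ v [MOD d] ∧ t % q0 = c := by
        rw [← Nat.modEq_and_modEq_iff_modEq_mul hcop0]
        constructor
        · rintro ⟨h1, h2⟩
          refine ⟨h1.trans hcr.1, ?_⟩
          have := h2.trans hcr.2
          unfold Nat.ModEq at this
          rwa [Nat.mod_eq_of_lt hc1] at this
        · rintro ⟨h1, h2⟩
          refine ⟨h1.trans hcr.1.symm, ?_⟩
          refine Nat.ModEq.trans ?_ hcr.2.symm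
          unfold Nat.ModEq
          rw [Nat.mod_eq_of_lt hc1, h2]
      rw [hiff]
      constructor
      · rintro ⟨h1, h2, h3, h4, h5⟩
        exact ⟨h1, ⟨h2, h5⟩, h4⟩
      · rintro ⟨h1, ⟨h2, h3⟩, h4⟩
        exact ⟨h1, h2, h3 ▸ hc, h4, h3⟩
    have hq00 : (0 : ℝ) < q0 := by exact_mod_cast hq0p.pos
    have hd0 : (0 : ℝ) < d := by exact_mod_cast hd
    rw [hcard, Finset.prod_insert hq0, Finset.prod_insert hq0]
    push_cast
    have e1 : (X : ℝ) / d * (((Ω q0).card : ℝ) / q0 * ∏ q ∈ T, (((Ω q).card : ℝ) / q)) =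
        ∑ _c ∈ Ω q0, (X : ℝ) / ((d * q0 : ℕ) : ℝ) * ∏ q ∈ T, (((Ω q).card : ℝ) / q) := by
      rw [Finset.sum_const, nsmul_eq_mul, Nat.cast_mul]
      generalize ∏ q ∈ T, (((Ω q).card : ℝ) / q) = W
      ring
    rw [e1, ← Finset.sum_sub_distrib]
    refine (Finset.abs_sum_le_sum_abs _ _).trans ?_
    have e2 : ((Ω q0).card : ℝ) * ∏ q ∈ T, ((Ω q).card : ℝ) =
        ∑ _c ∈ Ω q0, ∏ q ∈ T, ((Ω q).card : ℝ) := by
      rw [Finset.sum_const, nsmul_eq_mul]
    rw [e2]
    apply Finset.sum_le_sum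
    intro c hc
    rw [hfib c hc]
    apply ihT (d * q0) _ (Nat.mul_pos hd hq0p.pos)
    intro q hq
    apply Nat.Coprime.mul_left (hcop q (mem_insert_of_mem hq))
    rw [Nat.coprime_primes hq0p (hT q (mem_insert_of_mem hq)).1]
    rintro rfl
    exact hq0 hq

lemma bonf (B : Finset ℕ) (r : ℕ) (hr : Even r) :
    (if B = ∅ then (1 : ℝ) else 0) ≤ ∑ T ∈ B.powerset.filter (fun T => T.card ≤ r), (-1 : ℝ) ^ T.card := by
  have h1 : ∑ T ∈ B.powerset.filter (fun T => T.card ≤ r), (-1 : ℝ) ^ T.card =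
      ∑ T ∈ B.powerset, (fun j => if j ≤ r then (-1 : ℝ) ^ j else 0) T.card := by
    rw [Finset.sum_filter]
  rw [h1, Finset.sum_powerset_apply_card (fun j => if j ≤ r then (-1 : ℝ) ^ j else 0)]
  have h2 : ∑ m ∈ range (B.card + 1), (B.card).choose m • (fun j => if j ≤ r then (-1 : ℝ) ^ j else 0) m
      = ∑ m ∈ range (r + 1), (-1 : ℝ) ^ m * (B.card).choose m := by
    have h3 : ∑ m ∈ range (B.card + 1), (B.card).choose m • (fun j => if j ≤ r then (-1 : ℝ) ^ j else 0) m =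
        ∑ m ∈ range (B.card + 1 + (r + 1)), (B.card).choose m • (fun j => if j ≤ r then (-1 : ℝ) ^ j else 0) m := by
      apply Finset.sum_subset
      · intro x hx; rw [mem_range] at *; omega
      · intro x _ hx
        rw [mem_range] at hx
        rw [Nat.choose_eq_zero_of_lt (by omega)]
        simp
    have h4 : ∑ m ∈ range (r + 1), (-1 : ℝ) ^ m * (B.card).choose m =
        ∑ m ∈ range (B.card + 1 + (r + 1)), (B.card).choose m • (fun j => if j ≤ r then (-1 : ℝ) ^ j else 0) m := by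
      have h5 : ∑ m ∈ range (r + 1), (-1 : ℝ) ^ m * (B.card).choose m =
        ∑ m ∈ range (r + 1), (B.card).choose m • (fun j => if j ≤ r then (-1 : ℝ) ^ j else 0) m := by
        apply Finset.sum_congr rfl
        intro m hm
        rw [mem_range] at hm
        simp only [nsmul_eq_mul]
        rw [if_pos (by omega), mul_comm]
      rw [h5]
      apply Finset.sum_subset
      · intro x hx; rw [mem_range] at *; omega
      · intro x _ hx
        rw [mem_range] at hx
        simp only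
        rw [if_neg (by omega)]
        simp
    rw [h3, h4]
  rw [h2]
  split_ifs with hB
  · subst hB
    have : ∑ m ∈ range (r + 1), (-1 : ℝ) ^ m * ((∅ : Finset ℕ).card).choose m = 1 := by
      rw [Finset.sum_range_succ']
      simp
    rw [this]
  · obtain ⟨n, hn⟩ : ∃ n, B.card = n + 1 := by
      have := Finset.card_pos.2 (Finset.nonempty_iff_ne_empty.2 hB)
      exact ⟨B.card - 1, by omega⟩
    rw [hn]
    have h5 := Int.alternating_sum_range_choose_eq_choose (n := n) (m := r)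
    have h6 : ∑ m ∈ range (r + 1), (-1 : ℝ) ^ m * ((n + 1).choose m : ℝ) = (-1) ^ r * n.choose r := by
      exact_mod_cast h5
    rw [h6, hr.neg_one_pow, one_mul]
    positivity

/-- Brun's pure sieve, upper bound. -/
theorem brun (P : Finset ℕ) (Ω : ℕ → Finset ℕ) (hP : ∀ q ∈ P, q.Prime ∧ Ω q ⊆ range q)
    (a X r : ℕ) (hr : Even r) :
    (({t ∈ Ico a (a + X) | ∀ q ∈ P, t % q ∉ Ω q} : Finset ℕ).card : ℝ) ≤
      X * (∏ q ∈ P, (1 - ((Ω q).card : ℝ) / q) +
        Real.exp (-r) * ∏ q ∈ P, (1 + Real.exp 1 * (((Ω q).card : ℝ) / q))) +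
      ∑ T ∈ P.powerset.filter (fun T => T.card ≤ r), ∏ q ∈ T, ((Ω q).card : ℝ) := by
  set g : ℕ → ℝ := fun q => ((Ω q).card : ℝ) / q with hg
  have hg0 : ∀ q, 0 ≤ g q := fun q => by simp only [hg]; positivity
  -- step 1
  have step1 : (({t ∈ Ico a (a + X) | ∀ q ∈ P, t % q ∉ Ω q} : Finset ℕ).card : ℝ) ≤
      ∑ T ∈ P.powerset.filter (fun T => T.card ≤ r), (-1 : ℝ) ^ T.card *
        (({t ∈ Ico a (a + X) | ∀ q ∈ T, t % q ∈ Ω q} : Finset ℕ).card : ℝ) := by
    have h1 : (({t ∈ Ico a (a + X) | ∀ q ∈ P, t % q ∉ Ω q} : Finset ℕ).card : ℝ) =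
        ∑ t ∈ Ico a (a + X), (if P.filter (fun q => t % q ∈ Ω q) = ∅ then (1 : ℝ) else 0) := by
      rw [Finset.card_eq_sum_ones, Finset.sum_filter]
      push_cast
      apply Finset.sum_congr rfl
      intro t _
      congr 1
      rw [Finset.filter_eq_empty_iff]
    rw [h1]
    have h2 : ∀ t ∈ Ico a (a + X), (if P.filter (fun q => t % q ∈ Ω q) = ∅ then (1 : ℝ) else 0) ≤
        ∑ T ∈ P.powerset.filter (fun T => T.card ≤ r), (-1 : ℝ) ^ T.card *
          (if ∀ q ∈ T, t % q ∈ Ω q then (1 : ℝ) else 0) := by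
      intro t _
      refine (bonf _ r hr).trans (le_of_eq ?_)
      have h3 : (P.filter (fun q => t % q ∈ Ω q)).powerset.filter (fun T => T.card ≤ r) =
          (P.powerset.filter (fun T => T.card ≤ r)).filter (fun T => ∀ q ∈ T, t % q ∈ Ω q) := by
        ext T
        simp only [mem_filter, mem_powerset, Finset.subset_iff]
        constructor
        · rintro ⟨h1, h2⟩
          exact ⟨⟨fun q hq => (h1 hq).1, h2⟩, fun q hq => (h1 hq).2⟩
        · rintro ⟨⟨h1, h2⟩, h3⟩
          exact ⟨fun q hq => ⟨h1 hq, h3 q hq⟩, h2⟩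
      rw [h3, Finset.sum_filter]
      apply Finset.sum_congr rfl
      intro T _
      split_ifs <;> simp
    refine (Finset.sum_le_sum h2).trans (le_of_eq ?_)
    rw [Finset.sum_comm]
    apply Finset.sum_congr rfl
    intro T _
    rw [← Finset.mul_sum]
    congr 1
    rw [Finset.card_eq_sum_ones, Finset.sum_filter]
    push_cast
    rfl
  -- step 2
  have step2 : ∀ T ∈ P.powerset.filter (fun T => T.card ≤ r),
      (-1 : ℝ) ^ T.card * (({t ∈ Ico a (a + X) | ∀ q ∈ T, t % q ∈ Ω q} : Finset ℕ).card : ℝ) ≤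
      X * ((-1 : ℝ) ^ T.card * ∏ q ∈ T, g q) + ∏ q ∈ T, ((Ω q).card : ℝ) := by
    intro T hT
    rw [mem_filter, mem_powerset] at hT
    have h1 := count_gen Ω a X T (fun q hq => hP q (hT.1 hq)) 1 0 one_pos
      (fun q _ => Nat.coprime_one_left q)
    have h2 : ({t ∈ Ico a (a + X) | t ≡ 0 [MOD 1] ∧ ∀ q ∈ T, t % q ∈ Ω q} : Finset ℕ) =
        {t ∈ Ico a (a + X) | ∀ q ∈ T, t % q ∈ Ω q} := by
      apply Finset.filter_congr
      intro t _
      simp [Nat.modEq_one]
    rw [h2] at h1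
    set N : ℝ := (({t ∈ Ico a (a + X) | ∀ q ∈ T, t % q ∈ Ω q} : Finset ℕ).card : ℝ)
    have h3 : (X : ℝ) / ((1 : ℕ) : ℝ) * ∏ q ∈ T, (((Ω q).card : ℝ) / q) = X * ∏ q ∈ T, g q := by
      simp [hg]
    rw [h3] at h1
    rw [abs_le] at h1
    rcases neg_one_pow_eq_or ℝ T.card with h4 | h4 <;> rw [h4] <;> linarith
  have step3 : ∑ T ∈ P.powerset.filter (fun T => T.card ≤ r), ((-1 : ℝ) ^ T.card * ∏ q ∈ T, g q) ≤
      ∏ q ∈ P, (1 - g q) + Real.exp (-r) * ∏ q ∈ P, (1 + Real.exp 1 * g q) := by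
    have h1 : ∏ q ∈ P, (1 - g q) = ∑ T ∈ P.powerset, (-1 : ℝ) ^ T.card * ∏ q ∈ T, g q := by
      have : ∏ q ∈ P, (1 - g q) = ∏ q ∈ P, (1 + (-g q)) := by simp [sub_eq_add_neg]
      rw [this, Finset.prod_one_add]
      apply Finset.sum_congr rfl
      intro T _
      rw [Finset.prod_neg]
    have h2 : ∑ T ∈ P.powerset, (-1 : ℝ) ^ T.card * ∏ q ∈ T, g q =
        ∑ T ∈ P.powerset.filter (fun T => T.card ≤ r), ((-1 : ℝ) ^ T.card * ∏ q ∈ T, g q) +
        ∑ T ∈ P.powerset.filter (fun T => ¬ T.card ≤ r), ((-1 : ℝ) ^ T.card * ∏ q ∈ T, g q) :=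
      (Finset.sum_filter_add_sum_filter_not _ _ _).symm
    have h3 : -∑ T ∈ P.powerset.filter (fun T => ¬ T.card ≤ r), ((-1 : ℝ) ^ T.card * ∏ q ∈ T, g q) ≤
        Real.exp (-r) * ∏ q ∈ P, (1 + Real.exp 1 * g q) := by
      rw [Finset.prod_one_add, Finset.mul_sum, ← Finset.sum_neg_distrib]
      have h4 : ∑ T ∈ P.powerset.filter (fun T => ¬ T.card ≤ r), -((-1 : ℝ) ^ T.card * ∏ q ∈ T, g q) ≤
          ∑ T ∈ P.powerset.filter (fun T => ¬ T.card ≤ r), Real.exp (-r) * ∏ q ∈ T, (Real.exp 1 * g q) := by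
        apply Finset.sum_le_sum
        intro T hT
        rw [mem_filter] at hT
        have hprod : 0 ≤ ∏ q ∈ T, g q := Finset.prod_nonneg (fun q _ => hg0 q)
        rw [Finset.prod_mul_distrib, Finset.prod_const, ← mul_assoc]
        have h5 : 1 ≤ Real.exp (-r) * Real.exp 1 ^ T.card := by
          rw [← Real.exp_nat_mul, ← Real.exp_add, mul_one]
          apply Real.one_le_exp
          have : (r : ℝ) < T.card := by exact_mod_cast (by omega : r < T.card)
          linarith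
        have h6 : -((-1 : ℝ) ^ T.card * ∏ q ∈ T, g q) ≤ ∏ q ∈ T, g q := by
          rcases neg_one_pow_eq_or ℝ T.card with h4 | h4 <;> rw [h4] <;> linarith
        nlinarith
      refine h4.trans ?_
      apply Finset.sum_le_sum_of_subset_of_nonneg (Finset.filter_subset _ _)
      intro T _ _
      apply mul_nonneg (Real.exp_pos _).le
      apply Finset.prod_nonneg
      intro q _
      exact mul_nonneg (Real.exp_pos _).le (hg0 q)
    linarith
  refine step1.trans ((Finset.sum_le_sum step2).trans ?_)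
  rw [Finset.sum_add_distrib, ← Finset.mul_sum]
  have hX : (0 : ℝ) ≤ X := by positivity
  have := mul_le_mul_of_nonneg_left step3 hX
  linarith

end Pool.Agent.W_MP_83c777_nt
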