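import Mathlib

set_option autoImplicit false

namespace Pool.Agent.W_MP_83c777_nt

open Finset

/-- P1: Mertens-type product bound. -/
theorem prod_one_sub_inv_le {n : ℕ} (hn : 2 ≤ n) :
    ∏ q ∈ Nat.primesLE n, (1 - 1 / (q : ℝ)) ≤ 1 / Real.log n := by
  have hlog : 0 < Real.log n := Real.log_pos (by exact_mod_cast (by omega : 1 < n))
  let f : ℕ →* ℝ :=
    { toFun := fun n => (n : ℝ)⁻¹
      map_one' := by simp
      map_mul' := by intro a b; push_cast; rw [mul_inv] }
  have hf : ∀ {p : ℕ}, p.Prime → ‖f p‖ < 1 := by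
    intro p hp
    have h1 : (1 : ℝ) < p := by exact_mod_cast hp.one_lt
    show ‖(p : ℝ)⁻¹‖ < 1
    rw [norm_inv, Real.norm_natCast]
    exact inv_lt_one_of_one_lt₀ h1
  obtain ⟨hs, hsum⟩ := EulerProduct.summable_and_hasSum_smoothNumbers_prod_primesBelow_geometric hf (n + 1)
  -- bound by a finite sum
  have hpart : ∑ m ∈ Icc 1 n, (m : ℝ)⁻¹ ≤ ∏ p ∈ (n + 1).primesBelow, (1 - f p)⁻¹ := by
    let g : (Icc 1 n : Finset ℕ) → (n + 1).smoothNumbers := fun m =>
      ⟨m.1, Nat.mem_smoothNumbers_of_lt (by have := m.2; rw [mem_Icc] at this; omega)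
        (by have := m.2; rw [mem_Icc] at this; omega)⟩
    have hg : Function.Injective g := by
      intro a b hab
      apply Subtype.ext
      exact congrArg (fun x => x.1) hab
    have h1 : ∑ m ∈ Icc 1 n, (m : ℝ)⁻¹ = ∑ m ∈ (Finset.univ.map ⟨g, hg⟩), f m.1 := by
      rw [Finset.sum_map]
      rw [← Finset.sum_coe_sort]
      rfl
    rw [h1]
    apply sum_le_hasSum _ _ hsum
    intro i _
    show 0 ≤ ((i.1 : ℕ) : ℝ)⁻¹
    positivity
  have hharm : Real.log n ≤ ∑ m ∈ Icc 1 n, (m : ℝ)⁻¹ := by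
    have h1 := log_add_one_le_harmonic n
    rw [harmonic_eq_sum_Icc] at h1
    push_cast at h1
    have h2 : Real.log n ≤ Real.log (n + 1) := Real.log_le_log (by positivity) (by linarith)
    linarith
  have hprod : ∏ q ∈ Nat.primesLE n, (1 - 1 / (q : ℝ)) = (∏ p ∈ (n + 1).primesBelow, (1 - f p)⁻¹)⁻¹ := by
    rw [← Finset.prod_inv_distrib]
    apply Finset.prod_congr rfl
    intro p _
    show 1 - 1 / (p : ℝ) = ((1 - (p : ℝ)⁻¹)⁻¹)⁻¹
    rw [inv_inv, one_div]
  rw [hprod, ← one_div]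
  exact one_div_le_one_div_of_le hlog (hharm.trans hpart)

/-- dyadic block -/
lemma block_sum_le (j : ℕ) (hj : 1 ≤ j) :
    ∑ q ∈ (Nat.primesLE (2 ^ (j + 1))).filter (fun q => 2 ^ j < q), 1 / (q : ℝ) ≤ 4 / j := by
  have hl2 : 0 < Real.log 2 := Real.log_pos (by norm_num)
  have hj0 : (0 : ℝ) < j := by exact_mod_cast hj
  have hterm : ∀ q ∈ (Nat.primesLE (2 ^ (j + 1))).filter (fun q => 2 ^ j < q),
      1 / (q : ℝ) ≤ Real.log q / (2 ^ j * (j * Real.log 2)) := by
    intro q hq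
    rw [mem_filter] at hq
    have h1 : (2 : ℝ) ^ j < q := by exact_mod_cast hq.2
    have hq0 : (0 : ℝ) < q := lt_trans (by positivity) h1
    have h2 : j * Real.log 2 ≤ Real.log q := by
      have := Real.log_le_log (by positivity) h1.le
      rwa [Real.log_pow] at this
    rw [div_le_div_iff₀ hq0 (by positivity), one_mul]
    have h3 : 0 ≤ Real.log q := le_trans (by positivity) h2
    calc 2 ^ j * (j * Real.log 2) ≤ q * Real.log q := by
          apply mul_le_mul h1.le h2 (by positivity) hq0.le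
      _ = Real.log q * q := by ring
  refine (Finset.sum_le_sum hterm).trans ?_
  rw [← Finset.sum_div]
  have hth : ∑ q ∈ (Nat.primesLE (2 ^ (j + 1))).filter (fun q => 2 ^ j < q), Real.log q
      ≤ Real.log 4 * 2 ^ (j + 1) := by
    have h1 := Chebyshev.theta_le_log4_mul_x (x := ((2 ^ (j + 1) : ℕ) : ℝ)) (by positivity)
    rw [Chebyshev.theta_eq_sum_primesLE_log] at h1
    push_cast at h1
    refine le_trans ?_ h1
    apply Finset.sum_le_sum_of_subset_of_nonneg (Finset.filter_subset _ _)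
    intro q _ _
    exact Real.log_natCast_nonneg q
  have h4 : Real.log 4 = 2 * Real.log 2 := by
    rw [show (4 : ℝ) = 2 ^ 2 by norm_num, Real.log_pow]; norm_num
  rw [div_le_div_iff₀ (by positivity) hj0]
  calc (∑ q ∈ (Nat.primesLE (2 ^ (j + 1))).filter (fun q => 2 ^ j < q), Real.log q) * j
      ≤ (Real.log 4 * 2 ^ (j + 1)) * j := by gcongr
    _ = 4 * (2 ^ j * (j * Real.log 2)) := by rw [h4]; ring

lemma sum_inv_primes_pow_le (J : ℕ) (hJ : 1 ≤ J) :
    ∑ q ∈ Nat.primesLE (2 ^ J), 1 / (q : ℝ) ≤ 5 + 4 * Real.log J := by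
  have key : ∀ J : ℕ, ∑ q ∈ Nat.primesLE (2 ^ (J + 1)), 1 / (q : ℝ) ≤
      1 / 2 + ∑ j ∈ Icc 1 J, 4 / (j : ℝ) := by
    intro J
    induction J with
    | zero =>
      have : Nat.primesLE (2 ^ (0 + 1)) = {2} := by decide
      rw [this]; simp
    | succ J ih =>
      have hsplit : Nat.primesLE (2 ^ (J + 1 + 1)) = Nat.primesLE (2 ^ (J + 1)) ∪
          (Nat.primesLE (2 ^ (J + 1 + 1))).filter (fun q => 2 ^ (J + 1) < q) := by
        ext q
        simp only [mem_union, mem_filter, Nat.mem_primesLE]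
        have : 2 ^ (J + 1) ≤ 2 ^ (J + 1 + 1) := Nat.pow_le_pow_right (by norm_num) (by omega)
        constructor
        · rintro ⟨h1, h2⟩
          by_cases h : q ≤ 2 ^ (J + 1)
          · exact Or.inl ⟨h, h2⟩
          · exact Or.inr ⟨⟨h1, h2⟩, by omega⟩
        · rintro (⟨h1, h2⟩ | ⟨⟨h1, h2⟩, _⟩)
          · exact ⟨by omega, h2⟩
          · exact ⟨h1, h2⟩
      have hdisj : Disjoint (Nat.primesLE (2 ^ (J + 1)))
          ((Nat.primesLE (2 ^ (J + 1 + 1))).filter (fun q => 2 ^ (J + 1) < q)) := by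
        rw [Finset.disjoint_left]
        intro q hq hq2
        rw [mem_filter] at hq2
        rw [Nat.mem_primesLE] at hq
        omega
      rw [hsplit, Finset.sum_union hdisj]
      have hb := block_sum_le (J + 1) (by omega)
      have : ∑ j ∈ Icc 1 (J + 1), 4 / (j : ℝ) = ∑ j ∈ Icc 1 J, 4 / (j : ℝ) + 4 / ((J + 1 : ℕ) : ℝ) := by
        rw [Finset.sum_Icc_succ_top (by omega)]
      rw [this]
      linarith
  obtain ⟨I, rfl⟩ : ∃ I, J = I + 1 := ⟨J - 1, by omega⟩
  refine (key I).trans ?_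
  have h1 : ∑ j ∈ Icc 1 I, 4 / (j : ℝ) = 4 * ∑ j ∈ Icc 1 I, (j : ℝ)⁻¹ := by
    rw [Finset.mul_sum]
    apply Finset.sum_congr rfl
    intro j _
    rw [div_eq_mul_inv]
  rcases Nat.eq_zero_or_pos I with hI | hI
  · subst hI
    simp
    norm_num
  · have h2 := harmonic_le_one_add_log I
    rw [harmonic_eq_sum_Icc] at h2
    push_cast at h2
    have h3 : Real.log I ≤ Real.log ((I + 1 : ℕ) : ℝ) := by
      apply Real.log_le_log (by exact_mod_cast hI)
      push_cast; linarith
    rw [h1]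
    linarith

/-- P2 -/
theorem sum_inv_primes_le {n : ℕ} (hn : 3 ≤ n) :
    ∑ q ∈ Nat.primesLE n, 1 / (q : ℝ) ≤ 4 * Real.log (Real.log n) + 15 := by
  have hn3 : (3 : ℝ) ≤ n := by exact_mod_cast hn
  -- J = clog 2 n
  set J := Nat.clog 2 n with hJ
  have hJ1 : 1 ≤ J := by
    rw [hJ]; exact Nat.clog_pos (by norm_num) (by omega)
  have h1 : n ≤ 2 ^ J := Nat.le_pow_clog (by norm_num) n
  have h2 : 2 ^ (J - 1) < n := by
    have := Nat.pow_pred_clog_lt_self (b := 2) (by norm_num) (x := n) (by omega)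
    exact this
  have hsub : Nat.primesLE n ⊆ Nat.primesLE (2 ^ J) := Nat.primesLE_mono h1
  have h3 : ∑ q ∈ Nat.primesLE n, 1 / (q : ℝ) ≤ ∑ q ∈ Nat.primesLE (2 ^ J), 1 / (q : ℝ) := by
    apply Finset.sum_le_sum_of_subset_of_nonneg hsub
    intro q _ _
    positivity
  have h4 := sum_inv_primes_pow_le J hJ1
  -- log J ≤ log (log n) + 2
  have hlogn : 1 ≤ Real.log n := by
    rw [Real.le_log_iff_exp_le (by linarith)]
    have := Real.exp_one_lt_d9
    linarith
  have h5 : (J : ℝ) ≤ 4 * Real.log n := by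
    have h6 : ((2 : ℝ)) ^ (J - 1) < n := by exact_mod_cast h2
    have h7 : ((J - 1 : ℕ) : ℝ) * Real.log 2 ≤ Real.log n := by
      have := Real.log_le_log (by positivity) h6.le
      rwa [Real.log_pow] at this
    have h8 : ((J - 1 : ℕ) : ℝ) = (J : ℝ) - 1 := by
      rw [Nat.cast_sub hJ1]; simp
    rw [h8] at h7
    have h9 := Real.log_two_gt_d9
    nlinarith
  have h6 : Real.log J ≤ Real.log (Real.log n) + 2 := by
    have h7 : Real.log J ≤ Real.log (4 * Real.log n) :=
      Real.log_le_log (by exact_mod_cast hJ1) h5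
    rw [Real.log_mul (by norm_num) (by linarith)] at h7
    have h8 : Real.log 4 ≤ 2 := by
      rw [show (4 : ℝ) = 2 ^ 2 by norm_num, Real.log_pow]
      have := Real.log_two_lt_d9
      push_cast
      linarith
    linarith
  linarith

/-- P4 -/
theorem sum_inv_primeFactors_le {n w : ℕ} (hn : 1 ≤ n) (hw : 3 ≤ w) :
    ∑ q ∈ n.primeFactors, 1 / (q : ℝ) ≤ 4 * Real.log (Real.log w) + 15 + 2 * Real.log n / w := by
  have hw0 : (0 : ℝ) < w := by exact_mod_cast (by omega : 0 < w)
  have hsplit : ∑ q ∈ n.primeFactors, 1 / (q : ℝ) =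
      ∑ q ∈ n.primeFactors.filter (fun q => q ≤ w), 1 / (q : ℝ) +
      ∑ q ∈ n.primeFactors.filter (fun q => ¬ q ≤ w), 1 / (q : ℝ) :=
    (Finset.sum_filter_add_sum_filter_not _ _ _).symm
  rw [hsplit]
  have h1 : ∑ q ∈ n.primeFactors.filter (fun q => q ≤ w), 1 / (q : ℝ) ≤
      ∑ q ∈ Nat.primesLE w, 1 / (q : ℝ) := by
    apply Finset.sum_le_sum_of_subset_of_nonneg
    · intro q hq
      rw [mem_filter] at hq
      rw [Nat.mem_primesLE]
      exact ⟨hq.2, Nat.prime_of_mem_primeFactors hq.1⟩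
    · intro q _ _; positivity
  have h2 := sum_inv_primes_le hw
  have h3 : ∑ q ∈ n.primeFactors.filter (fun q => ¬ q ≤ w), 1 / (q : ℝ) ≤
      (n.primeFactors.card : ℝ) * (1 / w) := by
    have : ∑ q ∈ n.primeFactors.filter (fun q => ¬ q ≤ w), 1 / (q : ℝ) ≤
        ∑ q ∈ n.primeFactors.filter (fun q => ¬ q ≤ w), 1 / (w : ℝ) := by
      apply Finset.sum_le_sum
      intro q hq
      rw [mem_filter] at hq
      apply one_div_le_one_div_of_le hw0
      exact_mod_cast (by omega : w ≤ q)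
    refine this.trans ?_
    rw [Finset.sum_const, nsmul_eq_mul]
    gcongr
    exact Finset.filter_subset _ _
  have h4 : (n.primeFactors.card : ℝ) ≤ 2 * Real.log n := by
    have h5 : 2 ^ n.primeFactors.card ≤ n := by
      calc 2 ^ n.primeFactors.card = ∏ _q ∈ n.primeFactors, 2 := by simp
        _ ≤ ∏ q ∈ n.primeFactors, q := by
          apply Finset.prod_le_prod' 
          intro q hq
          exact (Nat.prime_of_mem_primeFactors hq).two_le
        _ ≤ n := Nat.le_of_dvd hn (Nat.prod_primeFactors_dvd n)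
    have h6 : ((2 : ℝ)) ^ n.primeFactors.card ≤ n := by exact_mod_cast h5
    have h7 := Real.log_le_log (by positivity) h6
    rw [Real.log_pow] at h7
    have h9 := Real.log_two_gt_d9
    have h10 : (0 : ℝ) ≤ n.primeFactors.card := by positivity
    nlinarith
  have h5 : (n.primeFactors.card : ℝ) * (1 / w) ≤ 2 * Real.log n / w := by
    rw [mul_one_div]
    gcongr
  linarith

/-- P5 : Chebyshev upper bound for `π`. -/
theorem primeCounting_le {n : ℕ} (hn : 2 ≤ n) :
    (Nat.primeCounting n : ℝ) ≤ 6 * n / Real.log n := by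
  have hn1 : (1 : ℝ) < n := by exact_mod_cast (by omega : 1 < n)
  have hlog : 0 < Real.log n := Real.log_pos hn1
  have h1 := Chebyshev.pi_le_log4_mul_div hn1
  rw [Nat.floor_natCast] at h1
  refine h1.trans ?_
  have h2 : Real.log (Real.sqrt n) = Real.log n / 2 := Real.log_sqrt (by linarith)
  rw [h2]
  have h3 : Real.log 4 ≤ 1.4 := by
    rw [show (4 : ℝ) = 2 ^ 2 by norm_num, Real.log_pow]
    have := Real.log_two_lt_d9
    push_cast
    linarith
  -- sqrt n ≤ 3 n / log n ; log n ≤ 2 sqrt n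
  have h4 : Real.log n ≤ 2 * Real.sqrt n := by
    have h5 := Real.log_le_sub_one_of_pos (Real.sqrt_pos.2 (by linarith : (0:ℝ) < n))
    rw [h2] at h5
    linarith
  have hs : Real.sqrt n * Real.sqrt n = n := Real.mul_self_sqrt (by linarith)
  have h5 : Real.sqrt n ≤ 2 * n / Real.log n := by
    rw [le_div_iff₀ hlog]
    nlinarith [Real.sqrt_nonneg (n : ℝ)]
  have h6 : Real.log 4 * n / (Real.log n / 2) ≤ 4 * n / Real.log n := by
    rw [div_div_eq_mul_div]
    apply div_le_div_of_nonneg_right _ hlog.le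
    nlinarith
  calc Real.log 4 * n / (Real.log n / 2) + Real.sqrt n ≤ 4 * n / Real.log n + 2 * n / Real.log n := by
        linarith
    _ = 6 * n / Real.log n := by ring

end Pool.Agent.W_MP_83c777_nt
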