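import Mathlib
import Pool.Agent.W_MP_83c777_nt.Primes

set_option autoImplicit false

namespace Pool.Agent.W_MP_83c777_nt

open Finset

lemma inv_one_sub_le_exp {u : ℝ} (h0 : 0 ≤ u) (h1 : 2 * u ^ 2 ≤ 1) :
    (1 - u)⁻¹ ≤ Real.exp (2 * u) := by
  have hu : u < 1 := by nlinarith
  rw [inv_le_iff_one_le_mul₀ (by linarith)]
  have h2 := Real.quadratic_le_exp_of_nonneg (x := 2 * u) (by linarith)
  nlinarith [Real.exp_pos (2 * u), mul_nonneg h0 (sub_nonneg.2 h1)]

/-- P3: smooth numbers, by Rankin's trick. -/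
theorem smooth_count_le {z : ℝ} {k : ℕ} (hz : 8 ≤ z) (hk : 1 ≤ k) (S : Finset ℕ)
    (hSk : ∀ n ∈ S, 1 ≤ n ∧ n ≤ k) (hSz : ∀ n ∈ S, ∀ q : ℕ, q.Prime → q ∣ n → (q : ℝ) ≤ z) :
    (S.card : ℝ) ≤
      Real.exp 90 * k * Real.exp (-(Real.log k / Real.log z)) * (Real.log z) ^ 24 := by
  have hk0 : (0 : ℝ) < k := by exact_mod_cast hk
  have hlz : 2 ≤ Real.log z := by
    rw [Real.le_log_iff_exp_le (by linarith)]
    have h1 := Real.exp_one_lt_d9
    have h2 : Real.exp 2 = Real.exp 1 * Real.exp 1 := by rw [← Real.exp_add]; norm_num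
    rw [h2]
    nlinarith [Real.exp_pos 1]
  have hlz0 : 0 < Real.log z := by linarith
  set σ : ℝ := 1 - 1 / Real.log z with hσ
  have hinv : 1 / Real.log z ≤ 1 / 2 := one_div_le_one_div_of_le (by norm_num) hlz
  have hinv0 : 0 < 1 / Real.log z := by positivity
  have hσ1 : 1 / 2 ≤ σ := by rw [hσ]; linarith
  have hσ0 : σ ≠ 0 := by linarith
  set Z := ⌊z⌋₊ with hZ
  have hZ8 : 8 ≤ Z := by rw [hZ]; exact Nat.le_floor (by exact_mod_cast hz)
  have hZz : (Z : ℝ) ≤ z := Nat.floor_le (by linarith)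
  let f : ℕ →* ℝ :=
    { toFun := fun n => (n : ℝ) ^ (-σ)
      map_one' := by simp
      map_mul' := by
        intro a b
        push_cast
        rw [Real.mul_rpow (by positivity) (by positivity)] }
  have hfn : ∀ n : ℕ, f n = (n : ℝ) ^ (-σ) := fun n => rfl
  have hf2 : ∀ {p : ℕ}, p.Prime → f p ≤ (2 : ℝ) ^ (-σ) := by
    intro p hp
    rw [hfn]
    apply Real.rpow_le_rpow_of_nonpos (by norm_num) (by exact_mod_cast hp.two_le) (by linarith)
  have h2σ : 2 * ((2 : ℝ) ^ (-σ)) ^ 2 ≤ 1 := by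
    have h1 : ((2 : ℝ) ^ (-σ)) ^ 2 = (2 : ℝ) ^ (-(2 * σ)) := by
      rw [← Real.rpow_natCast, ← Real.rpow_mul (by norm_num)]
      congr 1
      push_cast; ring
    have h3 : (2 : ℝ) ^ (-(2 * σ)) ≤ (2 : ℝ) ^ (-(1 : ℝ)) := by
      apply Real.rpow_le_rpow_of_exponent_le (by norm_num)
      linarith
    rw [h1]
    have h4 : (2 : ℝ) ^ (-(1 : ℝ)) = 1 / 2 := by
      rw [Real.rpow_neg_one]; norm_num
    rw [h4] at h3
    linarith
  have h2pos : 0 < (2 : ℝ) ^ (-σ) := by positivity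
  have hf : ∀ {p : ℕ}, p.Prime → ‖f p‖ < 1 := by
    intro p hp
    have h1 : 0 ≤ f p := by rw [hfn]; positivity
    rw [Real.norm_of_nonneg h1]
    have := hf2 hp
    nlinarith
  obtain ⟨hs, hsum⟩ := EulerProduct.summable_and_hasSum_smoothNumbers_prod_primesBelow_geometric hf (Z + 1)
  have hmem : ∀ m ∈ S, m ∈ (Z + 1).smoothNumbers := by
    intro m hm
    rw [Nat.mem_smoothNumbers']
    intro p hp hpm
    have := hSz m hm p hp hpm
    have : p ≤ Z := Nat.le_floor this
    omega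
  have hpart : ∑ m ∈ S, (m : ℝ) ^ (-σ) ≤ ∏ p ∈ (Z + 1).primesBelow, (1 - f p)⁻¹ := by
    let g : S → (Z + 1).smoothNumbers := fun m => ⟨m.1, hmem m.1 m.2⟩
    have hg : Function.Injective g := by
      intro a b hab
      apply Subtype.ext
      exact congrArg (fun x => x.1) hab
    have h1 : ∑ m ∈ S, (m : ℝ) ^ (-σ) = ∑ m ∈ (Finset.univ.map ⟨g, hg⟩), f m.1 := by
      rw [Finset.sum_map]
      rw [← Finset.sum_coe_sort]
      rfl
    rw [h1]
    apply sum_le_hasSum _ _ hsum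
    intro i _
    rw [hfn]
    positivity
  have hcount : (S.card : ℝ) ≤ (k : ℝ) ^ σ * ∑ m ∈ S, (m : ℝ) ^ (-σ) := by
    rw [Finset.mul_sum]
    have : (S.card : ℝ) = ∑ _m ∈ S, (1 : ℝ) := by simp
    rw [this]
    apply Finset.sum_le_sum
    intro m hm
    have hm' := hSk m hm
    have hm0 : (0 : ℝ) < m := by exact_mod_cast hm'.1
    rw [Real.rpow_neg hm0.le, ← div_eq_mul_inv, one_le_div (by positivity)]
    apply Real.rpow_le_rpow hm0.le (by exact_mod_cast hm'.2) (by linarith)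
  have hprod : ∏ p ∈ (Z + 1).primesBelow, (1 - f p)⁻¹ ≤ Real.exp (6 * ∑ q ∈ Nat.primesLE Z, 1 / (q : ℝ)) := by
    rw [Finset.mul_sum, Real.exp_sum]
    show ∏ p ∈ Nat.primesLE Z, (1 - f p)⁻¹ ≤ _
    apply Finset.prod_le_prod
    · intro p hp
      have h1 := hf (Nat.prime_of_mem_primesLE hp)
      have h2 := (abs_lt.1 (by simpa using h1)).2
      have : 0 < 1 - f p := by linarith
      positivity
    · intro p hp
      have hpp := Nat.prime_of_mem_primesLE hp
      have hpZ := Nat.le_of_mem_primesLE hp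
      have hp0 : (0 : ℝ) < p := by exact_mod_cast hpp.pos
      have h1 : 0 ≤ f p := by rw [hfn]; positivity
      have h2 : 2 * (f p) ^ 2 ≤ 1 := by
        have h3 := hf2 hpp
        have : (f p) ^ 2 ≤ ((2 : ℝ) ^ (-σ)) ^ 2 := by gcongr
        linarith
      refine (inv_one_sub_le_exp h1 h2).trans ?_
      rw [Real.exp_le_exp]
      -- f p ≤ 3 / p
      have h4 : f p ≤ 3 / p := by
        rw [hfn]
        have h5 : (p : ℝ) ^ (-σ) = (p : ℝ) ^ (1 / Real.log z) * (p : ℝ)⁻¹ := by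
          rw [← Real.rpow_neg_one, ← Real.rpow_add hp0]
          congr 1
          rw [hσ]; ring
        rw [h5]
        have h6 : (p : ℝ) ^ (1 / Real.log z) ≤ 3 := by
          rw [Real.rpow_def_of_pos hp0]
          have h7 : Real.log p * (1 / Real.log z) ≤ 1 := by
            rw [mul_one_div, div_le_one hlz0]
            apply Real.log_le_log hp0
            have : (p : ℝ) ≤ Z := by exact_mod_cast hpZ
            linarith
          calc Real.exp (Real.log p * (1 / Real.log z)) ≤ Real.exp 1 := Real.exp_le_exp.2 h7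
            _ ≤ 3 := by have := Real.exp_one_lt_d9; linarith
        rw [div_eq_mul_inv]
        exact mul_le_mul_of_nonneg_right h6 (by positivity)
      calc 2 * f p ≤ 2 * (3 / p) := by linarith
        _ = 6 * (1 / p) := by ring
  have hsumZ := sum_inv_primes_le (n := Z) (by omega)
  have hlogZ : 0 < Real.log Z := Real.log_pos (by exact_mod_cast (by omega : 1 < Z))
  have hll : Real.log (Real.log Z) ≤ Real.log (Real.log z) := by
    apply Real.log_le_log hlogZ
    apply Real.log_le_log (by exact_mod_cast (by omega : 0 < Z)) hZz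
  have hexp : Real.exp (6 * ∑ q ∈ Nat.primesLE Z, 1 / (q : ℝ)) ≤ Real.exp 90 * (Real.log z) ^ 24 := by
    have h1 : Real.exp 90 * (Real.log z) ^ 24 = Real.exp (90 + 24 * Real.log (Real.log z)) := by
      rw [Real.exp_add]
      congr 1
      rw [show (24 : ℝ) * Real.log (Real.log z) = ((24 : ℕ) : ℝ) * Real.log (Real.log z) by norm_num,
        Real.exp_nat_mul, Real.exp_log hlz0]
    rw [h1, Real.exp_le_exp]
    linarith
  have hkσ : (k : ℝ) ^ σ = k * Real.exp (-(Real.log k / Real.log z)) := by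
    rw [hσ, Real.rpow_sub hk0, Real.rpow_one, Real.rpow_def_of_pos hk0, mul_one_div, Real.exp_neg,
      div_eq_mul_inv]
  calc (S.card : ℝ) ≤ (k : ℝ) ^ σ * ∑ m ∈ S, (m : ℝ) ^ (-σ) := hcount
    _ ≤ (k : ℝ) ^ σ * (Real.exp 90 * (Real.log z) ^ 24) := by
        gcongr
        exact hpart.trans (hprod.trans hexp)
    _ = Real.exp 90 * k * Real.exp (-(Real.log k / Real.log z)) * (Real.log z) ^ 24 := by
        rw [hkσ]; ring

end Pool.Agent.W_MP_83c777_nt
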