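import Mathlib
import Pool.Agent.W_MP_83c777_nt.Sieve
import Pool.Agent.W_MP_83c777_nt.Smooth

set_option autoImplicit false

namespace Pool.Agent.W_MP_83c777_nt

open Finset

lemma log_sixteen_facts {z : ℝ} (hz : 16 ≤ z) : 2 ≤ Real.log z ∧ 1 ≤ Real.log (Real.log z) := by
  have h1 : (2.75 : ℝ) ≤ Real.log z := by
    have h2 : Real.log 16 ≤ Real.log z := Real.log_le_log (by norm_num) hz
    have h3 : Real.log 16 = 4 * Real.log 2 := by
      rw [show (16 : ℝ) = 2 ^ 4 by norm_num, Real.log_pow]; norm_num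
    have := Real.log_two_gt_d9
    linarith
  refine ⟨by linarith, ?_⟩
  rw [Real.le_log_iff_exp_le (by linarith)]
  have := Real.exp_one_lt_d9
  linarith

theorem sieve_cor {z : ℝ} (hz : 16 ≤ z) {w : ℕ} (hw : w = 1 ∨ w = 2) (P : Finset ℕ)
    (hP : ∀ q ∈ P, q.Prime ∧ (q : ℝ) ≤ z) (Ω : ℕ → Finset ℕ)
    (hΩ : ∀ q ∈ P, Ω q ⊆ range q ∧ (Ω q).card = w) (a X : ℕ) :
    (({t ∈ Ico a (a + X) | ∀ q ∈ P, t % q ∉ Ω q} : Finset ℕ).card : ℝ) ≤
      5 * X * Real.exp (2 * w * ∑ q ∈ Nat.primesLE ⌊z⌋₊ \ P, 1 / (q : ℝ)) / (Real.log z) ^ w +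
      Real.exp (221 * Real.log z * Real.log (Real.log z)) := by
  obtain ⟨hlz2, hllz⟩ := log_sixteen_facts hz
  have hz0 : 0 < z := by linarith
  have hlz0 : 0 < Real.log z := by linarith
  set Z := ⌊z⌋₊ with hZ
  have hZz : (Z : ℝ) ≤ z := Nat.floor_le hz0.le
  have hZ16 : 16 ≤ Z := Nat.le_floor (by exact_mod_cast hz)
  have hZ1 : z < Z + 1 := Nat.lt_floor_add_one z
  have hZ0 : (0 : ℝ) < Z := by exact_mod_cast (by omega : 0 < Z)
  have hlogZ : Real.log z / 2 ≤ Real.log Z := by
    have h1 : z / 2 ≤ Z := by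
      have : (16 : ℝ) ≤ Z := by exact_mod_cast hZ16
      linarith
    have h2 : Real.log (z / 2) ≤ Real.log Z := Real.log_le_log (by positivity) h1
    rw [Real.log_div (by linarith) (by norm_num)] at h2
    have := Real.log_two_lt_d9
    linarith
  have hlogZz : Real.log Z ≤ Real.log z := Real.log_le_log hZ0 hZz
  have hlogZ0 : 0 < Real.log Z := by linarith
  have hPsub : P ⊆ Nat.primesLE Z := by
    intro q hq
    rw [Nat.mem_primesLE]
    exact ⟨Nat.le_floor (hP q hq).2, (hP q hq).1⟩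
  set σ := ∑ q ∈ Nat.primesLE Z \ P, 1 / (q : ℝ) with hσ
  have hσ0 : 0 ≤ σ := Finset.sum_nonneg (fun q _ => by positivity)
  have hwle : w ≤ 2 := by omega
  have hw1 : 1 ≤ w := by omega
  -- choose r
  obtain ⟨r, hreven, hr1, hr2⟩ : ∃ r : ℕ, Even r ∧ 24 * Real.log (Real.log z) + 84 ≤ r ∧
      (r : ℝ) ≤ 24 * Real.log (Real.log z) + 86 := by
    set y := 24 * Real.log (Real.log z) + 84 with hy
    have hy0 : 0 ≤ y / 2 := by rw [hy]; linarith
    refine ⟨2 * ⌈y / 2⌉₊, even_two_mul _, ?_, ?_⟩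
    · have := Nat.le_ceil (y / 2)
      push_cast; linarith
    · have := Nat.ceil_lt_add_one hy0
      push_cast; linarith
  have hb := brun P Ω (fun q hq => ⟨(hP q hq).1, (hΩ q hq).1⟩) a X r hreven
  refine hb.trans ?_
  -- main product
  have hprodP : ∏ q ∈ P, (1 - 1 / (q : ℝ)) ≤ 2 / Real.log z * Real.exp (2 * σ) := by
    have h1 : (∏ q ∈ Nat.primesLE Z \ P, (1 - 1 / (q : ℝ))) * ∏ q ∈ P, (1 - 1 / (q : ℝ)) =
        ∏ q ∈ Nat.primesLE Z, (1 - 1 / (q : ℝ)) := Finset.prod_sdiff hPsub
    have h2 := prod_one_sub_inv_le (n := Z) (by omega)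
    have hpos : ∀ q ∈ Nat.primesLE Z, 0 < 1 - 1 / (q : ℝ) := by
      intro q hq
      have h3 : (2 : ℝ) ≤ q := by exact_mod_cast (Nat.prime_of_mem_primesLE hq).two_le
      have h4 : 1 / (q : ℝ) ≤ 1 / 2 := one_div_le_one_div_of_le (by norm_num) h3
      linarith
    set A := ∏ q ∈ Nat.primesLE Z \ P, (1 - 1 / (q : ℝ)) with hA
    set B := ∏ q ∈ P, (1 - 1 / (q : ℝ)) with hB
    have hA0 : 0 < A := Finset.prod_pos (fun q hq => hpos q (Finset.sdiff_subset hq))
    have hB0 : 0 < B := Finset.prod_pos (fun q hq => hpos q (hPsub hq))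
    have hAinv : A⁻¹ ≤ Real.exp (2 * σ) := by
      rw [hA, ← Finset.prod_inv_distrib, hσ, Finset.mul_sum, Real.exp_sum]
      apply Finset.prod_le_prod
      · intro q hq
        have := hpos q (Finset.sdiff_subset hq)
        positivity
      · intro q hq
        have h3 : (2 : ℝ) ≤ q := by
          exact_mod_cast (Nat.prime_of_mem_primesLE (Finset.sdiff_subset hq)).two_le
        have h4 : 1 / (q : ℝ) ≤ 1 / 2 := one_div_le_one_div_of_le (by norm_num) h3
        have h5 : 0 ≤ 1 / (q : ℝ) := by positivity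
        exact inv_one_sub_le_exp h5 (by nlinarith)
    have hAB : A * B ≤ 2 / Real.log z := by
      rw [h1]
      refine h2.trans ?_
      rw [div_le_div_iff₀ hlogZ0 hlz0]
      linarith
    calc B = A⁻¹ * (A * B) := by field_simp
      _ ≤ Real.exp (2 * σ) * (2 / Real.log z) := by
          apply mul_le_mul hAinv hAB (by positivity) (Real.exp_pos _).le
      _ = _ := by ring
  have hprodP0 : 0 ≤ ∏ q ∈ P, (1 - 1 / (q : ℝ)) := by
    apply Finset.prod_nonneg
    intro q hq
    have h3 : (2 : ℝ) ≤ q := by exact_mod_cast (hP q hq).1.two_le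
    have h4 : 1 / (q : ℝ) ≤ 1 / 2 := one_div_le_one_div_of_le (by norm_num) h3
    linarith
  have hmain : ∏ q ∈ P, (1 - ((Ω q).card : ℝ) / q) ≤
      4 * Real.exp (2 * w * σ) / (Real.log z) ^ w := by
    have h1 : ∏ q ∈ P, (1 - ((Ω q).card : ℝ) / q) ≤ ∏ q ∈ P, (1 - 1 / (q : ℝ)) ^ w := by
      apply Finset.prod_le_prod
      · intro q hq
        rw [(hΩ q hq).2]
        have h3 : (2 : ℝ) ≤ q := by exact_mod_cast (hP q hq).1.two_le
        have h4 : (w : ℝ) ≤ 2 := by exact_mod_cast hwle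
        have : (w : ℝ) / q ≤ 1 := by
          rw [div_le_one (by linarith)]; linarith
        linarith
      · intro q hq
        rw [(hΩ q hq).2]
        rcases hw with rfl | rfl
        · simp
        · push_cast
          have : (1 - 1 / (q : ℝ)) ^ 2 = 1 - 2 / q + (1 / (q : ℝ)) ^ 2 := by ring
          rw [this]
          have : 0 ≤ (1 / (q : ℝ)) ^ 2 := by positivity
          linarith
    refine h1.trans ?_
    rw [Finset.prod_pow]
    refine (pow_le_pow_left₀ hprodP0 hprodP w).trans ?_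
    rw [mul_pow, div_pow, ← Real.exp_nat_mul]
    have h5 : (2 : ℝ) ^ w ≤ 4 := by rcases hw with rfl | rfl <;> norm_num
    have h6 : (w : ℝ) * (2 * σ) = 2 * w * σ := by ring
    rw [h6, div_mul_eq_mul_div]
    gcongr
  have hsumP : ∑ q ∈ P, 1 / (q : ℝ) ≤ 4 * Real.log (Real.log z) + 15 := by
    have h1 : ∑ q ∈ P, 1 / (q : ℝ) ≤ ∑ q ∈ Nat.primesLE Z, 1 / (q : ℝ) :=
      Finset.sum_le_sum_of_subset_of_nonneg hPsub (fun q _ _ => by positivity)
    have h2 := sum_inv_primes_le (n := Z) (by omega)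
    have h3 : Real.log (Real.log Z) ≤ Real.log (Real.log z) := Real.log_le_log hlogZ0 hlogZz
    linarith
  have htail : Real.exp (-r) * ∏ q ∈ P, (1 + Real.exp 1 * (((Ω q).card : ℝ) / q)) ≤
      1 / (Real.log z) ^ w := by
    have h1 : ∏ q ∈ P, (1 + Real.exp 1 * (((Ω q).card : ℝ) / q)) ≤
        Real.exp (∑ q ∈ P, Real.exp 1 * (((Ω q).card : ℝ) / q)) := by
      rw [Real.exp_sum]
      apply Finset.prod_le_prod
      · intro q _; positivity
      · intro q _
        have := Real.add_one_le_exp (Real.exp 1 * (((Ω q).card : ℝ) / q))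
        linarith
    have h2 : ∑ q ∈ P, Real.exp 1 * (((Ω q).card : ℝ) / q) ≤
        5.45 * ∑ q ∈ P, 1 / (q : ℝ) := by
      rw [Finset.mul_sum]
      apply Finset.sum_le_sum
      intro q hq
      rw [(hΩ q hq).2]
      have h4 : (w : ℝ) ≤ 2 := by exact_mod_cast hwle
      have h5 := Real.exp_one_lt_d9
      have h6 : Real.exp 1 * ((w : ℝ) / q) = (Real.exp 1 * w) * (1 / q) := by ring
      rw [h6]
      apply mul_le_mul_of_nonneg_right _ (by positivity)
      nlinarith [Real.exp_pos 1]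
    calc Real.exp (-r) * ∏ q ∈ P, (1 + Real.exp 1 * (((Ω q).card : ℝ) / q))
        ≤ Real.exp (-r) * Real.exp (∑ q ∈ P, Real.exp 1 * (((Ω q).card : ℝ) / q)) := by gcongr
      _ = Real.exp (-r + ∑ q ∈ P, Real.exp 1 * (((Ω q).card : ℝ) / q)) := by rw [Real.exp_add]
      _ ≤ Real.exp (-(2 * Real.log (Real.log z))) := by
          rw [Real.exp_le_exp]
          linarith
      _ = 1 / (Real.log z) ^ 2 := by
          rw [Real.exp_neg, one_div]
          congr 1
          rw [show (2 : ℝ) * Real.log (Real.log z) = ((2 : ℕ) : ℝ) * Real.log (Real.log z) by norm_num,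
            Real.exp_nat_mul, Real.exp_log hlz0]
      _ ≤ 1 / (Real.log z) ^ w := by
          apply one_div_le_one_div_of_le (by positivity)
          exact pow_le_pow_right₀ (by linarith) hwle
  have herr : ∑ T ∈ P.powerset.filter (fun T => T.card ≤ r), ∏ q ∈ T, ((Ω q).card : ℝ) ≤
      Real.exp (221 * Real.log z * Real.log (Real.log z)) := by
    have hμ : (1 : ℝ) ≤ 2 * z := by linarith
    have h1 : ∀ T ∈ P.powerset.filter (fun T => T.card ≤ r), ∏ q ∈ T, ((Ω q).card : ℝ) ≤
        (2 * z) ^ r * ∏ _q ∈ T, ((w : ℝ) / (2 * z)) := by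
      intro T hT
      rw [mem_filter, mem_powerset] at hT
      have h2 : ∏ q ∈ T, ((Ω q).card : ℝ) = (w : ℝ) ^ T.card := by
        rw [← Finset.prod_const]
        apply Finset.prod_congr rfl
        intro q hq
        rw [(hΩ q (hT.1 hq)).2]
      rw [h2, Finset.prod_const, div_pow]
      have h3 : (2 * z) ^ T.card ≤ (2 * z) ^ r := pow_le_pow_right₀ hμ hT.2
      have h4 : 0 < (2 * z) ^ T.card := by positivity
      rw [mul_div_assoc', le_div_iff₀ h4, mul_comm]
      gcongr
    refine (Finset.sum_le_sum h1).trans ?_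
    rw [← Finset.mul_sum]
    have h2 : ∑ T ∈ P.powerset.filter (fun T => T.card ≤ r), ∏ _q ∈ T, ((w : ℝ) / (2 * z)) ≤
        ∏ _q ∈ P, (1 + (w : ℝ) / (2 * z)) := by
      rw [Finset.prod_one_add]
      apply Finset.sum_le_sum_of_subset_of_nonneg (Finset.filter_subset _ _)
      intro T _ _
      apply Finset.prod_nonneg
      intro q _; positivity
    have h3 : ∏ _q ∈ P, (1 + (w : ℝ) / (2 * z)) ≤ Real.exp 1 := by
      rw [Finset.prod_const]
      have h4 : 1 + (w : ℝ) / (2 * z) ≤ Real.exp ((w : ℝ) / (2 * z)) := by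
        have := Real.add_one_le_exp ((w : ℝ) / (2 * z)); linarith
      calc (1 + (w : ℝ) / (2 * z)) ^ P.card ≤ (Real.exp ((w : ℝ) / (2 * z))) ^ P.card :=
            pow_le_pow_left₀ (by positivity) h4 _
        _ = Real.exp (P.card * ((w : ℝ) / (2 * z))) := by rw [← Real.exp_nat_mul]
        _ ≤ Real.exp 1 := by
            rw [Real.exp_le_exp]
            have hPc : (P.card : ℝ) ≤ z := by
              have h5 : P ⊆ Icc 1 Z := by
                intro q hq
                rw [mem_Icc]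
                exact ⟨(hP q hq).1.one_le, Nat.le_floor (hP q hq).2⟩
              have h6 := Finset.card_le_card h5
              rw [Nat.card_Icc] at h6
              have h7 : (P.card : ℝ) ≤ Z := by exact_mod_cast (by omega : P.card ≤ Z)
              linarith
            have h8 : (w : ℝ) ≤ 2 := by exact_mod_cast hwle
            have h9 : (P.card : ℝ) * ((w : ℝ) / (2 * z)) = (P.card * w) / (2 * z) := by ring
            rw [h9, div_le_one (by positivity)]
            have h10 : (0 : ℝ) ≤ P.card := by positivity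
            nlinarith
    have h5 : (2 * z) ^ r = Real.exp (r * Real.log (2 * z)) := by
      rw [Real.exp_nat_mul, Real.exp_log (by positivity)]
    calc (2 * z) ^ r * ∑ T ∈ P.powerset.filter (fun T => T.card ≤ r), ∏ _q ∈ T, ((w : ℝ) / (2 * z))
        ≤ (2 * z) ^ r * Real.exp 1 := by
          gcongr
          exact h2.trans h3
      _ = Real.exp (r * Real.log (2 * z) + 1) := by rw [h5, Real.exp_add]
      _ ≤ Real.exp (221 * Real.log z * Real.log (Real.log z)) := by
          rw [Real.exp_le_exp]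
          have h6 : Real.log (2 * z) ≤ 2 * Real.log z := by
            rw [Real.log_mul (by norm_num) (by linarith)]
            have := Real.log_two_lt_d9
            linarith
          have h7 : (r : ℝ) ≤ 110 * Real.log (Real.log z) := by linarith
          have h8 : (r : ℝ) * Real.log (2 * z) ≤ (110 * Real.log (Real.log z)) * (2 * Real.log z) := by
            apply mul_le_mul h7 h6 _ (by positivity)
            apply Real.log_nonneg; linarith
          have h9 : 1 ≤ Real.log z * Real.log (Real.log z) := by nlinarith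
          nlinarith
  have hX : (0 : ℝ) ≤ X := by positivity
  have hexp1 : 1 ≤ Real.exp (2 * w * σ) := by
    apply Real.one_le_exp; positivity
  have h1 : ∏ q ∈ P, (1 - ((Ω q).card : ℝ) / q) +
      Real.exp (-r) * ∏ q ∈ P, (1 + Real.exp 1 * (((Ω q).card : ℝ) / q)) ≤
      5 * Real.exp (2 * w * σ) / (Real.log z) ^ w := by
    have h2 : 1 / (Real.log z) ^ w ≤ Real.exp (2 * w * σ) / (Real.log z) ^ w := by gcongr
    calc _ ≤ 4 * Real.exp (2 * w * σ) / (Real.log z) ^ w + Real.exp (2 * w * σ) / (Real.log z) ^ w := by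
          linarith
      _ = _ := by ring
  have h2 := mul_le_mul_of_nonneg_left h1 hX
  have h3 : (X : ℝ) * (5 * Real.exp (2 * w * σ) / (Real.log z) ^ w) =
      5 * X * Real.exp (2 * w * σ) / (Real.log z) ^ w := by ring
  rw [h3] at h2
  linarith

end Pool.Agent.W_MP_83c777_nt
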