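import Mathlib
import Pool.Agent.W_MP_83c777_nt.SieveCor
import Pool.Agent.W_MP_83c777_nt.Params

set_option autoImplicit false

namespace Pool.Agent.W_MP_83c777_nt

open Finset Filter

/-- sieving level at scale `b` -/
noncomputable def zb (b : ℕ) : ℝ := Real.exp (lam b ^ 97)

/-- D1 : demand bound at scale `b`, arbitrary residues. -/
theorem demand_low : ∃ CD : ℝ, 0 < CD ∧ ∀ᶠ b : ℕ in atTop, ∀ (C : Finset ℕ) (r : ℕ → ℕ),
    (∀ q : ℕ, q.Prime → (q : ℝ) ≤ zb b → q ∉ C → r q < q) →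
    ∑ q ∈ C.filter (fun q : ℕ => q.Prime ∧ (q : ℝ) ≤ zb b), 1 / (q : ℝ) ≤ 1 →
    ∀ (a : ℕ) (S : Finset ℕ), (∀ x ∈ S, a ≤ x ∧ x < a + b) →
      (∀ x ∈ S, ∀ q : ℕ, q.Prime → (q : ℝ) ≤ zb b → q ∉ C → x % q ≠ r q) →
      (S.card : ℝ) ≤ CD * b / (lam b) ^ 97 := by
  refine ⟨5 * Real.exp 2 + 1, by positivity, ?_⟩
  have e1 := ev_lam (ev_log_le 21437)
  have e2 := ev_lam (ev_pow_le_exp 1 97)
  have e3 := ev_lam (eventually_ge_atTop (3 : ℝ))
  filter_upwards [e1, e2, e3, eventually_ge_atTop 2] with b h1 h2 h3 hb2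
  intro C r hr hC a S hSa hS
  set L := lam b with hL
  have hb0 : (0 : ℝ) < b := by exact_mod_cast (by omega : 0 < b)
  have hLpow : L ^ 100 = Real.log b := lam_pow b
  have hL97 : 3 ≤ L ^ 97 := by
    calc (3 : ℝ) ≤ L := h3
      _ = L ^ 1 := by ring
      _ ≤ L ^ 97 := pow_le_pow_right₀ (by linarith) (by norm_num)
  have hz : 16 ≤ zb b := by
    unfold zb
    have h4 : Real.exp 3 ≤ Real.exp (L ^ 97) := Real.exp_le_exp.2 hL97
    have h5 : (16 : ℝ) ≤ Real.exp 3 := by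
      have h6 : Real.exp 3 = Real.exp 1 ^ 3 := by rw [← Real.exp_nat_mul]; norm_num
      rw [h6]
      have := Real.exp_one_gt_d9
      calc (16 : ℝ) ≤ 2.7 ^ 3 := by norm_num
        _ ≤ Real.exp 1 ^ 3 := by gcongr; linarith
    linarith
  have hlogz : Real.log (zb b) = L ^ 97 := by unfold zb; rw [Real.log_exp]
  have hllz : Real.log (Real.log (zb b)) = 97 * Real.log L := by
    rw [hlogz, Real.log_pow]; norm_num
  set P : Finset ℕ := Nat.primesLE ⌊zb b⌋₊ \ C with hP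
  have hPz : ∀ q ∈ P, q.Prime ∧ (q : ℝ) ≤ zb b := by
    intro q hq
    rw [hP, Finset.mem_sdiff, Nat.mem_primesLE] at hq
    refine ⟨hq.1.2, ?_⟩
    exact (Nat.le_floor_iff (by linarith)).1 hq.1.1
  have hPC : ∀ q ∈ P, q ∉ C := by
    intro q hq
    rw [hP, Finset.mem_sdiff] at hq
    exact hq.2
  have hsieve := sieve_cor hz (w := 1) (Or.inl rfl) P hPz (fun q => {r q}) (by
    intro q hq
    refine ⟨?_, by simp⟩
    simp only [Finset.singleton_subset_iff, mem_range]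
    exact hr q (hPz q hq).1 (hPz q hq).2 (hPC q hq)) a b
  have hsub : S ⊆ {t ∈ Ico a (a + b) | ∀ q ∈ P, t % q ∉ (fun q => ({r q} : Finset ℕ)) q} := by
    intro x hx
    rw [mem_filter, mem_Ico]
    refine ⟨hSa x hx, ?_⟩
    intro q hq
    simp only [mem_singleton]
    exact hS x hx q (hPz q hq).1 (hPz q hq).2 (hPC q hq)
  have hcard : (S.card : ℝ) ≤ _ := (Nat.cast_le.2 (Finset.card_le_card hsub)).trans hsieve
  refine hcard.trans ?_
  have hmiss : ∑ q ∈ Nat.primesLE ⌊zb b⌋₊ \ P, 1 / (q : ℝ) ≤ 1 := by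
    refine le_trans ?_ hC
    apply Finset.sum_le_sum_of_subset_of_nonneg
    · intro q hq
      rw [Finset.mem_sdiff, hP, Finset.mem_sdiff] at hq
      rw [mem_filter]
      have h4 : q ∈ C := by
        by_contra h5
        exact hq.2 ⟨hq.1, h5⟩
      rw [Nat.mem_primesLE] at hq
      exact ⟨h4, hq.1.2, (Nat.le_floor_iff (by linarith)).1 hq.1.1⟩
    · intro q _ _; positivity
  rw [hlogz]
  rw [hlogz] at hllz
  rw [hllz]
  have hE : Real.exp (221 * L ^ 97 * (97 * Real.log L)) ≤ b / L ^ 97 := by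
    rw [le_div_iff₀ (by positivity)]
    have h4 : (b : ℝ) = Real.exp (L ^ 100) := by
      rw [hLpow, Real.exp_log hb0]
    rw [h4]
    have h5 : Real.exp (221 * L ^ 97 * (97 * Real.log L)) ≤ Real.exp (L ^ 98) := by
      rw [Real.exp_le_exp]
      have : L ^ 98 = L ^ 97 * L := by ring
      rw [this]
      have h6 : 221 * L ^ 97 * (97 * Real.log L) = L ^ 97 * (21437 * Real.log L) := by ring
      rw [h6]
      gcongr
    calc Real.exp (221 * L ^ 97 * (97 * Real.log L)) * L ^ 97 ≤ Real.exp (L ^ 98) * Real.exp L := by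
          apply mul_le_mul h5 (by linarith) (by positivity) (Real.exp_pos _).le
      _ = Real.exp (L ^ 98 + L) := by rw [Real.exp_add]
      _ ≤ Real.exp (L ^ 100) := by
          rw [Real.exp_le_exp]
          have h7 : L ≤ L ^ 98 := by
            calc L = L ^ 1 := by ring
              _ ≤ L ^ 98 := pow_le_pow_right₀ (by linarith) (by norm_num)
          have h8 : 2 * L ^ 98 ≤ L ^ 100 := by
            have : L ^ 100 = L ^ 98 * L ^ 2 := by ring
            rw [this, mul_comm]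
            apply mul_le_mul_of_nonneg_left _ (by positivity)
            nlinarith
          linarith
  have hmain : 5 * (b : ℝ) * Real.exp (2 * ((1 : ℕ) : ℝ) * ∑ q ∈ Nat.primesLE ⌊zb b⌋₊ \ P, 1 / (q : ℝ)) / (L ^ 97) ^ 1
      ≤ 5 * Real.exp 2 * b / L ^ 97 := by
    rw [pow_one]
    apply div_le_div_of_nonneg_right _ (by positivity)
    have : Real.exp (2 * ((1 : ℕ) : ℝ) * ∑ q ∈ Nat.primesLE ⌊zb b⌋₊ \ P, 1 / (q : ℝ)) ≤ Real.exp 2 := by
      rw [Real.exp_le_exp]
      push_cast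
      linarith
    nlinarith
  calc _ ≤ 5 * Real.exp 2 * b / L ^ 97 + b / L ^ 97 := add_le_add hmain hE
    _ = (5 * Real.exp 2 + 1) * b / L ^ 97 := by ring

end Pool.Agent.W_MP_83c777_nt
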