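import Mathlib
import Pool.Agent.W_MP_83c777_nt.SieveCor
import Pool.Agent.W_MP_83c777_nt.Params

set_option autoImplicit false

namespace Pool.Agent.W_MP_83c777_nt

open Finset Filter

lemma class_exists {q c d : ℕ} (hq : q.Prime) (hc : ¬ q ∣ c) :
    ∃ t, t < q ∧ (c * t) % q = d % q ∧ ∀ s, s < q → (c * s) % q = d % q → s = t := by
  haveI : Fact q.Prime := ⟨hq⟩
  have hc0 : (c : ZMod q) ≠ 0 := by
    rw [Ne, ZMod.natCast_eq_zero_iff]
    exact hc
  refine ⟨((c : ZMod q)⁻¹ * d).val, ZMod.val_lt _, ?_, ?_⟩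
  · have : (c * ((c : ZMod q)⁻¹ * d).val) % q = d % q := by
      have h1 : ((c * ((c : ZMod q)⁻¹ * d).val : ℕ) : ZMod q) = (d : ZMod q) := by
        push_cast
        rw [ZMod.natCast_zmod_val, ← mul_assoc, mul_inv_cancel₀ hc0, one_mul]
      exact (ZMod.natCast_eq_natCast_iff' _ _ _).1 h1
    exact this
  · intro s hs h
    have h1 : ((c * s : ℕ) : ZMod q) = (d : ZMod q) := (ZMod.natCast_eq_natCast_iff' _ _ _).2 h
    push_cast at h1
    have h2 : (s : ZMod q) = (c : ZMod q)⁻¹ * d := by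
      rw [← h1, ← mul_assoc, inv_mul_cancel₀ hc0, one_mul]
    rw [← h2, ZMod.val_natCast, Nat.mod_eq_of_lt hs]

lemma class_card1 {q c d : ℕ} (hq : q.Prime) (hc : ¬ q ∣ c) :
    ((range q).filter (fun t => (c * t) % q = d % q)).card = 1 := by
  obtain ⟨t, ht, h1, h2⟩ := class_exists (d := d) hq hc
  rw [Finset.card_eq_one]
  refine ⟨t, ?_⟩
  ext s
  rw [mem_filter, mem_range, mem_singleton]
  constructor
  · rintro ⟨h3, h4⟩; exact h2 s h3 h4
  · rintro rfl; exact ⟨ht, h1⟩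

lemma class_card2 {q c d : ℕ} (hq : q.Prime) (hc : ¬ q ∣ c) (hd : ¬ q ∣ d) :
    ((range q).filter (fun t => t = 0 ∨ (c * t) % q = d % q)).card = 2 := by
  obtain ⟨t, ht, h1, h2⟩ := class_exists (d := d) hq hc
  have ht0 : t ≠ 0 := by
    rintro rfl
    rw [mul_zero, Nat.zero_mod] at h1
    exact hd (Nat.dvd_of_mod_eq_zero h1.symm)
  rw [Finset.card_eq_two]
  refine ⟨0, t, ht0.symm, ?_⟩
  ext s
  rw [mem_filter, mem_range, mem_insert, mem_singleton]
  constructor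
  · rintro ⟨h3, h4 | h4⟩
    · exact Or.inl h4
    · exact Or.inr (h2 s h3 h4)
  · rintro (rfl | rfl)
    · exact ⟨hq.pos, Or.inl rfl⟩
    · exact ⟨ht, Or.inr h1⟩

/-- sieving the multiples of `m` in an interval -/
lemma mult_sieve {z : ℝ} (hz : 16 ≤ z) {w : ℕ} (hw : w = 1 ∨ w = 2) (m a b : ℕ) (hm : 1 ≤ m)
    (P : Finset ℕ) (hP : ∀ q ∈ P, q.Prime ∧ (q : ℝ) ≤ z) (Ω : ℕ → Finset ℕ)
    (hΩ : ∀ q ∈ P, Ω q ⊆ range q ∧ (Ω q).card = w) (S : Finset ℕ)
    (hS : ∀ n ∈ S, m ∣ n ∧ a ≤ n ∧ n < a + b ∧ ∀ q ∈ P, (n / m) % q ∉ Ω q) :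
    (S.card : ℝ) ≤ 5 * ((b : ℝ) / m + 1) *
      Real.exp (2 * w * ∑ q ∈ Nat.primesLE ⌊z⌋₊ \ P, 1 / (q : ℝ)) / (Real.log z) ^ w +
      Real.exp (221 * Real.log z * Real.log (Real.log z)) := by
  obtain ⟨hlz2, hllz⟩ := log_sixteen_facts hz
  have h := sieve_cor hz hw P hP Ω hΩ ((a + m - 1) / m) (b / m + 1)
  have hcard : S.card ≤ ({t ∈ Ico ((a + m - 1) / m) ((a + m - 1) / m + (b / m + 1)) |
      ∀ q ∈ P, t % q ∉ Ω q} : Finset ℕ).card := by
    apply Finset.card_le_card_of_injOn (fun n => n / m)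
    · intro n hn
      obtain ⟨⟨t, rfl⟩, h1, h2, h3⟩ := hS n hn
      have e1 : m * t / m = t := Nat.mul_div_cancel_left _ (by omega)
      simp only [coe_filter, Set.mem_setOf_eq, mem_Ico]
      rw [e1] at h3 ⊢
      refine ⟨⟨?_, ?_⟩, h3⟩
      · rw [Nat.div_le_iff_le_mul_add_pred (by omega)]
        omega
      · have e2 : a ≤ m * ((a + m - 1) / m) := by
          have := Nat.div_add_mod (a + m - 1) m
          have h4 := Nat.mod_lt (a + m - 1) (show m > 0 by omega)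
          omega
        have e3 : b < m * (b / m + 1) := by
          have := Nat.div_add_mod b m
          have h4 := Nat.mod_lt b (show m > 0 by omega)
          rw [mul_add, mul_one]
          omega
        by_contra hcon
        have h5 : m * ((a + m - 1) / m + (b / m + 1)) ≤ m * t := Nat.mul_le_mul_left _ (by omega)
        rw [mul_add] at h5
        omega
    · intro n hn n' hn' heq
      obtain ⟨⟨t, rfl⟩, _⟩ := hS n hn
      obtain ⟨⟨t', rfl⟩, _⟩ := hS n' hn'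
      simp only [Nat.mul_div_cancel_left _ (show 0 < m by omega)] at heq
      rw [heq]
  have hcard' : (S.card : ℝ) ≤ _ := (Nat.cast_le.2 hcard).trans h
  refine hcard'.trans ?_
  have hX : ((b / m + 1 : ℕ) : ℝ) ≤ (b : ℝ) / m + 1 := by
    push_cast
    have := @Nat.cast_div_le ℝ _ _ _ b m
    linarith
  have hlog : 0 < Real.log z := by linarith
  gcongr

end Pool.Agent.W_MP_83c777_nt
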