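import Mathlib
import Pool.Agent.W_MP_83c777_nt.MultSieve

set_option autoImplicit false

namespace Pool.Agent.W_MP_83c777_nt

open Finset Filter

noncomputable def zS (k : ℕ) : ℝ := Real.exp (lam k ^ 93)
noncomputable def zT (k : ℕ) : ℝ := Real.exp (lam k ^ 75)
noncomputable def yS (k : ℕ) : ℝ := k / Real.exp (lam k ^ 80)
noncomputable def y1 (k : ℕ) : ℝ := k / Real.exp (lam k ^ 5)

lemma ev_log_pow_le (C : ℝ) (n : ℕ) : ∀ᶠ x : ℝ in atTop, (C * Real.log x) ^ n ≤ x := by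
  have h := Real.tendsto_log_atTop.eventually (ev_pow_le_exp (C ^ n) n)
  filter_upwards [h, eventually_gt_atTop 0] with x hx hx0
  rw [Real.exp_log hx0] at hx
  rw [mul_pow]; exact hx

/-- part (a): smooth numbers -/
lemma part_a (ε : ℝ) (hε : 0 < ε) : ∀ᶠ k : ℕ in atTop, ∀ S : Finset ℕ,
    (∀ n ∈ S, 1 ≤ n ∧ n ≤ k) → (∀ n ∈ S, ∀ q : ℕ, q.Prime → q ∣ n → (q : ℝ) ≤ zS k) →
    ∀ b : ℝ, y1 k ≤ b → (S.card : ℝ) ≤ ε * b / Real.log k := by
  have e1 := ev_lam (ev_pow_le_exp (Real.exp 90 * (1 / ε)) 2332)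
  have e3 := ev_lam (eventually_ge_atTop (3 : ℝ))
  filter_upwards [e1, e3, eventually_ge_atTop 2] with k h1 h3 hk2
  intro S hSk hSz b hb
  set L := lam k with hL
  have hL0 : 0 < L := by linarith
  have hk0 : (0 : ℝ) < k := by exact_mod_cast (by omega : 0 < k)
  have hLpow : L ^ 100 = Real.log k := lam_pow k
  have hkexp : (k : ℝ) = Real.exp (L ^ 100) := by rw [hLpow, Real.exp_log hk0]
  have hz : 8 ≤ zS k := by
    unfold zS
    have h4 : Real.exp 3 ≤ Real.exp (L ^ 93) := by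
      apply Real.exp_le_exp.2
      calc (3 : ℝ) ≤ L := h3
        _ = L ^ 1 := by ring
        _ ≤ L ^ 93 := pow_le_pow_right₀ (by linarith) (by norm_num)
    have h5 : (16 : ℝ) ≤ Real.exp 3 := by
      have h6 : Real.exp 3 = Real.exp 1 ^ 3 := by rw [← Real.exp_nat_mul]; norm_num
      rw [h6]
      have := Real.exp_one_gt_d9
      calc (16 : ℝ) ≤ 2.7 ^ 3 := by norm_num
        _ ≤ Real.exp 1 ^ 3 := by gcongr; linarith
    linarith
  have hlogz : Real.log (zS k) = L ^ 93 := by unfold zS; rw [Real.log_exp]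
  have h := smooth_count_le hz (by omega : 1 ≤ k) S hSk hSz
  rw [hlogz, ← hLpow] at h
  refine h.trans ?_
  rw [← hLpow, le_div_iff₀ (by positivity)]
  have e5 : L ^ 100 / L ^ 93 = L ^ 7 := by
    rw [div_eq_iff (by positivity)]; ring
  rw [e5]
  have hb' : Real.exp (L ^ 100 - L ^ 5) ≤ b := by
    unfold y1 at hb
    rw [Real.exp_sub, ← hkexp]
    exact hb
  have e6 : (L ^ 93) ^ 24 = L ^ 2232 := by ring
  rw [e6]
  calc Real.exp 90 * k * Real.exp (-(L ^ 7)) * L ^ 2232 * L ^ 100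
      = ε * ((Real.exp 90 * (1 / ε) * L ^ 2332) * (Real.exp (L ^ 100) * Real.exp (-(L ^ 7)))) := by
        rw [hkexp]
        field_simp
    _ ≤ ε * (Real.exp L * (Real.exp (L ^ 100) * Real.exp (-(L ^ 7)))) := by gcongr
    _ = ε * Real.exp (L + L ^ 100 - L ^ 7) := by
        rw [← Real.exp_add, ← Real.exp_add]; congr 2; ring
    _ ≤ ε * Real.exp (L ^ 100 - L ^ 5) := by
        apply mul_le_mul_of_nonneg_left _ hε.le
        apply Real.exp_le_exp.2
        have h7 : L + L ^ 5 ≤ L ^ 7 := by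
          have h8 : L ≤ L ^ 5 := by
            calc L = L ^ 1 := by ring
              _ ≤ L ^ 5 := pow_le_pow_right₀ (by linarith) (by norm_num)
          have h9 : L ^ 7 = L ^ 5 * L ^ 2 := by ring
          have h10 : (2 : ℝ) ≤ L ^ 2 := by nlinarith
          have h11 : 0 < L ^ 5 := by positivity
          nlinarith
        linarith
    _ ≤ ε * b := by gcongr

/-- collection of elementary facts valid for large `k` -/
lemma basic_facts : ∀ᶠ k : ℕ in atTop, 3 ≤ lam k ∧ 0 < (k : ℝ) ∧ (k : ℝ) = Real.exp (lam k ^ 100) ∧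
    16 ≤ zT k ∧ 16 ≤ zS k ∧ zT k ≤ zS k ∧ zS k ≤ yS k ∧ yS k ≤ y1 k ∧
    y1 k = Real.exp (lam k ^ 100 - lam k ^ 5) ∧ yS k = Real.exp (lam k ^ 100 - lam k ^ 80) := by
  have e3 := ev_lam (eventually_ge_atTop (3 : ℝ))
  filter_upwards [e3, eventually_ge_atTop 2] with k h3 hk2
  set L := lam k with hL
  have hL0 : 0 < L := by linarith
  have hk0 : (0 : ℝ) < k := by exact_mod_cast (by omega : 0 < k)
  have hLpow : L ^ 100 = Real.log k := lam_pow k
  have hkexp : (k : ℝ) = Real.exp (L ^ 100) := by rw [hLpow, Real.exp_log hk0]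
  have hmono : ∀ {i j : ℕ}, i ≤ j → L ^ i ≤ L ^ j := fun h => pow_le_pow_right₀ (by linarith) h
  have h5 : (16 : ℝ) ≤ Real.exp 3 := by
    have h6 : Real.exp 3 = Real.exp 1 ^ 3 := by rw [← Real.exp_nat_mul]; norm_num
    rw [h6]
    have := Real.exp_one_gt_d9
    calc (16 : ℝ) ≤ 2.7 ^ 3 := by norm_num
      _ ≤ Real.exp 1 ^ 3 := by gcongr; linarith
  have h6 : L = L ^ 1 := by ring
  have hy1 : y1 k = Real.exp (L ^ 100 - L ^ 5) := by
    unfold y1; rw [Real.exp_sub, ← hkexp]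
  have hyS : yS k = Real.exp (L ^ 100 - L ^ 80) := by
    unfold yS; rw [Real.exp_sub, ← hkexp]
  refine ⟨h3, hk0, hkexp, ?_, ?_, ?_, ?_, ?_, hy1, hyS⟩
  · unfold zT
    refine h5.trans (Real.exp_le_exp.2 ?_)
    have := hmono (show 1 ≤ 75 by norm_num)
    linarith
  · unfold zS
    refine h5.trans (Real.exp_le_exp.2 ?_)
    have := hmono (show 1 ≤ 93 by norm_num)
    linarith
  · unfold zT zS
    exact Real.exp_le_exp.2 (hmono (by norm_num))
  · rw [hyS]
    unfold zS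
    apply Real.exp_le_exp.2
    have h7 := hmono (show 80 ≤ 93 by norm_num)
    have h8 : L ^ 100 = L ^ 93 * L ^ 7 := by ring
    have h9 : 2 ≤ L ^ 7 := by
      have := hmono (show 1 ≤ 7 by norm_num)
      linarith
    have h10 : 0 < L ^ 93 := by positivity
    nlinarith
  · rw [hy1, hyS]
    apply Real.exp_le_exp.2
    have := hmono (show 5 ≤ 80 by norm_num)
    linarith

/-- part (b) -/
lemma part_b (A ε : ℝ) (hε : 0 < ε) : ∀ᶠ k : ℕ in atTop, ∀ C : Finset ℕ,
    (∑ q ∈ C.filter (fun q : ℕ => q.Prime ∧ (q : ℝ) ≤ yS k), 1 / (q : ℝ) ≤ A) →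
    (∑ q ∈ C.filter (fun q : ℕ => q.Prime ∧ zS k < q ∧ (q : ℝ) ≤ yS k), 1 / (q : ℝ)
      ≤ 1 / (lam k) ^ 50) →
    ∀ a b : ℕ, y1 k ≤ b → a + b ≤ k + 1 →
    ∀ S : Finset ℕ, (∀ n ∈ S, a ≤ n ∧ n < a + b) →
    (∀ n ∈ S, ∃ q : ℕ, q.Prime ∧ zS k < q ∧ (q : ℝ) ≤ yS k ∧ q ∈ C ∧ q ∣ n) →
    (∀ n ∈ S, ∀ q : ℕ, q.Prime → (q : ℝ) ≤ zS k → q ∉ C → ¬ q ∣ (k + 1 - n)) →
    (S.card : ℝ) ≤ ε * b / Real.log k := by
  have e1 := ev_lam (ev_log_le 16575)
  have e2 := ev_lam (ev_pow_le_exp (2 / ε) 100)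
  have e4 := ev_lam (eventually_ge_atTop (20 * Real.exp (2 * A) / ε))
  filter_upwards [e1, e2, e4, basic_facts] with k h1 h2 h4 hbf
  intro C hCA hC50 a b hb hab S hSab hSq hSz
  obtain ⟨h3, hk0, hkexp, hzT16, hzS16, hzTS, hzSy, hyy, hy1, hyS⟩ := hbf
  set L := lam k with hL
  have hL0 : 0 < L := by linarith
  have hLpow : L ^ 100 = Real.log k := lam_pow k
  have hmono : ∀ {i j : ℕ}, i ≤ j → L ^ i ≤ L ^ j := fun h => pow_le_pow_right₀ (by linarith) h
  set C' := C.filter (fun q : ℕ => q.Prime ∧ zS k < q ∧ (q : ℝ) ≤ yS k) with hC'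
  have hb0 : (0 : ℝ) < b := by
    have : 0 < y1 k := by rw [hy1]; positivity
    linarith
  have hlogz : Real.log (zT k) = L ^ 75 := by unfold zT; rw [Real.log_exp]
  have hllz : Real.log (Real.log (zT k)) = 75 * Real.log L := by
    rw [hlogz, Real.log_pow]; norm_num
  set P : Finset ℕ := Nat.primesLE ⌊zT k⌋₊ \ C with hP
  have hPz : ∀ q ∈ P, q.Prime ∧ (q : ℝ) ≤ zT k := by
    intro q hq
    rw [hP, Finset.mem_sdiff, Nat.mem_primesLE] at hq
    refine ⟨hq.1.2, ?_⟩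
    exact (Nat.le_floor_iff (by linarith)).1 hq.1.1
  have hPC : ∀ q ∈ P, q ∉ C := by
    intro q hq
    rw [hP, Finset.mem_sdiff] at hq
    exact hq.2
  have hmiss : ∑ q ∈ Nat.primesLE ⌊zT k⌋₊ \ P, 1 / (q : ℝ) ≤ A := by
    refine le_trans ?_ hCA
    apply Finset.sum_le_sum_of_subset_of_nonneg
    · intro q hq
      rw [Finset.mem_sdiff, hP, Finset.mem_sdiff] at hq
      rw [mem_filter]
      have h4 : q ∈ C := by
        by_contra h5
        exact hq.2 ⟨hq.1, h5⟩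
      rw [Nat.mem_primesLE] at hq
      refine ⟨h4, hq.1.2, ?_⟩
      have := (Nat.le_floor_iff (by linarith)).1 hq.1.1
      linarith
    · intro q _ _; positivity
  -- each q
  have hone : ∀ q ∈ C', ((S.filter (fun n => q ∣ n)).card : ℝ) ≤
      10 * b * Real.exp (2 * A) / L ^ 75 * (1 / q) + Real.exp (L ^ 76) := by
    intro q hq
    rw [hC', mem_filter] at hq
    obtain ⟨hqC, hqp, hqz, hqy⟩ := hq
    have hq0 : (0 : ℝ) < q := by exact_mod_cast hqp.pos
    have hms := mult_sieve hzT16 (w := 1) (Or.inl rfl) q a b hqp.one_le P hPz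
      (fun q' => (range q').filter (fun t => (q * t) % q' = (k + 1) % q')) (by
        intro q' hq'
        refine ⟨Finset.filter_subset _ _, ?_⟩
        apply class_card1 (hPz q' hq').1
        intro hdvd
        have h5 : q' = q := (Nat.prime_dvd_prime_iff_eq (hPz q' hq').1 hqp).1 hdvd
        have h6 := (hPz q' hq').2
        rw [h5] at h6
        linarith) (S.filter (fun n => q ∣ n)) (by
        intro n hn
        rw [mem_filter] at hn
        refine ⟨hn.2, (hSab n hn.1).1, (hSab n hn.1).2, ?_⟩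
        intro q' hq' hmem
        simp only [mem_filter, mem_range] at hmem
        have hn2 := hn.2
        obtain ⟨t, rfl⟩ := hn2
        rw [Nat.mul_div_cancel_left _ hqp.pos] at hmem
        have h5 : (q * t) % q' = (k + 1) % q' := by
          rw [← hmem.2, Nat.mul_mod, Nat.mul_mod q (t % q'), Nat.mod_mod]
        have hle : q * t ≤ k + 1 := by have := (hSab _ hn.1).2; omega
        have h6 : q' ∣ k + 1 - q * t := (Nat.modEq_iff_dvd' hle).1 h5
        have h7 := (hPz q' hq').2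
        exact hSz _ hn.1 q' (hPz q' hq').1 (by linarith) (hPC q' hq') h6)
    refine hms.trans ?_
    have hbq : (b : ℝ) / q + 1 ≤ 2 * b / q := by
      have h5 : (q : ℝ) ≤ b := by linarith
      have h6 : 1 ≤ (b : ℝ) / q := by rw [one_le_div hq0]; exact h5
      have h7 : 2 * (b : ℝ) / q = b / q + b / q := by ring
      linarith
    have hexp : Real.exp (2 * ((1 : ℕ) : ℝ) * ∑ q ∈ Nat.primesLE ⌊zT k⌋₊ \ P, 1 / (q : ℝ)) ≤
        Real.exp (2 * A) := by
      apply Real.exp_le_exp.2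
      push_cast
      linarith
    have hE : Real.exp (221 * Real.log (zT k) * Real.log (Real.log (zT k))) ≤ Real.exp (L ^ 76) := by
      apply Real.exp_le_exp.2
      rw [hllz, hlogz]
      have h5 : 221 * L ^ 75 * (75 * Real.log L) = L ^ 75 * (16575 * Real.log L) := by ring
      have h6 : L ^ 76 = L ^ 75 * L := by ring
      rw [h5, h6]
      gcongr
    refine add_le_add ?_ hE
    rw [hlogz, pow_one]
    calc 5 * ((b : ℝ) / q + 1) * Real.exp (2 * ((1 : ℕ) : ℝ) * ∑ q ∈ Nat.primesLE ⌊zT k⌋₊ \ P, 1 / (q : ℝ)) / L ^ 75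
        ≤ 5 * (2 * b / q) * Real.exp (2 * A) / L ^ 75 := by gcongr
      _ = 10 * b * Real.exp (2 * A) / L ^ 75 * (1 / q) := by ring
  have hcover : S ⊆ C'.biUnion (fun q => S.filter (fun n => q ∣ n)) := by
    intro n hn
    obtain ⟨q, hqp, hqz, hqy, hqC, hqn⟩ := hSq n hn
    rw [mem_biUnion]
    exact ⟨q, by rw [hC', mem_filter]; exact ⟨hqC, hqp, hqz, hqy⟩, by rw [mem_filter]; exact ⟨hn, hqn⟩⟩
  have hcard1 : (S.card : ℝ) ≤ ∑ q ∈ C', ((S.filter (fun n => q ∣ n)).card : ℝ) := by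
    have h5 := (Finset.card_le_card hcover).trans Finset.card_biUnion_le
    exact_mod_cast h5
  have hC'card : (C'.card : ℝ) ≤ yS k := by
    have h5 : C' ⊆ Icc 1 ⌊yS k⌋₊ := by
      intro q hq
      rw [hC', mem_filter] at hq
      rw [mem_Icc]
      exact ⟨hq.2.1.one_le, Nat.le_floor hq.2.2.2⟩
    have h6 := Finset.card_le_card h5
    rw [Nat.card_Icc] at h6
    have h7 : (C'.card : ℝ) ≤ ⌊yS k⌋₊ := by exact_mod_cast (by omega : C'.card ≤ ⌊yS k⌋₊)
    exact h7.trans (Nat.floor_le (by linarith))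
  have hfinal1 : 10 * b * Real.exp (2 * A) / L ^ 75 * (1 / L ^ 50) ≤ ε / 2 * b / L ^ 100 := by
    have h5 : 20 * Real.exp (2 * A) ≤ ε * L ^ 25 := by
      rw [div_le_iff₀ hε] at h4
      have h6 := hmono (show 1 ≤ 25 by norm_num)
      nlinarith
    rw [div_mul_div_comm, div_le_div_iff₀ (by positivity) (by positivity)]
    have h7 : L ^ 75 * L ^ 50 = L ^ 25 * L ^ 100 := by ring
    rw [h7]
    have h8 : 0 < L ^ 100 := by positivity
    calc 10 * (b : ℝ) * Real.exp (2 * A) * 1 * L ^ 100 = (20 * Real.exp (2 * A)) * (b / 2 * L ^ 100) := by ring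
      _ ≤ (ε * L ^ 25) * (b / 2 * L ^ 100) := by gcongr
      _ = ε / 2 * b * (L ^ 25 * L ^ 100) := by ring
  have hfinal2 : yS k * Real.exp (L ^ 76) ≤ ε / 2 * b / L ^ 100 := by
    rw [le_div_iff₀ (by positivity), hyS, ← Real.exp_add]
    have h5 : L ^ 100 ≤ ε / 2 * Real.exp L := by
      have h6 : L ^ 100 = ε / 2 * (2 / ε * L ^ 100) := by field_simp
      rw [h6]
      gcongr
    calc Real.exp (L ^ 100 - L ^ 80 + L ^ 76) * L ^ 100
        ≤ Real.exp (L ^ 100 - L ^ 80 + L ^ 76) * (ε / 2 * Real.exp L) := by gcongr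
      _ = ε / 2 * Real.exp (L ^ 100 - L ^ 80 + L ^ 76 + L) := by
          rw [Real.exp_add _ L]; ring
      _ ≤ ε / 2 * Real.exp (L ^ 100 - L ^ 5) := by
          apply mul_le_mul_of_nonneg_left _ (by positivity)
          apply Real.exp_le_exp.2
          have h6 := hmono (show 5 ≤ 76 by norm_num)
          have h7 := hmono (show 1 ≤ 76 by norm_num)
          have h8 : L ^ 80 = L ^ 76 * L ^ 4 := by ring
          have h9 : (3 : ℝ) ≤ L ^ 4 := by
            have := hmono (show 1 ≤ 4 by norm_num)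
            linarith
          have h10 : 0 < L ^ 76 := by positivity
          nlinarith
      _ ≤ ε / 2 * b := by
          rw [← hy1]
          gcongr
  have hsum : ∑ q ∈ C', 1 / (q : ℝ) ≤ 1 / L ^ 50 := hC50
  calc (S.card : ℝ) ≤ ∑ q ∈ C', ((S.filter (fun n => q ∣ n)).card : ℝ) := hcard1
    _ ≤ ∑ q ∈ C', (10 * b * Real.exp (2 * A) / L ^ 75 * (1 / q) + Real.exp (L ^ 76)) :=
        Finset.sum_le_sum hone
    _ = 10 * b * Real.exp (2 * A) / L ^ 75 * ∑ q ∈ C', 1 / (q : ℝ) + C'.card * Real.exp (L ^ 76) := by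
        rw [Finset.sum_add_distrib, ← Finset.mul_sum, Finset.sum_const, nsmul_eq_mul]
    _ ≤ 10 * b * Real.exp (2 * A) / L ^ 75 * (1 / L ^ 50) + yS k * Real.exp (L ^ 76) := by
        gcongr
    _ ≤ ε / 2 * b / L ^ 100 + ε / 2 * b / L ^ 100 := add_le_add hfinal1 hfinal2
    _ = ε * b / Real.log k := by rw [← hLpow]; ring

end Pool.Agent.W_MP_83c777_nt
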