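import Mathlib
import Pool.Agent.W_MP_83c777_nt.DemandHigh

set_option autoImplicit false

namespace Pool.Agent.W_MP_83c777_nt

open Finset Filter

/-- part (c) -/
lemma part_c (A ε : ℝ) (hε : 0 < ε) : ∀ᶠ k : ℕ in atTop, ∀ C : Finset ℕ,
    (∑ q ∈ C.filter (fun q : ℕ => q.Prime ∧ (q : ℝ) ≤ yS k), 1 / (q : ℝ) ≤ A) →
    ∀ a b : ℕ, y1 k ≤ b → 1 ≤ a → a + b ≤ k + 1 →
    ∀ S : Finset ℕ, (∀ n ∈ S, a ≤ n ∧ n < a + b) →
    (∀ n ∈ S, ∃ p : ℕ, p.Prime ∧ yS k < p ∧ p ∣ n) →
    (∀ n ∈ S, ∀ q : ℕ, q.Prime → (q : ℝ) ≤ zS k → q ∉ C → ¬ q ∣ (k + 1 - n)) →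
    (S.card : ℝ) ≤ ε * b / Real.log k := by
  classical
  have e1 := ev_lam (ev_log_le (221 * 93))
  have e2 := ev_lam (ev_pow_le_exp (2 / ε) 100)
  have e4 := ev_lam (eventually_ge_atTop (30 * Real.exp (4 * A + 84) / ε))
  have e5 := ev_lam (ev_log_pow_le 101 16)
  filter_upwards [e1, e2, e4, e5, basic_facts] with k h1 h2 h4 hlog16 hbf
  intro C hCA a b hb ha1 hab S hSab hSp hSz
  obtain ⟨h3, hk0, hkexp, hzT16, hzS16, hzTS, hzSy, hyy, hy1, hyS⟩ := hbf
  set L := lam k with hL
  have hL0 : 0 < L := by linarith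
  have hLpow : L ^ 100 = Real.log k := lam_pow k
  have hmono : ∀ {i j : ℕ}, i ≤ j → L ^ i ≤ L ^ j := fun h => pow_le_pow_right₀ (by linarith) h
  have hkn : 1 ≤ k := by exact_mod_cast hk0
  have hb0 : (0 : ℝ) < b := by
    have : 0 < y1 k := by rw [hy1]; positivity
    linarith
  have hlogz : Real.log (zS k) = L ^ 93 := by unfold zS; rw [Real.log_exp]
  have hllz : Real.log (Real.log (zS k)) = 93 * Real.log L := by
    rw [hlogz, Real.log_pow]; norm_num
  set M : ℕ := ⌊Real.exp (L ^ 80)⌋₊ with hM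
  have hMle : (M : ℝ) ≤ Real.exp (L ^ 80) := Nat.floor_le (Real.exp_pos _).le
  have hexpb : Real.exp (L ^ 80) ≤ b := by
    refine le_trans ?_ hb
    rw [hy1]
    apply Real.exp_le_exp.2
    have h5 := hmono (show 5 ≤ 80 by norm_num)
    have h8 : L ^ 100 = L ^ 80 * L ^ 20 := by ring
    have h9 : 2 ≤ L ^ 20 := by
      have := hmono (show 1 ≤ 20 by norm_num)
      linarith
    have h10 : 0 < L ^ 80 := by positivity
    nlinarith
  have hM1 : 1 ≤ M := by
    rw [hM]
    apply Nat.le_floor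
    push_cast
    exact Real.one_le_exp (by positivity)
  -- each m
  have hone : ∀ m ∈ Icc 1 M, ((S.filter (fun n => ∃ p : ℕ, p.Prime ∧ yS k < p ∧ n = m * p)).card : ℝ) ≤
      5 * ((b : ℝ) / m + 1) * (Real.exp (4 * A + 84) * L) / L ^ 186 + Real.exp (L ^ 94) := by
    intro m hm
    rw [mem_Icc] at hm
    have hm0 : (0 : ℝ) < m := by exact_mod_cast (by omega : 0 < m)
    have hmM : (m : ℝ) ≤ Real.exp (L ^ 80) := by
      refine le_trans ?_ hMle
      exact_mod_cast hm.2
    set N := m * (k + 1) with hN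
    have hN1 : 1 ≤ N := Nat.mul_pos (by omega) (by omega)
    set P : Finset ℕ := (Nat.primesLE ⌊zS k⌋₊).filter (fun q => q ∉ C ∧ ¬ q ∣ N) with hP
    have hPz : ∀ q ∈ P, q.Prime ∧ (q : ℝ) ≤ zS k := by
      intro q hq
      rw [hP, mem_filter, Nat.mem_primesLE] at hq
      refine ⟨hq.1.2, ?_⟩
      exact (Nat.le_floor_iff (by linarith)).1 hq.1.1
    have hPC : ∀ q ∈ P, q ∉ C ∧ ¬ q ∣ N := by
      intro q hq
      rw [hP, mem_filter] at hq
      exact hq.2
    have hmiss : ∑ q ∈ Nat.primesLE ⌊zS k⌋₊ \ P, 1 / (q : ℝ) ≤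
        A + ∑ q ∈ N.primeFactors, 1 / (q : ℝ) := by
      have h5 : Nat.primesLE ⌊zS k⌋₊ \ P ⊆
          C.filter (fun q : ℕ => q.Prime ∧ (q : ℝ) ≤ yS k) ∪ N.primeFactors := by
        intro q hq
        rw [Finset.mem_sdiff, hP, mem_filter] at hq
        have h6 := hq.1
        rw [Nat.mem_primesLE] at h6
        rw [mem_union, mem_filter, Nat.mem_primeFactors]
        by_cases h7 : q ∈ C
        · left
          refine ⟨h7, h6.2, ?_⟩
          have := (Nat.le_floor_iff (by linarith)).1 h6.1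
          linarith
        · right
          refine ⟨h6.2, ?_, by omega⟩
          by_contra h8
          exact hq.2 ⟨hq.1, h7, h8⟩
      calc _ ≤ ∑ q ∈ C.filter (fun q : ℕ => q.Prime ∧ (q : ℝ) ≤ yS k) ∪ N.primeFactors, 1 / (q : ℝ) :=
            Finset.sum_le_sum_of_subset_of_nonneg h5 (fun q _ _ => by positivity)
        _ ≤ ∑ q ∈ C.filter (fun q : ℕ => q.Prime ∧ (q : ℝ) ≤ yS k), 1 / (q : ℝ) +
            ∑ q ∈ N.primeFactors, 1 / (q : ℝ) := by
            have := Finset.sum_union_inter (s₁ := C.filter (fun q : ℕ => q.Prime ∧ (q : ℝ) ≤ yS k))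
              (s₂ := N.primeFactors) (f := fun q : ℕ => 1 / (q : ℝ))
            have h9 : 0 ≤ ∑ q ∈ C.filter (fun q : ℕ => q.Prime ∧ (q : ℝ) ≤ yS k) ∩ N.primeFactors,
                1 / (q : ℝ) := Finset.sum_nonneg (fun q _ => by positivity)
            linarith
        _ ≤ _ := by linarith
    -- bound for the prime factors
    set W : ℕ := ⌈L ^ 100⌉₊ with hW
    have hW1 : L ^ 100 ≤ W := Nat.le_ceil _
    have hL1003 : 3 ≤ L ^ 100 := by
      have := hmono (show 1 ≤ 100 by norm_num)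
      linarith
    have hW3 : 3 ≤ W := by
      have : (3 : ℝ) ≤ W := by linarith
      exact_mod_cast this
    have hW2 : (W : ℝ) ≤ L ^ 101 := by
      have h5 := Nat.ceil_lt_add_one (by positivity : 0 ≤ L ^ 100)
      have h6 : L ^ 101 = L ^ 100 * L := by ring
      nlinarith
    have hpf := sum_inv_primeFactors_le hN1 hW3
    have hlogN : Real.log N ≤ 3 * L ^ 100 := by
      rw [hN]
      push_cast
      rw [Real.log_mul (by positivity) (by positivity)]
      have h5 : Real.log m ≤ L ^ 80 := by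
        have := Real.log_le_log hm0 hmM
        rwa [Real.log_exp] at this
      have h6 : Real.log ((k : ℝ) + 1) ≤ 1 + L ^ 100 := by
        have h7 : (k : ℝ) + 1 ≤ 2 * k := by
          have : (1 : ℝ) ≤ k := by exact_mod_cast hkn
          linarith
        have h8 := Real.log_le_log (by positivity) h7
        rw [Real.log_mul (by norm_num) (by positivity), ← hLpow] at h8
        have := Real.log_two_lt_d9
        linarith
      have h7 := hmono (show 80 ≤ 100 by norm_num)
      linarith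
    have hdiv : 2 * Real.log N / W ≤ 6 := by
      rw [div_le_iff₀ (by linarith)]
      linarith
    have hlogW0 : 0 < Real.log W := Real.log_pos (by exact_mod_cast (by omega : 1 < W))
    have hlogW : Real.log W ≤ 101 * Real.log L := by
      have h5 := Real.log_le_log (by exact_mod_cast (by omega : 0 < W)) hW2
      rw [Real.log_pow] at h5
      exact_mod_cast h5
    have hexp16 : Real.exp (16 * Real.log (Real.log W)) ≤ L := by
      have h5 : Real.exp (16 * Real.log (Real.log W)) = (Real.log W) ^ 16 := by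
        rw [show (16 : ℝ) * Real.log (Real.log W) = ((16 : ℕ) : ℝ) * Real.log (Real.log W) by norm_num,
          Real.exp_nat_mul, Real.exp_log hlogW0]
      rw [h5]
      refine le_trans ?_ hlog16
      gcongr
    have hexp : Real.exp (2 * ((2 : ℕ) : ℝ) * ∑ q ∈ Nat.primesLE ⌊zS k⌋₊ \ P, 1 / (q : ℝ)) ≤
        Real.exp (4 * A + 84) * L := by
      calc Real.exp (2 * ((2 : ℕ) : ℝ) * ∑ q ∈ Nat.primesLE ⌊zS k⌋₊ \ P, 1 / (q : ℝ))
          ≤ Real.exp ((4 * A + 84) + 16 * Real.log (Real.log W)) := by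
            apply Real.exp_le_exp.2
            push_cast
            linarith
        _ = Real.exp (4 * A + 84) * Real.exp (16 * Real.log (Real.log W)) := Real.exp_add _ _
        _ ≤ Real.exp (4 * A + 84) * L := by gcongr
    have hms := mult_sieve hzS16 (w := 2) (Or.inr rfl) m a b hm.1 P hPz
      (fun q => (range q).filter (fun t => t = 0 ∨ (m * t) % q = (k + 1) % q)) (by
        intro q hq
        refine ⟨Finset.filter_subset _ _, ?_⟩
        have h5 := (hPC q hq).2
        apply class_card2 (hPz q hq).1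
        · intro hdvd
          exact h5 (hdvd.mul_right _)
        · intro hdvd
          exact h5 (hdvd.mul_left _)) (S.filter (fun n => ∃ p : ℕ, p.Prime ∧ yS k < p ∧ n = m * p)) (by
        intro n hn
        rw [mem_filter] at hn
        obtain ⟨hnS, p, hp, hpy, rfl⟩ := hn
        refine ⟨dvd_mul_right _ _, (hSab _ hnS).1, (hSab _ hnS).2, ?_⟩
        intro q hq hmem
        simp only [mem_filter, mem_range] at hmem
        rw [Nat.mul_div_cancel_left _ (by omega : 0 < m)] at hmem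
        have hqz := (hPz q hq).2
        have hqp := (hPz q hq).1
        rcases hmem.2 with h5 | h5
        · have h6 : q ∣ p := Nat.dvd_of_mod_eq_zero h5
          have h7 : q = p := (Nat.prime_dvd_prime_iff_eq hqp hp).1 h6
          rw [h7] at hqz
          linarith
        · have h6 : (m * p) % q = (k + 1) % q := by
            rw [← h5, Nat.mul_mod, Nat.mul_mod m (p % q), Nat.mod_mod]
          have hle : m * p ≤ k + 1 := by have := (hSab _ hnS).2; omega
          have h7 : q ∣ k + 1 - m * p := (Nat.modEq_iff_dvd' hle).1 h6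
          exact hSz _ hnS q hqp hqz (hPC q hq).1 h7)
    refine hms.trans ?_
    have hE : Real.exp (221 * Real.log (zS k) * Real.log (Real.log (zS k))) ≤ Real.exp (L ^ 94) := by
      apply Real.exp_le_exp.2
      rw [hllz, hlogz]
      have h5 : 221 * L ^ 93 * (93 * Real.log L) = L ^ 93 * (221 * 93 * Real.log L) := by ring
      have h6 : L ^ 94 = L ^ 93 * L := by ring
      rw [h5, h6]
      gcongr
    refine add_le_add ?_ hE
    rw [hlogz]
    have h6 : (L ^ 93) ^ 2 = L ^ 186 := by ring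
    rw [h6]
    gcongr
  have hcover : S ⊆ (Icc 1 M).biUnion
      (fun m => S.filter (fun n => ∃ p : ℕ, p.Prime ∧ yS k < p ∧ n = m * p)) := by
    intro n hn
    obtain ⟨p, hp, hpy, m, rfl⟩ := hSp n hn
    rw [mem_biUnion]
    have hnab := hSab _ hn
    have hpm : 1 ≤ p * m := by omega
    have hm1 : 1 ≤ m := by
      rcases Nat.eq_zero_or_pos m with h | h
      · subst h; simp at hpm
      · exact h
    refine ⟨m, ?_, by rw [mem_filter]; exact ⟨hn, p, hp, hpy, mul_comm _ _⟩⟩
    rw [mem_Icc]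
    refine ⟨hm1, ?_⟩
    rw [hM]
    apply Nat.le_floor
    -- m ≤ exp (L^80)
    have h5 : ((p * m : ℕ) : ℝ) ≤ k := by exact_mod_cast (by omega : p * m ≤ k)
    push_cast at h5
    have h6 : yS k * Real.exp (L ^ 80) = k := by
      unfold yS; rw [div_mul_cancel₀ _ (Real.exp_pos _).ne']
    have h7 : 0 < yS k := by rw [hyS]; positivity
    have hm0 : (0 : ℝ) < m := by exact_mod_cast hm1
    by_contra hcon
    push Not at hcon
    have h8 : yS k * Real.exp (L ^ 80) < p * m := by
      apply mul_lt_mul hpy hcon.le (Real.exp_pos _) (by positivity)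
    linarith
  have hcard1 : (S.card : ℝ) ≤ ∑ m ∈ Icc 1 M,
      ((S.filter (fun n => ∃ p : ℕ, p.Prime ∧ yS k < p ∧ n = m * p)).card : ℝ) := by
    have h5 := (Finset.card_le_card hcover).trans Finset.card_biUnion_le
    exact_mod_cast h5
  have hsum1 : ∑ m ∈ Icc 1 M, ((b : ℝ) / m + 1) ≤ 3 * b * L ^ 80 := by
    rw [Finset.sum_add_distrib, Finset.sum_const, Nat.card_Icc, nsmul_eq_mul]
    have h5 : ∑ m ∈ Icc 1 M, (b : ℝ) / m = b * ∑ m ∈ Icc 1 M, (m : ℝ)⁻¹ := by
      rw [Finset.mul_sum]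
      apply Finset.sum_congr rfl
      intro m _
      rw [div_eq_mul_inv]
    have h6 := harmonic_le_one_add_log M
    rw [harmonic_eq_sum_Icc] at h6
    push_cast at h6
    have h7 : Real.log M ≤ L ^ 80 := by
      have := Real.log_le_log (by exact_mod_cast hM1) hMle
      rwa [Real.log_exp] at this
    have h8 : (1 : ℝ) ≤ L ^ 80 := one_le_pow₀ (by linarith)
    rw [h5]
    have h9 : ((M + 1 - 1 : ℕ) : ℝ) ≤ b := by
      rw [Nat.add_sub_cancel]
      linarith
    calc (b : ℝ) * ∑ m ∈ Icc 1 M, (m : ℝ)⁻¹ + ((M + 1 - 1 : ℕ) : ℝ) * 1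
        ≤ b * (1 + L ^ 80) + b * 1 := by
          gcongr
          linarith
      _ ≤ 3 * b * L ^ 80 := by nlinarith
  have hfinal1 : 5 * (3 * b * L ^ 80) * (Real.exp (4 * A + 84) * L) / L ^ 186 ≤ ε / 2 * b / L ^ 100 := by
    have h5 : 30 * Real.exp (4 * A + 84) ≤ ε * L ^ 5 := by
      rw [div_le_iff₀ hε] at h4
      have h6 := hmono (show 1 ≤ 5 by norm_num)
      nlinarith
    rw [div_le_div_iff₀ (by positivity) (by positivity)]
    have h7 : L ^ 186 = L ^ 5 * (L ^ 81 * L ^ 100) := by ring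
    rw [h7]
    calc 5 * (3 * (b : ℝ) * L ^ 80) * (Real.exp (4 * A + 84) * L) * L ^ 100
        = (30 * Real.exp (4 * A + 84)) * (b / 2 * (L ^ 81 * L ^ 100)) := by ring
      _ ≤ (ε * L ^ 5) * (b / 2 * (L ^ 81 * L ^ 100)) := by gcongr
      _ = ε / 2 * b * (L ^ 5 * (L ^ 81 * L ^ 100)) := by ring
  have hfinal2 : (M : ℝ) * Real.exp (L ^ 94) ≤ ε / 2 * b / L ^ 100 := by
    rw [le_div_iff₀ (by positivity)]
    have h5 : L ^ 100 ≤ ε / 2 * Real.exp L := by
      have h6 : L ^ 100 = ε / 2 * (2 / ε * L ^ 100) := by field_simp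
      rw [h6]
      gcongr
    calc (M : ℝ) * Real.exp (L ^ 94) * L ^ 100
        ≤ Real.exp (L ^ 80) * Real.exp (L ^ 94) * (ε / 2 * Real.exp L) := by gcongr
      _ = ε / 2 * Real.exp (L ^ 80 + L ^ 94 + L) := by
          rw [Real.exp_add _ L, Real.exp_add]; ring
      _ ≤ ε / 2 * Real.exp (L ^ 100 - L ^ 5) := by
          apply mul_le_mul_of_nonneg_left _ (by positivity)
          apply Real.exp_le_exp.2
          have h6 := hmono (show 5 ≤ 94 by norm_num)
          have h7 := hmono (show 1 ≤ 94 by norm_num)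
          have h8 := hmono (show 80 ≤ 94 by norm_num)
          have h9 : L ^ 100 = L ^ 94 * L ^ 6 := by ring
          have h11 : (4 : ℝ) ≤ L ^ 6 := by
            have h12 := hmono (show 2 ≤ 6 by norm_num)
            nlinarith
          have h10 : 0 < L ^ 94 := by positivity
          nlinarith
      _ ≤ ε / 2 * b := by
          rw [← hy1]
          gcongr
  calc (S.card : ℝ) ≤ _ := hcard1
    _ ≤ ∑ m ∈ Icc 1 M, (5 * ((b : ℝ) / m + 1) * (Real.exp (4 * A + 84) * L) / L ^ 186 +
          Real.exp (L ^ 94)) := Finset.sum_le_sum hone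
    _ = 5 * (∑ m ∈ Icc 1 M, ((b : ℝ) / m + 1)) * (Real.exp (4 * A + 84) * L) / L ^ 186 +
          M * Real.exp (L ^ 94) := by
        rw [Finset.sum_add_distrib, Finset.sum_const, Nat.card_Icc, nsmul_eq_mul, Nat.add_sub_cancel]
        congr 1
        rw [Finset.mul_sum, Finset.sum_mul, Finset.sum_div]
    _ ≤ 5 * (3 * b * L ^ 80) * (Real.exp (4 * A + 84) * L) / L ^ 186 + M * Real.exp (L ^ 94) := by
        gcongr
    _ ≤ ε / 2 * b / L ^ 100 + ε / 2 * b / L ^ 100 := add_le_add hfinal1 hfinal2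
    _ = ε * b / Real.log k := by rw [← hLpow]; ring

end Pool.Agent.W_MP_83c777_nt
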