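import Mathlib
import Pool.Agent.W_MP_83c777_nt.DemandC

set_option autoImplicit false

namespace Pool.Agent.W_MP_83c777_nt

open Finset Filter

/-- D2 : demand bound in the high range. -/
theorem demand_high (A ε : ℝ) (hε : 0 < ε) : ∀ᶠ k : ℕ in atTop, ∀ C : Finset ℕ,
    (∑ q ∈ C.filter (fun q : ℕ => q.Prime ∧ (q : ℝ) ≤ yS k), 1 / (q : ℝ) ≤ A) →
    (∑ q ∈ C.filter (fun q : ℕ => q.Prime ∧ zS k < q ∧ (q : ℝ) ≤ yS k), 1 / (q : ℝ)
      ≤ 1 / (lam k) ^ 50) →
    ∀ a b : ℕ, y1 k ≤ b → 1 ≤ a → a + b ≤ k + 1 →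
    ∀ S : Finset ℕ, (∀ n ∈ S, a ≤ n ∧ n < a + b) →
    (∀ n ∈ S, ∀ q : ℕ, q.Prime → zS k < q → (q : ℝ) ≤ yS k → q ∉ C → ¬ q ∣ n) →
    (∀ n ∈ S, ∀ q : ℕ, q.Prime → (q : ℝ) ≤ zS k → q ∉ C → ¬ q ∣ (k + 1 - n)) →
    (S.card : ℝ) ≤ ε * b / Real.log k := by
  classical
  have ha := part_a (ε / 3) (by positivity)
  have hb := part_b A (ε / 3) (by positivity)
  have hc := part_c A (ε / 3) (by positivity)
  filter_upwards [ha, hb, hc] with k ha hb hc
  intro C hCA hC50 a b hyb ha1 hab S hSab hSA hSz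
  set Sa := S.filter (fun n => ∀ q : ℕ, q.Prime → q ∣ n → (q : ℝ) ≤ zS k) with hSa
  set Sb := S.filter (fun n => ∃ q : ℕ, q.Prime ∧ zS k < q ∧ (q : ℝ) ≤ yS k ∧ q ∈ C ∧ q ∣ n) with hSb
  set Sc := S.filter (fun n => ∃ p : ℕ, p.Prime ∧ yS k < p ∧ p ∣ n) with hSc
  have hcov : S ⊆ Sa ∪ (Sb ∪ Sc) := by
    intro n hn
    rw [mem_union, mem_union, hSa, hSb, hSc, mem_filter, mem_filter, mem_filter]
    by_cases h1 : ∀ q : ℕ, q.Prime → q ∣ n → (q : ℝ) ≤ zS k
    · exact Or.inl ⟨hn, h1⟩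
    · push Not at h1
      obtain ⟨q, hq, hqn, hqz⟩ := h1
      right
      by_cases h2 : (q : ℝ) ≤ yS k
      · left
        refine ⟨hn, q, hq, hqz, h2, ?_, hqn⟩
        by_contra h3
        exact hSA n hn q hq hqz h2 h3 hqn
      · right
        push Not at h2
        exact ⟨hn, q, hq, h2, hqn⟩
  have hcard : (S.card : ℝ) ≤ Sa.card + (Sb.card + Sc.card) := by
    have h1 := Finset.card_le_card hcov
    have h2 := Finset.card_union_le Sa (Sb ∪ Sc)
    have h3 := Finset.card_union_le Sb Sc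
    exact_mod_cast (by omega : S.card ≤ Sa.card + (Sb.card + Sc.card))
  have h1 : (Sa.card : ℝ) ≤ ε / 3 * b / Real.log k := by
    apply ha Sa _ _ b hyb
    · intro n hn
      rw [hSa, mem_filter] at hn
      have := hSab n hn.1
      omega
    · intro n hn
      rw [hSa, mem_filter] at hn
      exact hn.2
  have h2 : (Sb.card : ℝ) ≤ ε / 3 * b / Real.log k := by
    apply hb C hCA hC50 a b hyb hab Sb
    · intro n hn
      rw [hSb, mem_filter] at hn
      exact hSab n hn.1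
    · intro n hn
      rw [hSb, mem_filter] at hn
      exact hn.2
    · intro n hn
      rw [hSb, mem_filter] at hn
      exact hSz n hn.1
  have h3 : (Sc.card : ℝ) ≤ ε / 3 * b / Real.log k := by
    apply hc C hCA a b hyb ha1 hab Sc
    · intro n hn
      rw [hSc, mem_filter] at hn
      exact hSab n hn.1
    · intro n hn
      rw [hSc, mem_filter] at hn
      exact hn.2
    · intro n hn
      rw [hSc, mem_filter] at hn
      exact hSz n hn.1
  have h4 : ε * b / Real.log k = ε / 3 * b / Real.log k + (ε / 3 * b / Real.log k + ε / 3 * b / Real.log k) := by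
    ring
  rw [h4]
  linarith

end Pool.Agent.W_MP_83c777_nt
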