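import Mathlib
import Pool.Agent.W_MP_83c777_nt.Params
import Pool.Agent.W_MP_83c777_nt.Primes

set_option autoImplicit false

namespace Pool.Agent.W_MP_83c777_nt

open Finset Filter

noncomputable def mu (j : ℕ) : ℝ := lam (2 ^ (j + 1))
noncomputable def Dj (CD : ℝ) (j : ℕ) : ℕ := ⌈4 * CD * 2 ^ j / (mu j) ^ 97⌉₊
noncomputable def Qj (j : ℕ) : ℕ := ⌈(2 : ℝ) ^ (j + 1) * (mu j) ^ 70⌉₊

lemma mu_pow (j : ℕ) : mu j ^ 100 = (j + 1) * Real.log 2 := by
  rw [mu, lam_pow]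
  push_cast
  rw [Real.log_pow]
  push_cast
  ring

lemma tendsto_mu : Tendsto mu atTop atTop := by
  have h1 : Tendsto (fun j : ℕ => 2 ^ (j + 1)) atTop (atTop : Filter ℕ) :=
    (tendsto_pow_atTop_atTop_of_one_lt (by norm_num : (1 : ℕ) < 2)).comp (tendsto_add_atTop_nat 1)
  exact tendsto_lam.comp h1

lemma lev_facts (CD : ℝ) (hCD : 0 < CD) : ∀ᶠ j : ℕ in atTop, 1 ≤ mu j ∧ 2 ^ (j + 1) ≤ Qj j ∧
    (Nat.primeCounting (Qj j) : ℝ) + Dj CD j ≤ 14 * 2 ^ j / (mu j) ^ 30 ∧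
    (Dj CD j : ℝ) / Qj j ≤ (2 * CD + 1) / (mu j) ^ 167 ∧ 14 / (mu j) ^ 30 ≤ 1 / 100 ∧
    (Dj CD j : ℝ) ≤ (4 * CD + 1) * 2 ^ j := by
  filter_upwards [tendsto_mu.eventually (eventually_ge_atTop (1 : ℝ)),
    tendsto_mu.eventually (eventually_ge_atTop (8 * CD)),
    tendsto_mu.eventually (eventually_ge_atTop (1400 : ℝ)), eventually_ge_atTop 6] with j h1 h8 h14 hj
  have hmu0 : 0 < mu j := by linarith
  have hp2 : (0 : ℝ) < 2 ^ j := by positivity
  have h2j : ((j : ℝ) + 1) * 4 ≤ 2 ^ j := by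
    have h : ∀ n, 6 ≤ n → (n + 1) * 4 ≤ 2 ^ n := by
      intro n hn
      induction n, hn using Nat.le_induction with
      | base => norm_num
      | succ n hn ih => rw [pow_succ]; omega
    exact_mod_cast h j hj
  have hlog2 : Real.log 2 ≤ 1 := by
    have := Real.log_two_lt_d9; linarith
  have hlog20 : 0 < Real.log 2 := Real.log_pos (by norm_num)
  have h100 : mu j ^ 100 ≤ (j : ℝ) + 1 := by
    rw [mu_pow]
    have : (0 : ℝ) ≤ (j : ℝ) + 1 := by positivity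
    nlinarith
  have h30 : mu j ^ 30 ≤ mu j ^ 100 := pow_le_pow_right₀ h1 (by norm_num)
  have h97 : mu j ^ 97 ≤ mu j ^ 100 := pow_le_pow_right₀ h1 (by norm_num)
  have h30' : mu j ^ 30 * 4 ≤ 2 ^ j := by nlinarith
  have h97' : mu j ^ 97 * 4 ≤ 2 ^ j := by nlinarith
  have h70 : 1 ≤ mu j ^ 70 := one_le_pow₀ h1
  have h64 : (64 : ℝ) ≤ 2 ^ j := by
    calc (64 : ℝ) = 2 ^ 6 := by norm_num
      _ ≤ 2 ^ j := pow_le_pow_right₀ (by norm_num) hj
  set X : ℝ := (2 : ℝ) ^ (j + 1) * (mu j) ^ 70 with hX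
  have hX2 : (2 : ℝ) ^ (j + 1) ≤ X := by
    rw [hX]
    have : (0 : ℝ) < 2 ^ (j + 1) := by positivity
    nlinarith
  have hXQ : X ≤ (Qj j : ℝ) := Nat.le_ceil _
  have hQX : (Qj j : ℝ) ≤ X + 1 := (Nat.ceil_lt_add_one (by positivity)).le
  have hX0 : 0 < X := by positivity
  have hD : (Dj CD j : ℝ) ≤ 4 * CD * 2 ^ j / (mu j) ^ 97 + 1 := (Nat.ceil_lt_add_one (by positivity)).le
  refine ⟨h1, ?_, ?_, ?_, ?_, ?_⟩
  · have : ((2 ^ (j + 1) : ℕ) : ℝ) ≤ (Qj j : ℝ) := by push_cast; exact hX2.trans hXQ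
    exact_mod_cast this
  · -- primes
    have hQ2 : 2 ≤ Qj j := by
      have h3 : (2 : ℝ) ≤ (Qj j : ℝ) := by
        have : (2 : ℝ) ≤ 2 ^ (j + 1) := by rw [pow_succ]; linarith
        linarith
      exact_mod_cast h3
    have hπ := primeCounting_le hQ2
    have hlogQ : mu j ^ 100 ≤ Real.log (Qj j) := by
      have h3 : (2 : ℝ) ^ (j + 1) ≤ (Qj j : ℝ) := hX2.trans hXQ
      have h4 := Real.log_le_log (by positivity) h3
      rw [Real.log_pow] at h4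
      rw [mu_pow]
      push_cast at h4
      exact h4
    have h100' : 0 < mu j ^ 100 := by positivity
    have hπ2 : (Nat.primeCounting (Qj j) : ℝ) ≤ 12 * 2 ^ j / (mu j) ^ 30 + 6 / (mu j) ^ 100 := by
      calc (Nat.primeCounting (Qj j) : ℝ) ≤ 6 * (Qj j : ℝ) / Real.log (Qj j) := hπ
        _ ≤ 6 * (X + 1) / (mu j) ^ 100 := by gcongr
        _ = 12 * 2 ^ j / (mu j) ^ 30 + 6 / (mu j) ^ 100 := by
            rw [hX]; field_simp; ring
    have h6 : 6 / (mu j) ^ 100 ≤ (1 / 2) * (2 ^ j / (mu j) ^ 30) := by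
      calc 6 / (mu j) ^ 100 ≤ 6 / (mu j) ^ 30 := by gcongr
        _ ≤ ((1 / 2) * 2 ^ j) / (mu j) ^ 30 := by gcongr; linarith
        _ = _ := by ring
    have h7 : 4 * CD * 2 ^ j / (mu j) ^ 97 ≤ (1 / 2) * (2 ^ j / (mu j) ^ 30) := by
      rw [div_le_iff₀ (by positivity)]
      have e1 : (1 / 2) * (2 ^ j / (mu j) ^ 30) * (mu j) ^ 97 = (1 / 2) * 2 ^ j * (mu j) ^ 67 := by
        field_simp
      rw [e1]
      have h67 : mu j ≤ mu j ^ 67 := by
        calc mu j = mu j ^ 1 := by ring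
          _ ≤ mu j ^ 67 := pow_le_pow_right₀ h1 (by norm_num)
      have : 8 * CD ≤ mu j ^ 67 := h8.trans h67
      nlinarith
    have h9 : (1 : ℝ) ≤ (1 / 2) * (2 ^ j / (mu j) ^ 30) := by
      have : 2 ≤ 2 ^ j / (mu j) ^ 30 := by
        rw [le_div_iff₀ (by positivity)]
        have : 0 < mu j ^ 30 := by positivity
        linarith
      linarith
    have e2 : 14 * 2 ^ j / (mu j) ^ 30 = 14 * (2 ^ j / (mu j) ^ 30) := by ring
    have e3 : 12 * 2 ^ j / (mu j) ^ 30 = 12 * (2 ^ j / (mu j) ^ 30) := by ring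
    rw [e2]
    rw [e3] at hπ2
    have hpos : 0 < 2 ^ j / (mu j) ^ 30 := by positivity
    linarith
  · have h10 : (Dj CD j : ℝ) / Qj j ≤ (4 * CD * 2 ^ j / (mu j) ^ 97 + 1) / X := by gcongr
    refine h10.trans ?_
    rw [div_le_div_iff₀ hX0 (by positivity), hX, add_mul, add_mul]
    have e1 : 4 * CD * 2 ^ j / mu j ^ 97 * mu j ^ 167 = 2 * CD * (2 ^ (j + 1) * mu j ^ 70) := by
      rw [pow_succ]; field_simp; ring
    rw [e1]
    have e2 : 1 * mu j ^ 167 ≤ 1 * (2 ^ (j + 1) * mu j ^ 70) := by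
      have e3 : mu j ^ 167 = mu j ^ 97 * mu j ^ 70 := by rw [← pow_add]
      have e4 : (2 : ℝ) ^ (j + 1) = 2 ^ j * 2 := pow_succ _ _
      rw [e3, one_mul, one_mul]
      have : 0 < mu j ^ 97 := by positivity
      have e5 : mu j ^ 97 ≤ (2 : ℝ) ^ (j + 1) := by rw [e4]; linarith
      gcongr
    linarith
  · rw [div_le_div_iff₀ (by positivity) (by norm_num)]
    have : mu j ≤ mu j ^ 30 := by
      calc mu j = mu j ^ 1 := by ring
        _ ≤ mu j ^ 30 := pow_le_pow_right₀ h1 (by norm_num)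
    linarith
  · have h11 : 4 * CD * 2 ^ j / (mu j) ^ 97 ≤ 4 * CD * 2 ^ j := by
      apply div_le_self (by positivity)
      exact one_le_pow₀ h1
    linarith

lemma lev_sum (CD ε : ℝ) (hCD : 0 < CD) (hε : 0 < ε) : ∃ j1 : ℕ, ∀ t : Finset ℕ,
    (∀ j ∈ t, j1 ≤ j) → ∑ j ∈ t, (2 * CD + 1) / (mu j) ^ 167 ≤ ε := by
  have hlog2 : 0 < Real.log 2 := Real.log_pos (by norm_num)
  have hterm : ∀ j : ℕ, (2 * CD + 1) / (mu j) ^ 167 =
      ((2 * CD + 1) / (Real.log 2) ^ (167 / 100 : ℝ)) * (((j + 1 : ℕ) : ℝ) ^ (167 / 100 : ℝ))⁻¹ := by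
    intro j
    have h1 : (mu j) ^ 167 = (((j + 1 : ℕ) : ℝ)) ^ (167 / 100 : ℝ) * (Real.log 2) ^ (167 / 100 : ℝ) := by
      rw [← Real.mul_rpow (by positivity) hlog2.le]
      have h2 : (((j + 1 : ℕ) : ℝ)) * Real.log 2 = Real.log (2 ^ (j + 1) : ℕ) := by
        push_cast
        rw [Real.log_pow]
        push_cast
        ring
      rw [h2, mu, lam, ← Real.rpow_natCast, ← Real.rpow_mul (Real.log_natCast_nonneg _)]
      norm_num
    rw [h1]
    field_simp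
  have hsum : Summable (fun j : ℕ => (2 * CD + 1) / (mu j) ^ 167) := by
    simp_rw [hterm]
    apply Summable.mul_left
    have h1 : Summable (fun n : ℕ => ((n : ℝ) ^ (167 / 100 : ℝ))⁻¹) :=
      Real.summable_nat_rpow_inv.2 (by norm_num)
    exact (summable_nat_add_iff 1).2 h1
  obtain ⟨s, hs⟩ := summable_iff_vanishing_norm.1 hsum ε hε
  refine ⟨s.sup id + 1, fun t ht => ?_⟩
  have hdisj : Disjoint t s := by
    rw [Finset.disjoint_left]
    intro j hj hjs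
    have h1 := ht j hj
    have h2 : j ≤ s.sup id := Finset.le_sup (f := id) hjs
    omega
  have h3 := hs t hdisj
  exact (le_abs_self _).trans h3.le

end Pool.Agent.W_MP_83c777_nt
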