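import Mathlib
import Pool.Agent.W_MP_83c777_nt.Basic
import Pool.Agent.W_MP_83c777_nt.Primes

set_option autoImplicit false

namespace Pool.Agent.W_MP_83c777_nt

open Finset

lemma pow_div_le_choose : ∀ (r n : ℕ), 1 ≤ r → r ≤ n → ((n : ℝ) / r) ^ r ≤ n.choose r := by
  intro r
  induction r with
  | zero => intro n h; omega
  | succ r ih =>
    intro n _ hn
    rcases Nat.eq_zero_or_pos r with hr | hr
    · subst hr; simp
    · obtain ⟨m, rfl⟩ : ∃ m, n = m + 1 := ⟨n - 1, by omega⟩
      have h1 := ih m hr (by omega)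
      have h2 := Nat.add_one_mul_choose_eq m r
      have h3 : ((m : ℝ) + 1) * (m.choose r : ℝ) = ((m + 1).choose (r + 1) : ℝ) * (r + 1) := by
        exact_mod_cast h2
      have hr0 : (0 : ℝ) < r := by exact_mod_cast hr
      have hrm : (r : ℝ) ≤ m := by exact_mod_cast (by omega : r ≤ m)
      have h4 : ((m : ℝ) + 1) / (r + 1) ≤ (m : ℝ) / r := by
        rw [div_le_div_iff₀ (by positivity) hr0]
        nlinarith
      have h5 : ((m + 1).choose (r + 1) : ℝ) = ((m : ℝ) + 1) / (r + 1) * (m.choose r : ℝ) := by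
        field_simp
        linarith
      rw [h5]
      push_cast
      rw [pow_succ']
      have h6 : (((m : ℝ) + 1) / (r + 1)) ^ r ≤ (m.choose r : ℝ) := by
        refine le_trans ?_ h1
        gcongr
      gcongr

/-- the primes above `Q` dividing `choose k r` -/
def supp (k r Q : ℕ) : Finset ℕ :=
  (range (k + 1)).filter (fun q => q.Prime ∧ Q < q ∧ q ∣ k.choose r)

theorem supply {k r Q : ℕ} (hr : 1 ≤ r) (hrk : r ≤ k) (hk : 2 ≤ k) :
    (r : ℝ) * Real.log ((k : ℝ) / r) / Real.log k - Nat.primeCounting Q ≤ ((supp k r Q).card : ℝ) := by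
  have hk0 : (1 : ℝ) < k := by exact_mod_cast (by omega : 1 < k)
  have hr0 : (0 : ℝ) < r := by exact_mod_cast hr
  have hlogk : 0 < Real.log k := Real.log_pos hk0
  have hch : k.choose r ≠ 0 := (Nat.choose_pos hrk).ne'
  set F := (k.choose r).primeFactors with hF
  have h1 : k.choose r ≤ k ^ F.card := by
    calc k.choose r = ∏ q ∈ F, q ^ (k.choose r).factorization q := by
          conv_lhs => rw [← Nat.prod_factorization_pow_eq_self hch]
          rfl
      _ ≤ ∏ _q ∈ F, k := by
          apply Finset.prod_le_prod'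
          intro q _
          exact Nat.pow_factorization_choose_le (by omega)
      _ = k ^ F.card := by rw [Finset.prod_const]
  have h2 : ((k : ℝ) / r) ^ r ≤ (k : ℝ) ^ F.card := by
    refine (pow_div_le_choose r k hr hrk).trans ?_
    exact_mod_cast h1
  have h3 : (r : ℝ) * Real.log ((k : ℝ) / r) ≤ F.card * Real.log k := by
    have := Real.log_le_log (by positivity) h2
    rwa [Real.log_pow, Real.log_pow] at this
  have h4 : (r : ℝ) * Real.log ((k : ℝ) / r) / Real.log k ≤ F.card := by
    rw [div_le_iff₀ hlogk]; exact h3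
  have h5 : F.card ≤ (supp k r Q).card + Nat.primeCounting Q := by
    have h6 : F ⊆ supp k r Q ∪ Nat.primesLE Q := by
      intro q hq
      rw [hF, Nat.mem_primeFactors] at hq
      rw [mem_union, supp, mem_filter, mem_range, Nat.mem_primesLE]
      by_cases h : q ≤ Q
      · right; exact ⟨h, hq.1⟩
      · left
        refine ⟨?_, hq.1, by omega, hq.2.1⟩
        have h7 : 1 ≤ (k.choose r).factorization q :=
          (hq.1.dvd_iff_one_le_factorization hch).1 hq.2.1
        have h8 := Nat.pow_factorization_choose_le (p := q) (n := k) (k := r) (by omega)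
        have h9 : q ^ 1 ≤ q ^ (k.choose r).factorization q := Nat.pow_le_pow_right hq.1.pos h7
        rw [pow_one] at h9
        omega
    have h7 := (Finset.card_le_card h6).trans (Finset.card_union_le _ _)
    rwa [Nat.primesLE_card_eq_primeCounting] at h7
  have h6 : (F.card : ℝ) ≤ (supp k r Q).card + Nat.primeCounting Q := by exact_mod_cast h5
  linarith

/-- low range admissibility -/
lemma al_of_supp_low {k b Q q i : ℕ} (hq : q ∈ supp k (b + 1) Q) (hQ : b + 1 ≤ Q) (hbi : b ≤ i)
    (hiq : i < q) (hbk : b + 1 ≤ k) : Al k q i := by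
  rw [supp, mem_filter] at hq
  obtain ⟨hqk, hqp, hQq, hdvd⟩ := hq
  -- q divides one of k - j, j ≤ b
  have h1 : q ∣ k.descFactorial (b + 1) := by
    rw [Nat.descFactorial_eq_factorial_mul_choose]
    exact hdvd.mul_left _
  rw [Nat.descFactorial_eq_prod_range] at h1
  obtain ⟨j, hj, hjd⟩ := (hqp.prime.dvd_finsetProd_iff _).1 h1
  rw [mem_range] at hj
  have h2 : k % q = j := by
    have h3 : j ≡ k [MOD q] := (Nat.modEq_iff_dvd' (by omega)).2 hjd
    unfold Nat.ModEq at h3
    rw [← h3, Nat.mod_eq_of_lt (by omega)]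
  unfold Al
  rw [h2, Nat.mod_eq_of_lt hiq]
  omega

/-- high range admissibility -/
lemma al_of_dvd_choose_sq {k q i : ℕ} (hq : q.Prime) (hk : k < q ^ 2) (hi : i + 1 ≤ k)
    (hdvd : q ∣ k.choose (i + 1)) : Al k q i := by
  have hch : k.choose (i + 1) ≠ 0 := (Nat.choose_pos hi).ne'
  have h1 : 1 ≤ (k.choose (i + 1)).factorization q :=
    (hq.dvd_iff_one_le_factorization hch).1 hdvd
  rw [Nat.factorization_choose hq hi (Nat.lt_add_one _)] at h1
  obtain ⟨e, he⟩ := Finset.card_pos.1 (Nat.lt_of_lt_of_le Nat.zero_lt_one h1)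
  rw [mem_filter, mem_Ico] at he
  obtain ⟨⟨he1, he2⟩, he3⟩ := he
  have hlog : Nat.log q k < 2 := Nat.log_lt_of_lt_pow (by omega) hk
  have he4 : e = 1 := by omega
  subst he4
  rw [pow_one] at he3
  unfold Al
  -- carry
  have e1 : k = (i + 1) + (k - (i + 1)) := by omega
  set y := k - (i + 1) with hy
  have h2 : (i + 1) % q < q := Nat.mod_lt _ hq.pos
  have h3 : y % q < q := Nat.mod_lt _ hq.pos
  have h4 : k % q = (i + 1) % q + y % q - q := by
    have h5 : k % q = ((i + 1) % q + y % q) % q := by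
      conv_lhs => rw [e1]
      rw [Nat.add_mod]
    rw [h5, Nat.mod_eq_sub_mod he3, Nat.mod_eq_of_lt (by omega)]
  have h6 : 1 ≤ (i + 1) % q := by
    by_contra h7
    have h8 : (i + 1) % q = 0 := by omega
    omega
  have h7 : (i + 1) % q = i % q + 1 := by
    rw [Nat.add_mod, Nat.mod_eq_of_lt hq.one_lt]
    rcases Nat.lt_or_ge (i % q + 1) q with h8 | h8
    · rw [Nat.mod_eq_of_lt h8]
    · have h9 : i % q < q := Nat.mod_lt _ hq.pos
      have h10 : i % q + 1 = q := by omega
      have h11 : (i + 1) % q = 0 := by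
        rw [Nat.add_mod, Nat.mod_eq_of_lt hq.one_lt, h10, Nat.mod_self]
      omega
  omega

end Pool.Agent.W_MP_83c777_nt
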