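import Mathlib
import Pool.Agent.W_MP_83c777_nt.Levels
import Pool.Agent.W_MP_83c777_nt.Supply
import Pool.Agent.W_MP_83c777_nt.DemandAll

set_option autoImplicit false

namespace Pool.Agent.W_MP_83c777_nt

open Finset Filter

/-- numeric facts for a level -/
def LevOK (CD : ℝ) (j : ℕ) : Prop := 1 ≤ mu j ∧ 2 ^ (j + 1) ≤ Qj j ∧
    (Nat.primeCounting (Qj j) : ℝ) + Dj CD j ≤ 14 * 2 ^ j / (mu j) ^ 30 ∧
    (Dj CD j : ℝ) / Qj j ≤ (2 * CD + 1) / (mu j) ^ 167 ∧ 14 / (mu j) ^ 30 ≤ 1 / 100 ∧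
    (Dj CD j : ℝ) ≤ (4 * CD + 1) * 2 ^ j

lemma mu_ge_half {j : ℕ} {L : ℝ} (hL : 0 ≤ L) (h : L ^ 100 / 100 ≤ mu j ^ 100) : L / 2 ≤ mu j := by
  have hT : 0 ≤ L ^ 100 := pow_nonneg hL _
  have h0 : (100 : ℝ) ≤ 2 ^ 100 := by norm_num
  have h2 : L ^ 100 / 2 ^ 100 ≤ L ^ 100 / 100 :=
    div_le_div_of_nonneg_left hT (by norm_num) h0
  have h1 : (L / 2) ^ 100 ≤ mu j ^ 100 := by
    rw [div_pow]
    exact h2.trans h
  have hL2 : 0 ≤ L / 2 := by linarith
  exact (pow_le_pow_iff_left₀ hL2 (lam_nonneg _) (by norm_num)).1 h1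

lemma supply_low (CD : ℝ) (hCD : 0 < CD) (j0 : ℕ) (hj0 : 6 ≤ j0) (hlev : ∀ j, j0 ≤ j → LevOK CD j) :
    ∀ᶠ k : ℕ in atTop, ∀ j, j0 ≤ j → (2 : ℝ) ^ j ≤ yS k → ∀ C1 : Finset ℕ,
      3 * C1.card ≤ 2 * 2 ^ j0 + 30 →
      Dj CD j ≤ ((supp k (2 ^ j + 1) (Qj j)) \ C1).card := by
  set c : ℝ := (2 * 2 ^ j0 + 30) / 3 with hc
  have hc0 : 0 < c := by positivity
  filter_upwards [basic_facts, ev_lam (eventually_ge_atTop ((56 : ℝ) * 2 ^ 30)),
    ev_lam (ev_pow_le_exp (8 * c) 20), eventually_ge_atTop 2] with k hbf hbig hexp hk2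
  intro j hj hjy C1 hC1
  obtain ⟨h3, hk0, hkexp, _, _, _, _, _, _, hyS⟩ := hbf
  obtain ⟨hmu1, hQ, hπD, _, h14, _⟩ := hlev j hj
  set L := lam k with hL
  have hL0 : 0 < L := by linarith
  have hlogk : Real.log k = L ^ 100 := (lam_pow k).symm
  have hmono : ∀ {i j : ℕ}, i ≤ j → L ^ i ≤ L ^ j := fun h => pow_le_pow_right₀ (by linarith) h
  set B : ℝ := (2 : ℝ) ^ j with hB
  have hB64 : 64 ≤ B := by
    calc (64 : ℝ) = 2 ^ 6 := by norm_num
      _ ≤ 2 ^ j := pow_le_pow_right₀ (by norm_num) (by omega)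
  have hB0 : 0 < B := by linarith
  have hr : ((2 ^ j + 1 : ℕ) : ℝ) = B + 1 := by push_cast; rfl
  -- B + 1 ≤ k
  have hlogB : Real.log B ≤ L ^ 100 - L ^ 80 := by
    have h := Real.log_le_log hB0 hjy
    rwa [hyS, Real.log_exp] at h
  have h80 : (3 : ℝ) ≤ L ^ 80 := by
    have := hmono (show 1 ≤ 80 by norm_num)
    rw [pow_one] at this
    linarith
  have hlogB1 : Real.log (B + 1) ≤ Real.log B + 1 := by
    have h1 : B + 1 ≤ B * Real.exp 1 := by
      have := Real.add_one_le_exp (1 : ℝ)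
      nlinarith
    have h2 := Real.log_le_log (by positivity) h1
    rwa [Real.log_mul hB0.ne' (Real.exp_pos 1).ne', Real.log_exp] at h2
  have hrk : 2 ^ j + 1 ≤ k := by
    have h1 : Real.log (B + 1) ≤ Real.log k := by rw [hlogk]; linarith
    have h2 : B + 1 ≤ k := (Real.log_le_log_iff (by positivity) hk0).1 h1
    rw [← hr] at h2
    exact_mod_cast h2
  have hsup := supply (k := k) (r := 2 ^ j + 1) (Q := Qj j) (Nat.le_add_left 1 _) hrk hk2
  rw [hr, Real.log_div hk0.ne' (by positivity), hlogk] at hsup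
  set x := Real.log (B + 1) with hx
  have h100 : 0 < L ^ 100 := by positivity
  have hθ0 : 0 ≤ (L ^ 100 - x) / L ^ 100 := by
    apply div_nonneg _ h100.le
    linarith
  have hsup2 : B * ((L ^ 100 - x) / L ^ 100) - Nat.primeCounting (Qj j) ≤
      ((supp k (2 ^ j + 1) (Qj j)).card : ℝ) := by
    refine le_trans ?_ hsup
    have e1 : (B + 1) * (L ^ 100 - x) / L ^ 100 = B * ((L ^ 100 - x) / L ^ 100) + (L ^ 100 - x) / L ^ 100 := by
      ring
    rw [e1]
    linarith
  have hcard : ((supp k (2 ^ j + 1) (Qj j)).card : ℝ) ≤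
      (((supp k (2 ^ j + 1) (Qj j)) \ C1).card : ℝ) + c := by
    have h1 := Finset.card_le_card_sdiff_add_card (s := supp k (2 ^ j + 1) (Qj j)) (t := C1)
    have h2 : ((supp k (2 ^ j + 1) (Qj j)).card : ℝ) ≤
      (((supp k (2 ^ j + 1) (Qj j)) \ C1).card : ℝ) + C1.card := by exact_mod_cast h1
    have h4 : 3 * (C1.card : ℝ) ≤ 2 * 2 ^ j0 + 30 := by exact_mod_cast hC1
    have h5 : (C1.card : ℝ) ≤ c := by rw [hc]; linarith
    linarith
  have hgoal : 14 * B / (mu j) ^ 30 + c ≤ B * ((L ^ 100 - x) / L ^ 100) := by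
    by_cases hcase : x ≤ L ^ 100 / 100
    · have h1 : 99 / 100 ≤ (L ^ 100 - x) / L ^ 100 := by
        rw [le_div_iff₀ h100]
        linarith
      have h2 : B * (99 / 100) ≤ B * ((L ^ 100 - x) / L ^ 100) := by gcongr
      have h4 : 14 * B / (mu j) ^ 30 ≤ B / 100 := by
        have : 14 * B / (mu j) ^ 30 = B * (14 / (mu j) ^ 30) := by ring
        rw [this]
        nlinarith
      have h5 : c ≤ (2 * B + 30) / 3 := by
        rw [hc]
        have : (2 : ℝ) ^ j0 ≤ B := pow_le_pow_right₀ (by norm_num) hj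
        linarith
      linarith
    · push Not at hcase
      have h1 : x ≤ mu j ^ 100 := by
        rw [mu_pow, hx]
        have h2 : B + 1 ≤ 2 ^ (j + 1) := by rw [pow_succ]; linarith
        have h4 := Real.log_le_log (by positivity) h2
        rw [Real.log_pow] at h4
        push_cast at h4
        exact h4
      have h2 : L / 2 ≤ mu j := mu_ge_half hL0.le (by linarith)
      have h4 : L ^ 80 / 2 ≤ L ^ 100 - x := by linarith
      have h5 : B / (2 * L ^ 20) ≤ B * ((L ^ 100 - x) / L ^ 100) := by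
        calc B / (2 * L ^ 20) = B * ((L ^ 80 / 2) / L ^ 100) := by
              field_simp
          _ ≤ B * ((L ^ 100 - x) / L ^ 100) := by gcongr
      have h6 : 14 * B / (mu j) ^ 30 ≤ B / (4 * L ^ 20) := by
        have h7 : (L / 2) ^ 30 ≤ mu j ^ 30 := pow_le_pow_left₀ (by positivity) h2 30
        calc 14 * B / (mu j) ^ 30 ≤ 14 * B / (L / 2) ^ 30 := by gcongr
          _ ≤ B / (4 * L ^ 20) := by
              rw [div_le_div_iff₀ (by positivity) (by positivity), div_pow]
              have h8 : 56 * 2 ^ 30 ≤ L ^ 10 := by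
                have := hmono (show 1 ≤ 10 by norm_num)
                rw [pow_one] at this
                linarith
              have e1 : B * (L ^ 30 / 2 ^ 30) = (B * L ^ 20) * (L ^ 10 / 2 ^ 30) := by ring
              rw [e1]
              have e2 : 14 * B * (4 * L ^ 20) = (B * L ^ 20) * 56 := by ring
              rw [e2]
              gcongr
              rw [le_div_iff₀ (by positivity)]
              exact h8
      have h9 : c ≤ B / (4 * L ^ 20) := by
        rw [le_div_iff₀ (by positivity)]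
        have h10 : L ≤ L ^ 100 / 100 := by
          have h11 : (100 : ℝ) ≤ L ^ 99 := by
            have := hmono (show 1 ≤ 99 by norm_num)
            rw [pow_one] at this
            linarith
          have e1 : L ^ 100 = L * L ^ 99 := by ring
          rw [e1]
          nlinarith
        have h12 : Real.exp L ≤ B + 1 := by
          have h13 : L ≤ Real.log (B + 1) := by linarith
          rwa [Real.le_log_iff_exp_le (by positivity)] at h13
        linarith
      have h14' : B / (2 * L ^ 20) = B / (4 * L ^ 20) + B / (4 * L ^ 20) := by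
        field_simp; norm_num
      linarith
  have hfin : (Dj CD j : ℝ) ≤ (((supp k (2 ^ j + 1) (Qj j)) \ C1).card : ℝ) := by linarith
  exact_mod_cast hfin

end Pool.Agent.W_MP_83c777_nt
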