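import Mathlib
import Pool.Agent.W_MP_83c777_nt.KNum1

set_option autoImplicit false

namespace Pool.Agent.W_MP_83c777_nt

open Finset Filter

lemma sum_inv_le_card_div (T : Finset ℕ) (Q : ℝ) (hQ : 0 < Q) (h : ∀ q ∈ T, Q ≤ (q : ℝ)) :
    ∑ q ∈ T, 1 / (q : ℝ) ≤ T.card / Q := by
  calc ∑ q ∈ T, 1 / (q : ℝ) ≤ ∑ _q ∈ T, 1 / Q := by
        apply Finset.sum_le_sum
        intro q hq
        exact one_div_le_one_div_of_le hQ (h q hq)
    _ = T.card / Q := by
        rw [Finset.sum_const, nsmul_eq_mul]; ring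

lemma level_sum {CD : ℝ} {j : ℕ} (hlev : LevOK CD j) (T : Finset ℕ) (hc : T.card ≤ Dj CD j)
    (hq : ∀ q ∈ T, Qj j < q) : ∑ q ∈ T, 1 / (q : ℝ) ≤ (2 * CD + 1) / (mu j) ^ 167 := by
  obtain ⟨_, h2, _, h4, _, _⟩ := hlev
  have hQ0 : (0 : ℝ) < Qj j := by
    have : 0 < Qj j := lt_of_lt_of_le (by positivity) h2
    exact_mod_cast this
  refine (sum_inv_le_card_div T (Qj j) hQ0 (fun q h => by exact_mod_cast (hq q h).le)).trans ?_
  refine le_trans ?_ h4
  have : (T.card : ℝ) ≤ Dj CD j := by exact_mod_cast hc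
  gcongr

lemma level_zS (CD : ℝ) (hCD : 0 < CD) (j0 : ℕ) (hlev : ∀ j, j0 ≤ j → LevOK CD j) :
    ∀ᶠ k : ℕ in atTop, ∀ j, j0 ≤ j → ∀ T : Finset ℕ, T.card ≤ Dj CD j →
      (∀ q ∈ T, Qj j < q) →
      ∑ q ∈ T.filter (fun q : ℕ => zS k < q), 1 / (q : ℝ) ≤ 1 / (4 * (lam k) ^ 151) := by
  filter_upwards [basic_facts, ev_lam (eventually_ge_atTop (64 : ℝ)),
    ev_lam (eventually_ge_atTop (4 * (2 * CD + 1))),
    ev_lam (ev_pow_le_exp (4 * (4 * CD + 1)) 151)] with k hbf h64 hC hexp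
  intro j hj T hT hTQ
  obtain ⟨h3, _, _, _, hz16, _, _, _, _, _⟩ := hbf
  set L := lam k with hL
  have hL0 : 0 < L := by linarith
  have hL1 : 1 ≤ L := by linarith
  have hmono : ∀ {i j : ℕ}, i ≤ j → L ^ i ≤ L ^ j := fun h => pow_le_pow_right₀ hL1 h
  have hzS : zS k = Real.exp (L ^ 93) := rfl
  have hz0 : 0 < zS k := by linarith
  by_cases hcase : ((2 : ℝ) ^ j) ^ 2 ≤ zS k
  · have h1 : ∑ q ∈ T.filter (fun q : ℕ => zS k < q), 1 / (q : ℝ) ≤ (T.card : ℝ) / zS k := by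
      refine (sum_inv_le_card_div _ (zS k) hz0 (fun q h => ?_)).trans ?_
      · rw [mem_filter] at h; exact h.2.le
      · have : ((T.filter (fun q : ℕ => zS k < q)).card : ℝ) ≤ T.card := by
          exact_mod_cast Finset.card_le_card (Finset.filter_subset _ _)
        exact div_le_div_of_nonneg_right this hz0.le
    refine h1.trans ?_
    have h2 : (T.card : ℝ) ≤ (4 * CD + 1) * 2 ^ j := by
      have h4 := (hlev j hj).2.2.2.2.2
      have h5 : (T.card : ℝ) ≤ Dj CD j := by exact_mod_cast hT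
      linarith
    have h6 : (2 : ℝ) ^ j ≤ Real.exp (L ^ 93 / 2) := by
      have h7 : ((2 : ℝ) ^ j) ^ 2 ≤ (Real.exp (L ^ 93 / 2)) ^ 2 := by
        rw [← Real.exp_nat_mul]
        have e : ((2 : ℕ) : ℝ) * (L ^ 93 / 2) = L ^ 93 := by push_cast; ring
        rw [e, ← hzS]
        exact hcase
      exact (pow_le_pow_iff_left₀ (by positivity) (Real.exp_pos _).le (by norm_num)).1 h7
    have h8 : zS k = Real.exp (L ^ 93 / 2) * Real.exp (L ^ 93 / 2) := by
      rw [hzS, ← Real.exp_add]; congr 1; ring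
    have h9 : L ≤ L ^ 93 / 2 := by
      have h10 : (2 : ℝ) ≤ L ^ 92 := by
        have := hmono (show 1 ≤ 92 by norm_num)
        rw [pow_one] at this
        linarith
      have e1 : L ^ 93 = L * L ^ 92 := by ring
      rw [e1]
      nlinarith
    have h11 := Real.exp_le_exp.2 h9
    have hE : 0 < Real.exp (L ^ 93 / 2) := Real.exp_pos _
    rw [div_le_div_iff₀ hz0 (by positivity), h8]
    calc (T.card : ℝ) * (4 * L ^ 151) ≤ ((4 * CD + 1) * Real.exp (L ^ 93 / 2)) * (4 * L ^ 151) := by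
          gcongr
          refine h2.trans ?_
          gcongr
      _ = (4 * (4 * CD + 1) * L ^ 151) * Real.exp (L ^ 93 / 2) := by ring
      _ ≤ Real.exp (L ^ 93 / 2) * Real.exp (L ^ 93 / 2) := by
          gcongr
          linarith
      _ = 1 * (Real.exp (L ^ 93 / 2) * Real.exp (L ^ 93 / 2)) := by ring
  · push Not at hcase
    have h1 : ∑ q ∈ T.filter (fun q : ℕ => zS k < q), 1 / (q : ℝ) ≤ ∑ q ∈ T, 1 / (q : ℝ) := by
      apply Finset.sum_le_sum_of_subset_of_nonneg (Finset.filter_subset _ _)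
      intro q _ _
      positivity
    refine (h1.trans (level_sum (hlev j hj) T hT hTQ)).trans ?_
    have hmu0 : 0 < mu j := by have := (hlev j hj).1; linarith
    have h2 : L ^ 93 / 2 ≤ mu j ^ 100 := by
      have h4 := Real.log_le_log hz0 hcase.le
      rw [hzS, Real.log_exp, Real.log_pow, Real.log_pow] at h4
      rw [mu_pow]
      have := Real.log_pos (show (1 : ℝ) < 2 by norm_num)
      push_cast at h4
      nlinarith
    have h5 : L ^ 155 ≤ mu j ^ 167 := by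
      have h6 : (L ^ 155) ^ 100 ≤ (mu j ^ 167) ^ 100 := by
        have h7 : (L ^ 93 / 2) ^ 167 ≤ (mu j ^ 100) ^ 167 := pow_le_pow_left₀ (by positivity) h2 167
        have e1 : (mu j ^ 167) ^ 100 = (mu j ^ 100) ^ 167 := by
          rw [← pow_mul, ← pow_mul]
        rw [e1]
        refine le_trans ?_ h7
        rw [div_pow, ← pow_mul, ← pow_mul, le_div_iff₀ (by positivity)]
        have e2 : (2 : ℝ) ^ 167 ≤ L ^ 31 := by
          calc (2 : ℝ) ^ 167 ≤ 64 ^ 31 := by norm_num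
            _ ≤ L ^ 31 := pow_le_pow_left₀ (by norm_num) h64 31
        calc L ^ (155 * 100) * 2 ^ 167 ≤ L ^ (155 * 100) * L ^ 31 := by gcongr
          _ = L ^ (93 * 167) := by rw [← pow_add]
      exact (pow_le_pow_iff_left₀ (by positivity) (by positivity) (by norm_num)).1 h6
    rw [div_le_div_iff₀ (by positivity) (by positivity), one_mul]
    calc (2 * CD + 1) * (4 * L ^ 151) = (4 * (2 * CD + 1)) * L ^ 151 := by ring
      _ ≤ L ^ 4 * L ^ 151 := by
          gcongr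
          have := hmono (show 1 ≤ 4 by norm_num)
          rw [pow_one] at this
          linarith
      _ = L ^ 155 := by rw [← pow_add]
      _ ≤ _ := h5

lemma levels_card : ∀ᶠ k : ℕ in atTop, ∀ t : Finset ℕ, (∀ j ∈ t, (2 : ℝ) ^ j ≤ yS k) →
    (t.card : ℝ) ≤ 2 * (lam k) ^ 100 := by
  filter_upwards [basic_facts] with k hbf
  intro t ht
  obtain ⟨h3, hk0, _, _, _, _, _, _, _, hyS⟩ := hbf
  set L := lam k with hL
  have hL1 : 1 ≤ L := by linarith
  have h100 : (3 : ℝ) ≤ L ^ 100 := by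
    have : L ^ 1 ≤ L ^ 100 := pow_le_pow_right₀ hL1 (by norm_num)
    rw [pow_one] at this
    linarith
  have hsub : t ⊆ range (⌊(3 / 2) * L ^ 100⌋₊ + 1) := by
    intro j hj
    rw [mem_range, Nat.lt_succ_iff]
    apply Nat.le_floor
    have h1 := Real.log_le_log (by positivity) (ht j hj)
    rw [hyS, Real.log_exp, Real.log_pow] at h1
    have h2 := Real.log_two_gt_d9
    have h4 : 0 ≤ L ^ 80 := by positivity
    have h5 : (0 : ℝ) ≤ j := by positivity
    nlinarith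
  have h6 := Finset.card_le_card hsub
  rw [card_range] at h6
  have h7 : (t.card : ℝ) ≤ (⌊(3 / 2) * L ^ 100⌋₊ : ℝ) + 1 := by exact_mod_cast h6
  have h8 : (⌊(3 / 2) * L ^ 100⌋₊ : ℝ) ≤ (3 / 2) * L ^ 100 := Nat.floor_le (by positivity)
  linarith

lemma sum_biUnion_le (t : Finset ℕ) (C : ℕ → Finset ℕ) (P : ℕ → Prop) [DecidablePred P] :
    ∑ q ∈ (t.biUnion C).filter P, 1 / (q : ℝ) ≤ ∑ j ∈ t, ∑ q ∈ (C j).filter P, 1 / (q : ℝ) := by
  classical
  rw [Finset.filter_biUnion]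
  induction t using Finset.induction_on with
  | empty => simp
  | insert a s ha ih =>
    rw [Finset.biUnion_insert, Finset.sum_insert ha]
    refine le_trans ?_ (add_le_add_right ih _)
    have h := Finset.sum_union_inter (s₁ := (C a).filter P)
      (s₂ := s.biUnion (fun i => (C i).filter P)) (f := fun q : ℕ => 1 / (q : ℝ))
    have h2 : 0 ≤ ∑ q ∈ (C a).filter P ∩ s.biUnion (fun i => (C i).filter P), 1 / (q : ℝ) := by
      apply Finset.sum_nonneg
      intro q _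
      positivity
    linarith

lemma sum_zS (CD : ℝ) (hCD : 0 < CD) (j0 : ℕ) (hlev : ∀ j, j0 ≤ j → LevOK CD j) :
    ∀ᶠ k : ℕ in atTop, ∀ (t : Finset ℕ) (C : ℕ → Finset ℕ),
      (∀ j ∈ t, j0 ≤ j ∧ (2 : ℝ) ^ j ≤ yS k) →
      (∀ j ∈ t, (C j).card ≤ Dj CD j ∧ ∀ q ∈ C j, Qj j < q) →
      ∑ q ∈ (t.biUnion C).filter (fun q : ℕ => zS k < q), 1 / (q : ℝ) ≤ 1 / (2 * (lam k) ^ 50) := by
  filter_upwards [basic_facts, level_zS CD hCD j0 hlev, levels_card] with k hbf hz hcard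
  intro t C ht hC
  obtain ⟨h3, _, _, _, _, _, _, _, _, _⟩ := hbf
  set L := lam k with hL
  have hL0 : 0 < L := by linarith
  refine (sum_biUnion_le t C _).trans ?_
  calc ∑ j ∈ t, ∑ q ∈ (C j).filter (fun q : ℕ => zS k < q), 1 / (q : ℝ)
      ≤ ∑ _j ∈ t, 1 / (4 * L ^ 151) := by
        apply Finset.sum_le_sum
        intro j hj
        exact hz j (ht j hj).1 (C j) (hC j hj).1 (hC j hj).2
    _ = t.card * (1 / (4 * L ^ 151)) := by rw [Finset.sum_const, nsmul_eq_mul]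
    _ ≤ (2 * L ^ 100) * (1 / (4 * L ^ 151)) := by
        gcongr
        exact hcard t (fun j hj => (ht j hj).2)
    _ = 1 / (2 * L ^ 51) := by field_simp; norm_num
    _ ≤ 1 / (2 * L ^ 50) := by
        have : L ^ 50 ≤ L ^ 51 := pow_le_pow_right₀ (by linarith) (by norm_num)
        gcongr

end Pool.Agent.W_MP_83c777_nt
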