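import Mathlib
import Pool.Agent.W_MP_83c777_nt.KNum2
import Pool.Agent.W_MP_83c777_nt.DemandLow

set_option autoImplicit false

namespace Pool.Agent.W_MP_83c777_nt

open Finset Filter

lemma lam_ge_half {x L : ℝ} (hL : 0 ≤ L) (hx : 0 ≤ x) (h : L ^ 100 / 100 ≤ x ^ 100) : L / 2 ≤ x := by
  have hT : 0 ≤ L ^ 100 := pow_nonneg hL _
  have h0 : (100 : ℝ) ≤ 2 ^ 100 := by norm_num
  have h2 : L ^ 100 / 2 ^ 100 ≤ L ^ 100 / 100 :=
    div_le_div_of_nonneg_left hT (by norm_num) h0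
  have h1 : (L / 2) ^ 100 ≤ x ^ 100 := by
    rw [div_pow]
    exact h2.trans h
  have hL2 : 0 ≤ L / 2 := by linarith
  exact (pow_le_pow_iff_left₀ hL2 hx (by norm_num)).1 h1

/-- more facts -/
lemma more_facts : ∀ᶠ k : ℕ in atTop, 64 ≤ lam k ∧ lam k ^ 80 ≤ lam k ^ 100 / 100 ∧
    lam k ^ 5 ≤ lam k ^ 80 / 100 ∧ lam k ≤ lam k ^ 80 / 100 ∧
    (k : ℝ) < (yS k) ^ 2 ∧ Real.exp (lam k) ≤ yS k ∧ yS k ≤ k ∧ y1 k ≤ k ∧ 1000 * yS k ≤ y1 k ∧
    (∀ b : ℕ, 1 ≤ b → b ≤ k → zb b ≤ yS k) := by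
  filter_upwards [basic_facts, ev_lam (eventually_ge_atTop (64 : ℝ)), eventually_ge_atTop 1] with k hbf h64 hk1
  obtain ⟨h3, hk0, hkexp, _, _, _, _, _, hy1, hyS⟩ := hbf
  set L := lam k with hL
  have hL0 : 0 < L := by linarith
  have hL1 : 1 ≤ L := by linarith
  have hmono : ∀ {i j : ℕ}, i ≤ j → L ^ i ≤ L ^ j := fun h => pow_le_pow_right₀ hL1 h
  have e20 : L ^ 100 = L ^ 80 * L ^ 20 := by ring
  have e75 : L ^ 80 = L ^ 5 * L ^ 75 := by ring
  have e79 : L ^ 80 = L * L ^ 79 := by ring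
  have h2 : (100 : ℝ) ≤ L ^ 2 := by nlinarith
  have h20 : (100 : ℝ) ≤ L ^ 20 := h2.trans (hmono (by norm_num))
  have h75 : (100 : ℝ) ≤ L ^ 75 := h2.trans (hmono (by norm_num))
  have h79 : (100 : ℝ) ≤ L ^ 79 := h2.trans (hmono (by norm_num))
  have h80p : 0 < L ^ 80 := by positivity
  have h5p : 0 < L ^ 5 := by positivity
  have hA : L ^ 80 ≤ L ^ 100 / 100 := by rw [e20]; nlinarith
  have hB : L ^ 5 ≤ L ^ 80 / 100 := by rw [e75]; nlinarith
  have hC : L ≤ L ^ 80 / 100 := by rw [e79]; nlinarith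
  have h80 : (100 : ℝ) ≤ L ^ 80 := h2.trans (hmono (by norm_num))
  refine ⟨h64, hA, hB, hC, ?_, ?_, ?_, ?_, ?_, ?_⟩
  · rw [hyS, hkexp, ← Real.exp_nat_mul, Real.exp_lt_exp]
    push_cast
    linarith
  · rw [hyS]
    apply Real.exp_le_exp.2
    linarith
  · rw [hyS, hkexp]
    apply Real.exp_le_exp.2
    linarith
  · rw [hy1, hkexp]
    apply Real.exp_le_exp.2
    linarith
  · have h10 : (1000 : ℝ) ≤ Real.exp 50 := by
      have h := Real.add_one_le_exp (10 : ℝ)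
      have e : Real.exp 50 = Real.exp 10 ^ 5 := by rw [← Real.exp_nat_mul]; norm_num
      rw [e]
      calc (1000 : ℝ) ≤ 11 ^ 5 := by norm_num
        _ ≤ Real.exp 10 ^ 5 := pow_le_pow_left₀ (by norm_num) (by linarith) 5
    rw [hy1, hyS]
    calc 1000 * Real.exp (L ^ 100 - L ^ 80) ≤ Real.exp 50 * Real.exp (L ^ 100 - L ^ 80) := by gcongr
      _ = Real.exp (50 + (L ^ 100 - L ^ 80)) := by rw [Real.exp_add]
      _ ≤ Real.exp (L ^ 100 - L ^ 5) := by
          apply Real.exp_le_exp.2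
          linarith
  · intro b hb hbk
    unfold zb
    rw [hyS]
    apply Real.exp_le_exp.2
    have h1 : lam b ≤ L := lam_mono hb hbk
    have h4 : lam b ^ 97 ≤ L ^ 97 := pow_le_pow_left₀ (lam_nonneg b) h1 97
    have e3 : L ^ 100 = L ^ 97 * L ^ 3 := by ring
    have h6 : (2 : ℝ) ≤ L ^ 3 := by
      have := hmono (show 1 ≤ 3 by norm_num)
      rw [pow_one] at this
      linarith
    have h7 : L ^ 80 ≤ L ^ 97 := hmono (by norm_num)
    have h8 : 0 < L ^ 97 := by positivity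
    nlinarith

lemma pi_yS : ∀ᶠ k : ℕ in atTop,
    (Nat.primeCounting ⌊yS k⌋₊ : ℝ) ≤ 12 * yS k / (lam k) ^ 100 := by
  filter_upwards [basic_facts, more_facts] with k hbf hmf
  obtain ⟨h3, hk0, hkexp, _, _, _, _, _, hy1, hyS⟩ := hbf
  obtain ⟨h64, hA, hB, hC, _, hexp, _, _, _, _⟩ := hmf
  set L := lam k with hL
  have hL0 : 0 < L := by linarith
  have hy0 : 0 < yS k := by rw [hyS]; exact Real.exp_pos _
  have hy2 : 64 ≤ yS k := by
    have := Real.add_one_le_exp L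
    linarith
  have hfl : yS k - 1 < (⌊yS k⌋₊ : ℝ) := by
    have := Nat.lt_floor_add_one (yS k)
    linarith
  have hfl2 : (⌊yS k⌋₊ : ℝ) ≤ yS k := Nat.floor_le hy0.le
  have h2 : 2 ≤ ⌊yS k⌋₊ := by
    have : (2 : ℝ) ≤ ⌊yS k⌋₊ := by linarith
    exact_mod_cast this
  refine (primeCounting_le h2).trans ?_
  have hlog : L ^ 100 / 2 ≤ Real.log (⌊yS k⌋₊ : ℝ) := by
    have h4 : yS k / 2 ≤ (⌊yS k⌋₊ : ℝ) := by linarith
    have h5 := Real.log_le_log (by positivity) h4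
    rw [Real.log_div hy0.ne' (by norm_num), hyS, Real.log_exp] at h5
    have h6 := Real.log_two_lt_d9
    rw [← hyS] at h5
    linarith
  have h100 : 0 < L ^ 100 := by positivity
  calc 6 * (⌊yS k⌋₊ : ℝ) / Real.log (⌊yS k⌋₊ : ℝ) ≤ 6 * yS k / (L ^ 100 / 2) := by gcongr
    _ = 12 * yS k / L ^ 100 := by ring

lemma high1 (CD c : ℝ) (hCD : 0 < CD) (hc : 0 < c) : ∀ᶠ k : ℕ in atTop, ∀ n : ℕ, yS k < n → (n : ℝ) ≤ y1 k →
    2 * CD * n / (lam n) ^ 97 + c + Nat.primeCounting ⌊yS k⌋₊ ≤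
      n * Real.log ((k : ℝ) / n) / Real.log k := by
  filter_upwards [basic_facts, more_facts, pi_yS, ev_lam (eventually_ge_atTop (8 * CD * 2 ^ 97)),
    ev_lam (ev_pow_le_exp (4 * c) 95)] with k hbf hmf hpi hbig hexpc
  intro n hn hn1
  obtain ⟨h3, hk0, hkexp, _, _, _, _, _, hy1, hyS⟩ := hbf
  obtain ⟨h64, hA, hB, hC, _, hexp, _, _, _, _⟩ := hmf
  set L := lam k with hL
  have hL0 : 0 < L := by linarith
  have hL1 : 1 ≤ L := by linarith
  have hmono : ∀ {i j : ℕ}, i ≤ j → L ^ i ≤ L ^ j := fun h => pow_le_pow_right₀ hL1 h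
  have hy0 : 0 < yS k := by rw [hyS]; exact Real.exp_pos _
  have hn0 : (0 : ℝ) < n := by linarith
  have hlogk : Real.log k = L ^ 100 := (lam_pow k).symm
  have h100 : 0 < L ^ 100 := by positivity
  have hlogn1 : Real.log n ≤ L ^ 100 - L ^ 5 := by
    have h := Real.log_le_log hn0 hn1
    rwa [hy1, Real.log_exp] at h
  have hlogn2 : L ^ 100 - L ^ 80 ≤ Real.log n := by
    have h := Real.log_le_log hy0 hn.le
    rwa [hyS, Real.log_exp] at h
  have hlamn : L / 2 ≤ lam n := by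
    apply lam_ge_half hL0.le (lam_nonneg n)
    rw [lam_pow n]
    linarith
  have t1 : 2 * CD * n / (lam n) ^ 97 ≤ (1 / 4) * (n / L ^ 95) := by
    have h7 : (L / 2) ^ 97 ≤ lam n ^ 97 := pow_le_pow_left₀ (by positivity) hlamn 97
    calc 2 * CD * n / (lam n) ^ 97 ≤ 2 * CD * n / (L / 2) ^ 97 := by gcongr
      _ = ((8 * CD * 2 ^ 97) / L ^ 2) * ((1 / 4) * (n / L ^ 95)) := by
          rw [div_pow]
          have e1 : L ^ 97 = L ^ 2 * L ^ 95 := by rw [← pow_add]
          rw [e1]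
          generalize (2 : ℝ) ^ 97 = T
          field_simp
          ring
      _ ≤ 1 * ((1 / 4) * (n / L ^ 95)) := by
          gcongr
          rw [div_le_one (by positivity)]
          have := hmono (show 1 ≤ 2 by norm_num)
          rw [pow_one] at this
          linarith
      _ = _ := by ring
  have t2 : c ≤ (1 / 4) * (n / L ^ 95) := by
    have h5 : 4 * c ≤ n / L ^ 95 := by
      rw [le_div_iff₀ (by positivity)]
      linarith
    linarith
  have t3 : (Nat.primeCounting ⌊yS k⌋₊ : ℝ) ≤ (1 / 4) * (n / L ^ 95) := by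
    refine hpi.trans ?_
    calc 12 * yS k / L ^ 100 ≤ 12 * n / L ^ 100 := by gcongr
      _ = (48 / L ^ 5) * ((1 / 4) * (n / L ^ 95)) := by field_simp; norm_num
      _ ≤ 1 * ((1 / 4) * (n / L ^ 95)) := by
          gcongr
          rw [div_le_one (by positivity)]
          have := hmono (show 1 ≤ 5 by norm_num)
          rw [pow_one] at this
          linarith
      _ = _ := by ring
  have t4 : n / L ^ 95 ≤ n * Real.log ((k : ℝ) / n) / Real.log k := by
    rw [Real.log_div hk0.ne' hn0.ne', hlogk]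
    calc n / L ^ 95 = n * L ^ 5 / L ^ 100 := by field_simp
      _ ≤ n * (L ^ 100 - Real.log n) / L ^ 100 := by
          gcongr
          linarith
  have h9 : 0 < (n : ℝ) / L ^ 95 := by positivity
  linarith

lemma high2 (c : ℝ) (hc : 0 < c) : ∀ᶠ k : ℕ in atTop, ∀ n : ℕ, y1 k < n → 2 * n ≤ k + 1 →
    1 / 4 * n / Real.log k + c + Nat.primeCounting ⌊yS k⌋₊ ≤
      n * Real.log ((k : ℝ) / n) / Real.log k := by
  filter_upwards [basic_facts, more_facts, pi_yS,
    ev_lam (ev_pow_le_exp (8 * c) 100), eventually_ge_atTop 100] with k hbf hmf hpi hexpc hk100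
  intro n hn hn2
  obtain ⟨h3, hk0, hkexp, _, _, _, _, _, hy1, hyS⟩ := hbf
  obtain ⟨h64, hA, hB, hC, _, hexp, _, _, h1000, _⟩ := hmf
  set L := lam k with hL
  have hL0 : 0 < L := by linarith
  have hL1 : 1 ≤ L := by linarith
  have hy0 : 0 < yS k := by rw [hyS]; exact Real.exp_pos _
  have hn0 : (0 : ℝ) < n := by linarith
  have hlogk : Real.log k = L ^ 100 := (lam_pow k).symm
  have h100 : 0 < L ^ 100 := by positivity
  have hk100' : (100 : ℝ) ≤ k := by exact_mod_cast hk100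
  have hn2' : 2 * (n : ℝ) ≤ k + 1 := by exact_mod_cast hn2
  have hhalf : 1 / 2 ≤ Real.log ((k : ℝ) / n) := by
    rw [Real.le_log_iff_exp_le (by positivity)]
    have h5 : Real.exp (1 / 2) ≤ 1.65 := by
      have h6 : (Real.exp (1 / 2)) ^ 2 ≤ 1.65 ^ 2 := by
        rw [← Real.exp_nat_mul]
        have e : ((2 : ℕ) : ℝ) * (1 / 2) = 1 := by norm_num
        rw [e]
        have := Real.exp_one_lt_d9
        norm_num
        linarith
      exact (pow_le_pow_iff_left₀ (Real.exp_pos _).le (by norm_num) (by norm_num)).1 h6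
    refine h5.trans ?_
    rw [le_div_iff₀ hn0]
    linarith
  have t1 : 1 / 4 * n / Real.log k = (1 / 4) * (n / L ^ 100) := by rw [hlogk]; ring
  have t2 : c ≤ (1 / 8) * (n / L ^ 100) := by
    have h5 : 8 * c ≤ n / L ^ 100 := by
      rw [le_div_iff₀ (by positivity)]
      linarith
    linarith
  have t3 : (Nat.primeCounting ⌊yS k⌋₊ : ℝ) ≤ (1 / 8) * (n / L ^ 100) := by
    refine hpi.trans ?_
    calc 12 * yS k / L ^ 100 ≤ ((1 / 8) * n) / L ^ 100 := by
          apply div_le_div_of_nonneg_right _ h100.le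
          linarith
      _ = _ := by ring
  have t4 : (1 / 2) * (n / L ^ 100) ≤ n * Real.log ((k : ℝ) / n) / Real.log k := by
    rw [hlogk]
    calc (1 / 2) * (n / L ^ 100) = n * (1 / 2) / L ^ 100 := by ring
      _ ≤ n * Real.log ((k : ℝ) / n) / L ^ 100 := by gcongr
  rw [t1]
  linarith

end Pool.Agent.W_MP_83c777_nt
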