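import Mathlib
import Pool.Agent.W_MP_83c777_nt.Basic
import Pool.Agent.W_MP_83c777_nt.KNum3

set_option autoImplicit false

namespace Pool.Agent.W_MP_83c777_nt

open Finset Filter

lemma split_ends (k b : ℕ) (hbk : b ≤ k) (U : Finset ℕ) (hU : ∀ x ∈ U, x < k) :
    (U.filter (fun x => idx k x < b)).card ≤
      (U.filter (fun x => x < b)).card + (U.filter (fun x => k - b ≤ x)).card := by
  classical
  refine le_trans (Finset.card_le_card ?_) (Finset.card_union_le _ _)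
  intro x hx
  rw [mem_filter] at hx
  rw [mem_union, mem_filter, mem_filter]
  have hxk := hU x hx.1
  have h := hx.2
  unfold idx at h
  rcases min_lt_iff.1 h with h1 | h1
  · exact Or.inl ⟨hx.1, h1⟩
  · exact Or.inr ⟨hx.1, by omega⟩

/-- demand bound for the two ends, any residues -/
lemma dem_low {CD : ℝ} {b : ℕ}
    (hdl : ∀ (C : Finset ℕ) (r : ℕ → ℕ),
      (∀ q : ℕ, q.Prime → (q : ℝ) ≤ zb b → q ∉ C → r q < q) →
      ∑ q ∈ C.filter (fun q : ℕ => q.Prime ∧ (q : ℝ) ≤ zb b), 1 / (q : ℝ) ≤ 1 →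
      ∀ (a : ℕ) (S : Finset ℕ), (∀ x ∈ S, a ≤ x ∧ x < a + b) →
        (∀ x ∈ S, ∀ q : ℕ, q.Prime → (q : ℝ) ≤ zb b → q ∉ C → x % q ≠ r q) →
        (S.card : ℝ) ≤ CD * b / (lam b) ^ 97)
    {k : ℕ} (CC : Finset ℕ) (r0 : ℕ → ℕ) (U : Finset ℕ) (hU : ∀ x ∈ U, x < k)
    (hr0 : ∀ q : ℕ, q.Prime → q ≤ k → q ∉ CC → r0 q < q)
    (hUr : ∀ x ∈ U, ∀ q : ℕ, q.Prime → q ≤ k → q ∉ CC → x % q ≠ r0 q)
    (hbk : b ≤ k) (hzb : zb b ≤ k)
    (hsum : ∑ q ∈ CC.filter (fun q : ℕ => q.Prime ∧ (q : ℝ) ≤ zb b), 1 / (q : ℝ) ≤ 1) :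
    ((U.filter (fun x => idx k x < b)).card : ℝ) ≤ 2 * CD * b / (lam b) ^ 97 := by
  classical
  have hqk : ∀ q : ℕ, (q : ℝ) ≤ zb b → q ≤ k := by
    intro q hq
    exact_mod_cast hq.trans hzb
  have h1 := hdl CC r0 (fun q hq hqz hqC => hr0 q hq (hqk q hqz) hqC) hsum 0
    (U.filter (fun x => x < b)) (by
      intro x hx
      rw [mem_filter] at hx
      omega) (by
      intro x hx q hq hqz hqC
      rw [mem_filter] at hx
      exact hUr x hx.1 q hq (hqk q hqz) hqC)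
  have h2 := hdl CC r0 (fun q hq hqz hqC => hr0 q hq (hqk q hqz) hqC) hsum (k - b)
    (U.filter (fun x => k - b ≤ x)) (by
      intro x hx
      rw [mem_filter] at hx
      have := hU x hx.1
      omega) (by
      intro x hx q hq hqz hqC
      rw [mem_filter] at hx
      exact hUr x hx.1 q hq (hqk q hqz) hqC)
  have h3 := split_ends k b hbk U hU
  have h4 : ((U.filter (fun x => idx k x < b)).card : ℝ) ≤
      (U.filter (fun x => x < b)).card + (U.filter (fun x => k - b ≤ x)).card := by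
    exact_mod_cast h3
  have h5 : 2 * CD * b / (lam b) ^ 97 = CD * b / (lam b) ^ 97 + CD * b / (lam b) ^ 97 := by ring
  rw [h5]
  linarith

/-- demand bound for the two long ends -/
lemma dem_high {A ε : ℝ} {k : ℕ}
    (hdh : ∀ C : Finset ℕ,
      (∑ q ∈ C.filter (fun q : ℕ => q.Prime ∧ (q : ℝ) ≤ yS k), 1 / (q : ℝ) ≤ A) →
      (∑ q ∈ C.filter (fun q : ℕ => q.Prime ∧ zS k < q ∧ (q : ℝ) ≤ yS k), 1 / (q : ℝ)
        ≤ 1 / (lam k) ^ 50) →
      ∀ a b : ℕ, y1 k ≤ b → 1 ≤ a → a + b ≤ k + 1 →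
      ∀ S : Finset ℕ, (∀ n ∈ S, a ≤ n ∧ n < a + b) →
      (∀ n ∈ S, ∀ q : ℕ, q.Prime → zS k < q → (q : ℝ) ≤ yS k → q ∉ C → ¬ q ∣ n) →
      (∀ n ∈ S, ∀ q : ℕ, q.Prime → (q : ℝ) ≤ zS k → q ∉ C → ¬ q ∣ (k + 1 - n)) →
      (S.card : ℝ) ≤ ε * b / Real.log k)
    (C U : Finset ℕ) (hU : ∀ x ∈ U, x < k)
    (hs1 : ∑ q ∈ C.filter (fun q : ℕ => q.Prime ∧ (q : ℝ) ≤ yS k), 1 / (q : ℝ) ≤ A)
    (hs2 : ∑ q ∈ C.filter (fun q : ℕ => q.Prime ∧ zS k < q ∧ (q : ℝ) ≤ yS k), 1 / (q : ℝ)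
        ≤ 1 / (lam k) ^ 50)
    (hU1 : ∀ x ∈ U, ∀ q : ℕ, q.Prime → zS k < q → (q : ℝ) ≤ yS k → q ∉ C → x % q ≠ q - 1)
    (hU2 : ∀ x ∈ U, ∀ q : ℕ, q.Prime → (q : ℝ) ≤ zS k → q ∉ C → x % q ≠ k % q)
    {b : ℕ} (hb : y1 k ≤ b) (hbk : b ≤ k) :
    ((U.filter (fun x => idx k x < b)).card : ℝ) ≤ 2 * ε * b / Real.log k := by
  classical
  have hn1 : ∀ x ∈ U, ∀ q : ℕ, q.Prime → zS k < q → (q : ℝ) ≤ yS k → q ∉ C → ¬ q ∣ (x + 1) := by
    intro x hx q hq h1 h2 h3 hd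
    apply hU1 x hx q hq h1 h2 h3
    obtain ⟨m, hm⟩ := hd
    have hq2 := hq.two_le
    have hm0 : m ≠ 0 := by rintro rfl; omega
    obtain ⟨m', rfl⟩ := Nat.exists_eq_succ_of_ne_zero hm0
    have hx' : x = (q - 1) + q * m' := by
      have : q * (m' + 1) = q * m' + q := by ring
      rw [Nat.succ_eq_add_one] at hm
      omega
    rw [hx', Nat.add_mul_mod_self_left, Nat.mod_eq_of_lt (by omega)]
  have hn2 : ∀ x ∈ U, ∀ q : ℕ, q.Prime → (q : ℝ) ≤ zS k → q ∉ C → ¬ q ∣ (k + 1 - (x + 1)) := by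
    intro x hx q hq h1 h2 hd
    apply hU2 x hx q hq h1 h2
    have hxk := hU x hx
    have h3 : k + 1 - (x + 1) = k - x := by omega
    rw [h3] at hd
    exact (Nat.modEq_iff_dvd' (by omega)).2 hd
  have hinj : Set.InjOn (fun x : ℕ => x + 1) (Set.univ : Set ℕ) := fun x _ y _ h => by
    simpa using h
  have h1 := hdh C hs1 hs2 1 b hb (le_refl 1) (by omega)
    ((U.filter (fun x => x < b)).image (fun x => x + 1)) (by
      intro n hn
      rw [mem_image] at hn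
      obtain ⟨x, hx, rfl⟩ := hn
      rw [mem_filter] at hx
      omega) (by
      intro n hn
      rw [mem_image] at hn
      obtain ⟨x, hx, rfl⟩ := hn
      rw [mem_filter] at hx
      exact hn1 x hx.1) (by
      intro n hn
      rw [mem_image] at hn
      obtain ⟨x, hx, rfl⟩ := hn
      rw [mem_filter] at hx
      exact hn2 x hx.1)
  have h2 := hdh C hs1 hs2 (k - b + 1) b hb (by omega) (by omega)
    ((U.filter (fun x => k - b ≤ x)).image (fun x => x + 1)) (by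
      intro n hn
      rw [mem_image] at hn
      obtain ⟨x, hx, rfl⟩ := hn
      rw [mem_filter] at hx
      have := hU x hx.1
      omega) (by
      intro n hn
      rw [mem_image] at hn
      obtain ⟨x, hx, rfl⟩ := hn
      rw [mem_filter] at hx
      exact hn1 x hx.1) (by
      intro n hn
      rw [mem_image] at hn
      obtain ⟨x, hx, rfl⟩ := hn
      rw [mem_filter] at hx
      exact hn2 x hx.1)
  rw [Finset.card_image_of_injective _ (add_left_injective 1)] at h1 h2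
  have h3 := split_ends k b hbk U hU
  have h4 : ((U.filter (fun x => idx k x < b)).card : ℝ) ≤
      (U.filter (fun x => x < b)).card + (U.filter (fun x => k - b ≤ x)).card := by
    exact_mod_cast h3
  have h5 : 2 * ε * b / Real.log k = ε * b / Real.log k + ε * b / Real.log k := by ring
  rw [h5]
  linarith

end Pool.Agent.W_MP_83c777_nt
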