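import Mathlib

set_option autoImplicit false

namespace Pool.Agent.W_MP_83c777_nt

open Finset

lemma hall_on (X : Finset ℕ) (t : ℕ → Finset ℕ) (h : ∀ s ⊆ X, s.card ≤ (s.biUnion t).card) :
    ∃ f : ℕ → ℕ, Set.InjOn f X ∧ ∀ x ∈ X, f x ∈ t x := by
  classical
  have key := (Finset.all_card_le_biUnion_card_iff_exists_injective
    (fun x : {x // x ∈ X} => t x.1)).1 (by
      intro s
      have h1 := h (s.image Subtype.val) (by
        intro x hx
        rw [mem_image] at hx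
        obtain ⟨y, _, rfl⟩ := hx
        exact y.2)
      rw [Finset.card_image_of_injective _ Subtype.val_injective] at h1
      rw [Finset.image_biUnion] at h1
      exact h1)
  obtain ⟨f, hf1, hf2⟩ := key
  refine ⟨fun x => if hx : x ∈ X then f ⟨x, hx⟩ else 0, ?_, ?_⟩
  · intro x hx y hy hxy
    rw [mem_coe] at hx hy
    simp only [hx, hy, dif_pos] at hxy
    have := hf1 hxy
    exact congrArg Subtype.val this
  · intro x hx
    simp only [hx, dif_pos]
    exact hf2 ⟨x, hx⟩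

lemma hall_res (X : Finset ℕ) (t : ℕ → Finset ℕ) (h : ∀ s ⊆ X, s.card ≤ (s.biUnion t).card)
    (d : ℕ → ℕ) : ∃ r : ℕ → ℕ, ∃ T : Finset ℕ, T.card ≤ X.card ∧
      (∀ q ∈ T, ∃ x ∈ X, q ∈ t x ∧ r q = x % q) ∧ (∀ q, q ∉ T → r q = d q) ∧
      ∀ x ∈ X, ∃ q ∈ T, q ∈ t x ∧ x % q = r q := by
  classical
  obtain ⟨f, hf1, hf2⟩ := hall_on X t h
  have hex : ∀ q : ℕ, ∃ x : ℕ, q ∈ X.image f → x ∈ X ∧ f x = q := by
    intro q
    by_cases hq : q ∈ X.image f
    · rw [mem_image] at hq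
      obtain ⟨x, hx, hxq⟩ := hq
      exact ⟨x, fun _ => ⟨hx, hxq⟩⟩
    · exact ⟨0, fun h' => absurd h' hq⟩
  choose g hg using hex
  refine ⟨fun q => if q ∈ X.image f then g q % q else d q, X.image f, Finset.card_image_le, ?_, ?_, ?_⟩
  · intro q hq
    obtain ⟨h1, h2⟩ := hg q hq
    refine ⟨g q, h1, ?_, ?_⟩
    · have := hf2 (g q) h1
      rwa [h2] at this
    · simp only [hq, if_true]
  · intro q hq
    simp only [hq, if_false]
  · intro x hx
    have hm : f x ∈ X.image f := mem_image_of_mem f hx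
    refine ⟨f x, hm, hf2 x hx, ?_⟩
    obtain ⟨h1, h2⟩ := hg (f x) hm
    have h3 : g (f x) = x := hf1 (mem_coe.2 h1) (mem_coe.2 hx) h2
    simp only [hm, if_true, h3]

end Pool.Agent.W_MP_83c777_nt
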