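import Mathlib

set_option autoImplicit false

namespace Pool.Agent.W_MP_83c777_nt

open Finset

lemma smooth3_form {u : ℕ} (hu : u ≠ 0) (h : ∀ q, q.Prime → q ∣ u → q < 5) :
    ∃ a b, u = 2 ^ a * 3 ^ b := by
  obtain ⟨a, m, hm, rfl⟩ := Nat.exists_eq_pow_mul_and_not_dvd hu 2 (by norm_num)
  have hm0 : m ≠ 0 := by rintro rfl; simp at hm
  obtain ⟨b, m', hm', rfl⟩ := Nat.exists_eq_pow_mul_and_not_dvd hm0 3 (by norm_num)
  have h1 : m' = 1 := by
    by_contra hne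
    obtain ⟨q, hq, hqm⟩ := Nat.exists_prime_and_dvd hne
    have h2 := h q hq ((hqm.mul_left _).mul_left _)
    have h3 := hq.two_le
    interval_cases q
    · exact hm (hqm.mul_left _)
    · exact hm' hqm
    · exact absurd hq (by norm_num)
  subst h1
  exact ⟨a, b, by ring⟩

lemma pow3_mod (e : ℕ) : 3 ^ e % 960 = 3 ^ (e % 16 + 16) % 960 ∨ e = 0 := by
  rcases Nat.eq_zero_or_pos e with h | h
  · exact Or.inr h
  · left
    have key : ∀ n, 3 ^ (n + 1 + 16) % 960 = 3 ^ (n + 1) % 960 := by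
      intro n
      have : 3 ^ (n + 1 + 16) = 3 ^ (n + 1) + 960 * (3 ^ n * 134521) + 0 := by
        have e1 : 3 ^ (n + 1 + 16) = 3 ^ n * 3 ^ 17 := by rw [← pow_add]
        have e2 : 3 ^ (n + 1) = 3 ^ n * 3 := by rw [pow_succ]
        rw [e1, e2]
        have : (3 : ℕ) ^ 17 = 3 + 960 * 134521 := by norm_num
        rw [this]; ring
      rw [this, add_zero, Nat.add_mul_mod_self_left]
    have gen : ∀ t r, 3 ^ (r + 1 + 16 * t) % 960 = 3 ^ (r + 1) % 960 := by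
      intro t
      induction t with
      | zero => intro r; rfl
      | succ t ih =>
        intro r
        have : r + 1 + 16 * (t + 1) = (r + 16 * t) + 1 + 16 := by ring
        rw [this, key]
        have : r + 16 * t + 1 = r + 1 + 16 * t := by ring
        rw [this, ih]
    obtain ⟨f, rfl⟩ : ∃ f, e = f + 1 := ⟨e - 1, by omega⟩
    -- e = e % 16 + 16 * (e/16)
    have h1 := Nat.mod_add_div (f + 1) 16
    set s := (f + 1) % 16 with hs
    set t := (f + 1) / 16 with ht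
    have h2 : 3 ^ (s + 16) % 960 = 3 ^ (s + 15 + 1) % 960 := by ring_nf
    rcases Nat.eq_zero_or_pos s with h3 | h3
    · have h4 : f + 1 = 15 + 1 + 16 * (t - 1) := by omega
      rw [h4, gen, h3]
    · have h4 : f + 1 = (s - 1) + 1 + 16 * t := by omega
      rw [h4, gen]
      have h5 : s + 16 = (s - 1) + 1 + 16 * 1 := by omega
      rw [h5, gen]

lemma pow2_mod (a : ℕ) (ha : 6 ≤ a) : 2 ^ a % 960 = 2 ^ (a % 4 + 8) % 960 := by
  have key : ∀ n, 2 ^ (n + 6 + 4) % 960 = 2 ^ (n + 6) % 960 := by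
    intro n
    have : 2 ^ (n + 6 + 4) = 2 ^ (n + 6) + 960 * 2 ^ n := by
      rw [pow_add, pow_add 2 n 6]; ring
    rw [this, Nat.add_mul_mod_self_left]
  have gen : ∀ t r, 2 ^ (r + 6 + 4 * t) % 960 = 2 ^ (r + 6) % 960 := by
    intro t
    induction t with
    | zero => intro r; rfl
    | succ t ih =>
      intro r
      have : r + 6 + 4 * (t + 1) = (r + 4 * t) + 6 + 4 := by ring
      rw [this, key]
      have : r + 4 * t + 6 = r + 6 + 4 * t := by ring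
      rw [this, ih]
  have h1 := Nat.mod_add_div a 4
  set s := a % 4 with hs
  set t := a / 4 with ht
  have hs4 : s < 4 := Nat.mod_lt _ (by norm_num)
  by_cases h2 : 2 ≤ s
  · have h4 : a = (s - 2) + 2 + 4 * t := by omega
    have h5 : 1 ≤ t := by omega
    have h6 : a = (s - 2) + 6 + 4 * (t - 1) := by omega
    rw [h6, gen]
    have h7 : s + 8 = (s - 2) + 6 + 4 * 1 := by omega
    rw [h7, gen]
  · have h6 : a = (s + 2) + 6 + 4 * (t - 2) := by omega
    rw [h6, gen]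

/-- two numbers composed of 2 and 3 only and larger than 3000 differ by at least 5 -/
lemma gap {u d : ℕ} (hu : 3000 < u) (hd1 : 1 ≤ d) (hd4 : d ≤ 4)
    (h1 : ∀ q, q.Prime → q ∣ u → q < 5) (h2 : ∀ q, q.Prime → q ∣ u + d → q < 5) : False := by
  obtain ⟨a, b, hab⟩ := smooth3_form (by omega) h1
  obtain ⟨c, e, hce⟩ := smooth3_form (by omega) h2
  have heq : 2 ^ a * 3 ^ b + d = 2 ^ c * 3 ^ e := by rw [← hab, ← hce]
  -- min (a, c) ≤ 2
  have hac : a ≤ 2 ∨ c ≤ 2 := by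
    by_contra hcon
    push Not at hcon
    have h3 : 2 ^ 3 ∣ 2 ^ a * 3 ^ b := (pow_dvd_pow 2 hcon.1).mul_right _
    have h4 : 2 ^ 3 ∣ 2 ^ c * 3 ^ e := (pow_dvd_pow 2 hcon.2).mul_right _
    rw [← heq] at h4
    have h5 := (Nat.dvd_add_right h3).1 h4
    have := Nat.le_of_dvd (by omega) h5
    omega
  have hbe : b ≤ 1 ∨ e ≤ 1 := by
    by_contra hcon
    push Not at hcon
    have h3 : 3 ^ 2 ∣ 2 ^ a * 3 ^ b := (pow_dvd_pow 3 hcon.1).mul_left _
    have h4 : 3 ^ 2 ∣ 2 ^ c * 3 ^ e := (pow_dvd_pow 3 hcon.2).mul_left _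
    rw [← heq] at h4
    have h5 := (Nat.dvd_add_right h3).1 h4
    have := Nat.le_of_dvd (by omega) h5
    omega
  have hbig1 : ¬ (a ≤ 2 ∧ b ≤ 1) := by
    rintro ⟨h3, h4⟩
    have : 2 ^ a * 3 ^ b ≤ 2 ^ 2 * 3 ^ 1 :=
      Nat.mul_le_mul (Nat.pow_le_pow_right (by norm_num) h3) (Nat.pow_le_pow_right (by norm_num) h4)
    omega
  have hbig2 : ¬ (c ≤ 2 ∧ e ≤ 1) := by
    rintro ⟨h3, h4⟩
    have : 2 ^ c * 3 ^ e ≤ 2 ^ 2 * 3 ^ 1 :=
      Nat.mul_le_mul (Nat.pow_le_pow_right (by norm_num) h3) (Nat.pow_le_pow_right (by norm_num) h4)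
    omega
  -- two types
  have htypes : (a ≤ 2 ∧ e ≤ 1) ∨ (c ≤ 2 ∧ b ≤ 1) := by omega
  have hmod : (2 ^ a * 3 ^ b + d) % 960 = (2 ^ c * 3 ^ e) % 960 := by rw [heq]
  rcases htypes with ⟨ha2, he1⟩ | ⟨hc2, hb1⟩
  · -- 2^c large
    have hc : 6 ≤ c := by
      by_contra hcon
      have : 2 ^ c * 3 ^ e ≤ 2 ^ 5 * 3 ^ 1 :=
        Nat.mul_le_mul (Nat.pow_le_pow_right (by norm_num) (by omega))
          (Nat.pow_le_pow_right (by norm_num) he1)
      omega
    have hb : b ≠ 0 := by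
      rintro rfl
      omega
    have h3 := (pow3_mod b).resolve_right hb
    have h4 := pow2_mod c hc
    have h5 : (2 ^ a * (3 ^ (b % 16 + 16) % 960) + d) % 960 = ((2 ^ (c % 4 + 8) % 960) * 3 ^ e) % 960 := by
      rw [← h3, ← h4]
      rw [Nat.add_mod, Nat.mul_mod] at hmod
      rw [Nat.add_mod, Nat.mul_mod, Nat.mod_mod, hmod, Nat.mod_mul_mod]
    have hb16 : b % 16 < 16 := Nat.mod_lt _ (by norm_num)
    have hc4 : c % 4 < 4 := Nat.mod_lt _ (by norm_num)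
    generalize b % 16 = B at *
    generalize c % 4 = D at *
    clear hmod heq hab hce h1 h2 h3 h4 hac hbe hbig1 hbig2 hu hb
    have key : ∀ (a : Fin 3) (e : Fin 2) (d : Fin 4) (B : Fin 16) (D : Fin 4),
        (2 ^ a.1 * (3 ^ (B.1 + 16) % 960) + (d.1 + 1)) % 960 ≠
          ((2 ^ (D.1 + 8) % 960) * 3 ^ e.1) % 960 := by
      decide +kernel
    have h6 := key ⟨a, by omega⟩ ⟨e, by omega⟩ ⟨d - 1, by omega⟩ ⟨B, hb16⟩ ⟨D, hc4⟩
    simp only [Nat.sub_add_cancel hd1] at h6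
    exact h6 h5
  · have ha : 6 ≤ a := by
      by_contra hcon
      have : 2 ^ a * 3 ^ b ≤ 2 ^ 5 * 3 ^ 1 :=
        Nat.mul_le_mul (Nat.pow_le_pow_right (by norm_num) (by omega))
          (Nat.pow_le_pow_right (by norm_num) hb1)
      omega
    have he : e ≠ 0 := by
      rintro rfl
      omega
    have h3 := (pow3_mod e).resolve_right he
    have h4 := pow2_mod a ha
    have h5 : ((2 ^ (a % 4 + 8) % 960) * 3 ^ b + d) % 960 = (2 ^ c * (3 ^ (e % 16 + 16) % 960)) % 960 := by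
      rw [← h3, ← h4]
      rw [Nat.mul_mod (2 ^ c)] at hmod
      rw [Nat.mul_mod (2 ^ c), Nat.mod_mod, ← hmod, Nat.add_mod, Nat.mod_mul_mod, ← Nat.add_mod]
    have he16 : e % 16 < 16 := Nat.mod_lt _ (by norm_num)
    have ha4 : a % 4 < 4 := Nat.mod_lt _ (by norm_num)
    generalize e % 16 = E at *
    generalize a % 4 = D at *
    clear hmod heq hab hce h1 h2 h3 h4 hac hbe hbig1 hbig2 hu he
    have key : ∀ (b : Fin 2) (c : Fin 3) (d : Fin 4) (E : Fin 16) (D : Fin 4),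
        ((2 ^ (D.1 + 8) % 960) * 3 ^ b.1 + (d.1 + 1)) % 960 ≠
          (2 ^ c.1 * (3 ^ (E.1 + 16) % 960)) % 960 := by
      decide +kernel
    have h6 := key ⟨b, by omega⟩ ⟨c, by omega⟩ ⟨d - 1, by omega⟩ ⟨E, he16⟩ ⟨D, ha4⟩
    simp only [Nat.sub_add_cancel hd1] at h6
    exact h6 h5

end Pool.Agent.W_MP_83c777_nt
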