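import Mathlib
import Pool.Agent.W_MP_83c777_nt.Gap

set_option autoImplicit false

namespace Pool.Agent.W_MP_83c777_nt

open Finset

/-- primes at least 5 dividing one of `k, k-1, ..., k-M` -/
def PP (k M : ℕ) : Finset ℕ :=
  (range (k + 1)).filter (fun q => q.Prime ∧ 5 ≤ q ∧ ∃ j ∈ range (M + 1), q ∣ k - j)

lemma mem_PP {k M q : ℕ} (hM : M < k) :
    q ∈ PP k M ↔ q.Prime ∧ 5 ≤ q ∧ ∃ j, j ≤ M ∧ q ∣ k - j := by
  rw [PP, mem_filter, mem_range]
  constructor
  · rintro ⟨_, h2, h3, j, hj, h4⟩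
    rw [mem_range] at hj
    exact ⟨h2, h3, j, by omega, h4⟩
  · rintro ⟨h2, h3, j, hj, h4⟩
    refine ⟨?_, h2, h3, j, by rw [mem_range]; omega, h4⟩
    have := Nat.le_of_dvd (by omega) h4
    omega

lemma grimm {k M : ℕ} (hM : 1 ≤ M) (hk : M ^ M + M < k) : M ≤ (PP k M).card + 1 := by
  classical
  by_contra hcon
  push Not at hcon
  set Q : Finset ℕ := insert 2 (insert 3 (PP k M)) with hQ
  have hQcard : Q.card ≤ M := by
    have h1 := Finset.card_insert_le 2 (insert 3 (PP k M))
    have h2 := Finset.card_insert_le 3 (PP k M)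
    rw [hQ]
    omega
  have hex : ∀ q : ℕ, ∃ j ∈ range (M + 1), ∀ j' ∈ range (M + 1),
      (k - j').factorization q ≤ (k - j).factorization q := fun q =>
    Finset.exists_max_image (range (M + 1)) (fun j => (k - j).factorization q) ⟨0, by simp⟩
  choose J hJ1 hJ2 using hex
  obtain ⟨j0, hj0, hj0'⟩ : ∃ j0 ∈ range (M + 1), j0 ∉ Q.image J := by
    apply Finset.exists_mem_notMem_of_card_lt_card
    rw [card_range]
    exact lt_of_le_of_lt Finset.card_image_le (by omega)
  rw [mem_range] at hj0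
  have hn0 : k - j0 ≠ 0 := by omega
  have hprimes : ∀ q ∈ (k - j0).primeFactors, q ∈ Q := by
    intro q hq
    rw [Nat.mem_primeFactors] at hq
    rw [hQ, mem_insert, mem_insert]
    have h2 := hq.1.two_le
    by_cases h5 : 5 ≤ q
    · right; right
      rw [mem_PP (by omega)]
      exact ⟨hq.1, h5, j0, by omega, hq.2.1⟩
    · have : q ≠ 4 := by rintro rfl; exact absurd hq.1 (by norm_num)
      omega
  have hpow : ∀ q ∈ (k - j0).primeFactors, q ^ (k - j0).factorization q ≤ M := by
    intro q hq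
    have hqQ := hprimes q hq
    have hJq := hJ1 q
    rw [mem_range] at hJq
    have hne : j0 ≠ J q := by
      intro h
      exact hj0' (by rw [mem_image]; exact ⟨q, hqQ, h.symm⟩)
    have h1 : q ^ (k - j0).factorization q ∣ k - j0 := Nat.ordProj_dvd _ _
    have h2 : q ^ (k - j0).factorization q ∣ k - J q :=
      (pow_dvd_pow q (hJ2 q j0 (by rw [mem_range]; exact hj0))).trans (Nat.ordProj_dvd _ _)
    rcases Nat.lt_or_ge j0 (J q) with h3 | h3
    · have h4 := Nat.dvd_sub h1 h2
      have h5 : k - j0 - (k - J q) = J q - j0 := by omega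
      rw [h5] at h4
      have := Nat.le_of_dvd (by omega) h4
      omega
    · have h4 := Nat.dvd_sub h2 h1
      have h5 : k - J q - (k - j0) = j0 - J q := by omega
      rw [h5] at h4
      have := Nat.le_of_dvd (by omega) h4
      omega
  have hle : k - j0 ≤ M ^ M := by
    calc k - j0 = ∏ q ∈ (k - j0).primeFactors, q ^ (k - j0).factorization q := by
          conv_lhs => rw [← Nat.prod_factorization_pow_eq_self hn0]
          rfl
      _ ≤ ∏ _q ∈ (k - j0).primeFactors, M := Finset.prod_le_prod' hpow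
      _ = M ^ (k - j0).primeFactors.card := by rw [Finset.prod_const]
      _ ≤ M ^ M := by
          apply Nat.pow_le_pow_right hM
          exact (Finset.card_le_card (fun q hq => hprimes q hq)).trans hQcard
  omega

/-- prime factors at least `c` of `k - j` -/
def gg (c k j : ℕ) : Finset ℕ := (k - j).primeFactors.filter (fun q => c ≤ q)

lemma sum_gg_le {c k M : ℕ} (hc : 5 ≤ c) (hMc : M < c) (hMk : M < k) :
    ∑ j ∈ range (M + 1), (gg c k j).card ≤ ((PP k M).filter (fun q => c ≤ q)).card := by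
  classical
  rw [← Finset.card_biUnion]
  · apply Finset.card_le_card
    intro q hq
    rw [mem_biUnion] at hq
    obtain ⟨j, hj, hq⟩ := hq
    rw [mem_range] at hj
    rw [gg, mem_filter, Nat.mem_primeFactors] at hq
    rw [mem_filter, mem_PP hMk]
    exact ⟨⟨hq.1.1, by omega, j, by omega, hq.1.2.1⟩, hq.2⟩
  · intro i hi j hj hij
    show Disjoint (gg c k i) (gg c k j)
    rw [Finset.disjoint_left]
    intro q hqi hqj
    rw [gg, mem_filter, Nat.mem_primeFactors] at hqi hqj
    rw [mem_coe, mem_range] at hi hj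
    rcases Nat.lt_or_ge i j with h | h
    · have h4 := Nat.dvd_sub hqi.1.2.1 hqj.1.2.1
      have h5 : k - i - (k - j) = j - i := by omega
      rw [h5] at h4
      have := Nat.le_of_dvd (by omega) h4
      omega
    · have h4 := Nat.dvd_sub hqj.1.2.1 hqi.1.2.1
      have h5 : k - j - (k - i) = i - j := by omega
      rw [h5] at h4
      have := Nat.le_of_dvd (by omega) h4
      omega

lemma gg5_pos_of {k j : ℕ} (h : ¬ ∀ q, q.Prime → q ∣ k - j → q < 5) (hjk : j < k) :
    1 ≤ (gg 5 k j).card := by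
  push Not at h
  obtain ⟨q, hq, hd, h5⟩ := h
  apply Finset.card_pos.2
  refine ⟨q, ?_⟩
  rw [gg, mem_filter, Nat.mem_primeFactors]
  exact ⟨⟨hq, hd, by omega⟩, h5⟩

lemma gg5_gap {k i j : ℕ} (hij : i < j) (hji : j ≤ i + 4) (hk : 3000 + j < k) :
    1 ≤ (gg 5 k i).card ∨ 1 ≤ (gg 5 k j).card := by
  by_contra hcon
  push Not at hcon
  have h1 : ∀ q, q.Prime → q ∣ k - i → q < 5 := by
    by_contra h
    have := gg5_pos_of h (by omega)
    omega
  have h2 : ∀ q, q.Prime → q ∣ k - j → q < 5 := by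
    by_contra h
    have := gg5_pos_of h (by omega)
    omega
  have h3 : k - i = (k - j) + (j - i) := by omega
  rw [h3] at h1
  exact gap (by omega) (by omega) (by omega) h2 h1

/-- numbers prime to 6 -/
lemma gg5_coprime6 {k j : ℕ} (h2 : (k - j) % 2 ≠ 0) (h3 : (k - j) % 3 ≠ 0) (hk : j + 1 < k) :
    1 ≤ (gg 5 k j).card := by
  apply gg5_pos_of _ (by omega)
  intro h
  obtain ⟨q, hq, hqd⟩ := Nat.exists_prime_and_dvd (show k - j ≠ 1 by omega)
  have h5 := h q hq hqd
  have h6 := hq.two_le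
  interval_cases q
  · omega
  · omega
  · exact absurd hq (by norm_num)

lemma gg7_of_gg5 {k j : ℕ} (h : 1 ≤ (gg 5 k j).card) (h5 : ¬ 5 ∣ k - j) : 1 ≤ (gg 7 k j).card := by
  obtain ⟨q, hq⟩ := Finset.card_pos.1 h
  apply Finset.card_pos.2
  refine ⟨q, ?_⟩
  rw [gg, mem_filter, Nat.mem_primeFactors] at *
  refine ⟨hq.1, ?_⟩
  have h1 : q ≠ 5 := by rintro rfl; exact h5 hq.1.2.1
  have h2 : q ≠ 6 := by rintro rfl; exact absurd hq.1.1 (by norm_num)
  omega

lemma gg5_zero_even {k : ℕ} (hk1 : 1 < k) (hpp : ¬ IsPrimePow k) (h : k % 2 ≠ 0 ∨ k % 3 ≠ 0) :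
    1 ≤ (gg 5 k 0).card := by
  apply gg5_pos_of _ (by omega)
  intro hs
  rw [Nat.sub_zero] at hs
  obtain ⟨a, b, hab⟩ := smooth3_form (by omega) hs
  apply hpp
  rcases h with h | h
  · -- a = 0
    have ha : a = 0 := by
      by_contra ha
      apply h
      rw [hab]
      exact Nat.mod_eq_zero_of_dvd ((dvd_pow_self 2 ha).mul_right _)
    subst ha
    rw [pow_zero, one_mul] at hab
    have hb : b ≠ 0 := by rintro rfl; simp at hab; omega
    rw [hab]
    exact Nat.prime_three.isPrimePow.pow hb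
  · have hb : b = 0 := by
      by_contra hb
      apply h
      rw [hab]
      exact Nat.mod_eq_zero_of_dvd ((dvd_pow_self 3 hb).mul_left _)
    subst hb
    rw [pow_zero, mul_one] at hab
    have ha : a ≠ 0 := by rintro rfl; simp at hab; omega
    rw [hab]
    exact Nat.prime_two.isPrimePow.pow ha

lemma gg5_zero_two {k : ℕ} (hk1 : 1 < k) (hpp : ¬ IsPrimePow k) (h2 : k % 2 ≠ 0) (h3 : k % 3 ≠ 0) :
    2 ≤ (gg 5 k 0).card := by
  have h1 : gg 5 k 0 = k.primeFactors := by
    rw [gg, Nat.sub_zero]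
    apply Finset.filter_true_of_mem
    intro q hq
    rw [Nat.mem_primeFactors] at hq
    by_contra h
    have h6 := hq.1.two_le
    push Not at h
    interval_cases q
    · omega
    · omega
    · exact absurd hq.1 (by norm_num)
  rw [h1]
  have h4 : k.primeFactors.card ≠ 1 := by
    intro h
    exact hpp ((isPrimePow_iff_card_primeFactors_eq_one).2 h)
  have h5 : k.primeFactors.card ≠ 0 := by
    rw [Finset.card_ne_zero, Nat.nonempty_primeFactors]
    exact hk1
  omega

lemma gg7_zero {k : ℕ} (hk1 : 1 < k) (hpp : ¬ IsPrimePow k) (h2 : k % 2 ≠ 0) (h3 : k % 3 ≠ 0) :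
    1 ≤ (gg 7 k 0).card ∧ (¬ 5 ∣ k → 2 ≤ (gg 7 k 0).card) := by
  have h := gg5_zero_two hk1 hpp h2 h3
  have hsub : gg 5 k 0 ⊆ insert 5 (gg 7 k 0) := by
    intro q hq
    rw [mem_insert]
    rw [gg, mem_filter, Nat.mem_primeFactors] at *
    have h2 : q ≠ 6 := by rintro rfl; exact absurd hq.1.1 (by norm_num)
    by_cases h5 : q = 5
    · exact Or.inl h5
    · exact Or.inr ⟨hq.1, by omega⟩
  have hc := (Finset.card_le_card hsub).trans (Finset.card_insert_le _ _)
  refine ⟨by omega, ?_⟩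
  intro h5
  have hsub2 : gg 5 k 0 ⊆ gg 7 k 0 := by
    intro q hq
    have h6 := hsub hq
    rw [mem_insert] at h6
    rcases h6 with rfl | h6
    · exfalso
      rw [gg, mem_filter, Nat.mem_primeFactors, Nat.sub_zero] at hq
      exact h5 hq.1.2.1
    · exact h6
  have := Finset.card_le_card hsub2
  omega

end Pool.Agent.W_MP_83c777_nt
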