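import Mathlib
import Pool.Agent.W_MP_83c777_nt.Grimm

set_option autoImplicit false

namespace Pool.Agent.W_MP_83c777_nt

open Finset

/-- residue used for the prime 3 -/
def R3 (ρ : ℕ) : ℕ := if ρ = 3 then 0 else if ρ = 1 ∨ ρ = 4 then 1 else 2

/-- `x` is covered neither by 2 nor by 3 -/
def Unc (ρ x : ℕ) : Prop := x % 2 ≠ ρ % 2 ∧ x % 3 ≠ R3 ρ

instance (ρ x : ℕ) : Decidable (Unc ρ x) := by unfold Unc; infer_instance

lemma Unc_period (ρ i : ℕ) : Unc ρ (i + 6) ↔ Unc ρ i := by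
  unfold Unc
  have h1 : (i + 6) % 2 = i % 2 := by omega
  have h2 : (i + 6) % 3 = i % 3 := by omega
  rw [h1, h2]

/-- number of positions with index `i` not covered by 2, 3 -/
def wt (ρ i : ℕ) : ℕ := (if Unc ρ i then 1 else 0) + (if Unc ρ ((ρ + 11 - i % 6) % 6) then 1 else 0)

/-- modified weight -/
def wt' (ρ i : ℕ) : ℕ :=
  if 4 ≤ i ∧ ((i + 1) % 6 = 1 ∨ (i + 1) % 6 = 5) then max 1 (wt ρ i) else wt ρ i

def Wt (ρ M : ℕ) : ℕ := ∑ i ∈ range (M + 1), wt ρ i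
def Wt' (ρ M : ℕ) : ℕ := ∑ i ∈ range (M + 1), wt' ρ i

lemma wt_period (ρ i : ℕ) : wt ρ (i + 6) = wt ρ i := by
  unfold wt
  have h3 : (i + 6) % 6 = i % 6 := by omega
  rw [h3]
  simp only [Unc_period]

lemma wt'_period (ρ i : ℕ) (hi : 4 ≤ i) : wt' ρ (i + 6) = wt' ρ i := by
  have h3 : (i + 6 + 1) % 6 = (i + 1) % 6 := by omega
  by_cases h : (i + 1) % 6 = 1 ∨ (i + 1) % 6 = 5
  · rw [wt', wt', if_pos ⟨by omega, by rw [h3]; exact h⟩, if_pos ⟨hi, h⟩, wt_period]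
  · rw [wt', wt', if_neg (fun h' => h (by rw [← h3]; exact h'.2)), if_neg (fun h' => h h'.2),
      wt_period]

lemma Wt_succ (ρ M : ℕ) : Wt ρ (M + 1) = Wt ρ M + wt ρ (M + 1) := by
  unfold Wt
  rw [Finset.sum_range_succ]

lemma Wt'_succ (ρ M : ℕ) : Wt' ρ (M + 1) = Wt' ρ M + wt' ρ (M + 1) := by
  unfold Wt'
  rw [Finset.sum_range_succ]

lemma Wt_step (ρ M : ℕ) :
    Wt ρ (M + 6) = Wt ρ M + (wt ρ 0 + wt ρ 1 + wt ρ 2 + wt ρ 3 + wt ρ 4 + wt ρ 5) := by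
  induction M with
  | zero =>
    unfold Wt
    simp only [Finset.sum_range_succ, Finset.sum_range_zero]
    have := wt_period ρ 0
    simp only [zero_add] at *
    omega
  | succ M ih =>
    have h1 : Wt ρ (M + 1 + 6) = Wt ρ (M + 6) + wt ρ (M + 1 + 6) := by
      rw [show M + 1 + 6 = (M + 6) + 1 by ring, Wt_succ]
    have h2 := Wt_succ ρ M
    have h3 := wt_period ρ (M + 1)
    omega

lemma Wt'_step (ρ M : ℕ) (hM : 4 ≤ M) : Wt' ρ (M + 6) = Wt' ρ M +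
    (wt' ρ 5 + wt' ρ 6 + wt' ρ 7 + wt' ρ 8 + wt' ρ 9 + wt' ρ 10) := by
  induction M, hM using Nat.le_induction with
  | base =>
    have h5 := Wt'_succ ρ 4
    have h6 := Wt'_succ ρ 5
    have h7 := Wt'_succ ρ 6
    have h8 := Wt'_succ ρ 7
    have h9 := Wt'_succ ρ 8
    have h10 := Wt'_succ ρ 9
    norm_num at *
    omega
  | succ M hM ih =>
    have h1 : Wt' ρ (M + 1 + 6) = Wt' ρ (M + 6) + wt' ρ (M + 1 + 6) := by
      rw [show M + 1 + 6 = (M + 6) + 1 by ring, Wt'_succ]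
    have h2 := Wt'_succ ρ M
    have h3 := wt'_period ρ (M + 1) (by omega)
    omega

lemma Wt'_le {ρ : ℕ} (hρ : ρ < 6) : ∀ M, 8 ≤ M → Wt' ρ M ≤ M - 1 := by
  have hstep : wt' ρ 5 + wt' ρ 6 + wt' ρ 7 + wt' ρ 8 + wt' ρ 9 + wt' ρ 10 ≤ 6 := by
    interval_cases ρ <;> decide
  intro M
  induction M using Nat.strong_induction_on with
  | _ M ih =>
    intro hM
    by_cases h : M < 14
    · have : ∀ (a : Fin 6) (b : Fin 6), Wt' a.1 (b.1 + 8) ≤ b.1 + 8 - 1 := by decide +kernel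
      have := this ⟨ρ, hρ⟩ ⟨M - 8, by omega⟩
      simp only at this
      rwa [Nat.sub_add_cancel hM] at this
    · have h1 := ih (M - 6) (by omega) (by omega)
      have h2 := Wt'_step ρ (M - 6) (by omega)
      rw [Nat.sub_add_cancel (by omega)] at h2
      omega

lemma Wt_le {ρ : ℕ} (hρ : ρ < 6) : ∀ M, 3 * Wt ρ M ≤ 2 * M + 12 := by
  have hstep : wt ρ 0 + wt ρ 1 + wt ρ 2 + wt ρ 3 + wt ρ 4 + wt ρ 5 ≤ 4 := by
    interval_cases ρ <;> decide
  intro M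
  induction M using Nat.strong_induction_on with
  | _ M ih =>
    by_cases h : M < 6
    · have : ∀ (a : Fin 6) (b : Fin 6), 3 * Wt a.1 b.1 ≤ 2 * b.1 + 12 := by decide +kernel
      exact this ⟨ρ, hρ⟩ ⟨M, h⟩
    · have h1 := ih (M - 6) (by omega)
      have h2 := Wt_step ρ (M - 6)
      rw [Nat.sub_add_cancel (by omega)] at h2
      omega

end Pool.Agent.W_MP_83c777_nt
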