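import Mathlib
import Pool.Agent.W_MP_83c777_nt.Weights

set_option autoImplicit false

namespace Pool.Agent.W_MP_83c777_nt

open Finset

lemma five_gaps {n1 n2 n3 n4 n5 : ℕ} (g12 : 1 ≤ n1 ∨ 1 ≤ n2) (g13 : 1 ≤ n1 ∨ 1 ≤ n3)
    (g14 : 1 ≤ n1 ∨ 1 ≤ n4) (g15 : 1 ≤ n1 ∨ 1 ≤ n5) (g23 : 1 ≤ n2 ∨ 1 ≤ n3)
    (g24 : 1 ≤ n2 ∨ 1 ≤ n4) (g25 : 1 ≤ n2 ∨ 1 ≤ n5) (g34 : 1 ≤ n3 ∨ 1 ≤ n4)
    (g35 : 1 ≤ n3 ∨ 1 ≤ n5) (g45 : 1 ≤ n4 ∨ 1 ≤ n5) :
    (1 ≤ n2 ∧ 1 ≤ n3 ∧ 1 ≤ n4 ∧ 1 ≤ n5) ∨ (1 ≤ n1 ∧ 1 ≤ n3 ∧ 1 ≤ n4 ∧ 1 ≤ n5) ∨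
    (1 ≤ n1 ∧ 1 ≤ n2 ∧ 1 ≤ n4 ∧ 1 ≤ n5) ∨ (1 ≤ n1 ∧ 1 ≤ n2 ∧ 1 ≤ n3 ∧ 1 ≤ n5) ∨
    (1 ≤ n1 ∧ 1 ≤ n2 ∧ 1 ≤ n3 ∧ 1 ≤ n4) := by
  by_cases h1 : 1 ≤ n1 <;> by_cases h2 : 1 ≤ n2 <;> by_cases h3 : 1 ≤ n3 <;>
    by_cases h4 : 1 ≤ n4 <;> by_cases h5 : 1 ≤ n5 <;> simp_all

lemma key_six {k : ℕ} (hpp : ¬ IsPrimePow k) (hk : 4000 < k) (hk6 : k % 6 = 1 ∨ k % 6 = 5) :
    6 ≤ (PP k 6).card := by
  have h2 : k % 2 ≠ 0 := by omega
  have h3 : k % 3 ≠ 0 := by omega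
  have hz7 := gg7_zero (k := k) (by omega) hpp h2 h3
  have hm := sum_gg_le (c := 7) (k := k) (M := 6) (by norm_num) (by omega) (by omega)
  have h5mem : ((PP k 6).filter (fun q => 7 ≤ q)).card + 1 ≤ (PP k 6).card := by
    have h1 : insert 5 ((PP k 6).filter (fun q => 7 ≤ q)) ⊆ PP k 6 := by
      intro q hq
      rw [mem_insert] at hq
      rcases hq with rfl | hq
      · rw [mem_PP (by omega)]
        refine ⟨by norm_num, le_refl _, k % 5, by omega, ?_⟩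
        omega
      · exact (Finset.mem_filter.1 hq).1
    have h2 := Finset.card_le_card h1
    rwa [Finset.card_insert_of_notMem (by simp)] at h2
  have g7 : ∀ j, j ≤ 6 → k % 5 ≠ j % 5 → 1 ≤ (gg 5 k j).card → 1 ≤ (gg 7 k j).card := by
    intro j hj h1 h2
    apply gg7_of_gg5 h2
    omega
  have f1 := g7 1 (by omega)
  have f2 := g7 2 (by omega)
  have f3 := g7 3 (by omega)
  have f4 := g7 4 (by omega)
  have f5 := g7 5 (by omega)
  have f6 := g7 6 (by omega)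
  have hc6 : 1 ≤ (gg 5 k 6).card := gg5_coprime6 (by omega) (by omega) (by omega)
  simp only [Finset.sum_range_succ, Finset.sum_range_zero] at hm
  obtain ⟨hz71, hz72⟩ := hz7
  have hz72' : k % 5 ≠ 0 → 2 ≤ (gg 7 k 0).card := fun h => hz72 (by omega)
  have g12 := gg5_gap (k := k) (i := 1) (j := 2) (by omega) (by omega) (by omega)
  have g13 := gg5_gap (k := k) (i := 1) (j := 3) (by omega) (by omega) (by omega)
  have g14 := gg5_gap (k := k) (i := 1) (j := 4) (by omega) (by omega) (by omega)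
  have g15 := gg5_gap (k := k) (i := 1) (j := 5) (by omega) (by omega) (by omega)
  have g23 := gg5_gap (k := k) (i := 2) (j := 3) (by omega) (by omega) (by omega)
  have g24 := gg5_gap (k := k) (i := 2) (j := 4) (by omega) (by omega) (by omega)
  have g25 := gg5_gap (k := k) (i := 2) (j := 5) (by omega) (by omega) (by omega)
  have g34 := gg5_gap (k := k) (i := 3) (j := 4) (by omega) (by omega) (by omega)
  have g35 := gg5_gap (k := k) (i := 3) (j := 5) (by omega) (by omega) (by omega)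
  have g45 := gg5_gap (k := k) (i := 4) (j := 5) (by omega) (by omega) (by omega)
  have hfive := five_gaps g12 g13 g14 g15 g23 g24 g25 g34 g35 g45
  clear g12 g13 g14 g15 g23 g24 g25 g34 g35 g45 hz72 g7
  generalize (gg 7 k 0).card = m0 at *
  generalize (gg 7 k 1).card = m1 at *
  generalize (gg 7 k 2).card = m2 at *
  generalize (gg 7 k 3).card = m3 at *
  generalize (gg 7 k 4).card = m4 at *
  generalize (gg 7 k 5).card = m5 at *
  generalize (gg 7 k 6).card = m6 at *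
  generalize (gg 5 k 1).card = n1 at *
  generalize (gg 5 k 2).card = n2 at *
  generalize (gg 5 k 3).card = n3 at *
  generalize (gg 5 k 4).card = n4 at *
  generalize (gg 5 k 5).card = n5 at *
  generalize (gg 5 k 6).card = n6 at *
  generalize ((PP k 6).filter (fun q => 7 ≤ q)).card = P7 at *
  generalize (PP k 6).card = P at *
  clear hpp hk h2 h3 hk6
  have hk5 : k % 5 < 5 := Nat.mod_lt _ (by norm_num)
  generalize k % 5 = t at *
  interval_cases t <;> norm_num at f1 f2 f3 f4 f5 f6 hz72' <;>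
    rcases hfive with ⟨a, b, c, d⟩ | ⟨a, b, c, d⟩ | ⟨a, b, c, d⟩ | ⟨a, b, c, d⟩ | ⟨a, b, c, d⟩ <;>
    omega

lemma sum5 {k M : ℕ} (hk : 4000 < k) (h : M ≤ 4) :
    ∑ j ∈ range (M + 1), (gg 5 k j).card ≤ (PP k M).card :=
  (sum_gg_le (c := 5) (le_refl _) (by omega) (by omega)).trans
    (Finset.card_le_card (Finset.filter_subset _ _))

lemma key_small0 {k : ℕ} (hpp : ¬ IsPrimePow k) (hk : 4000 < k) :
    Wt' (k % 6) 0 ≤ (PP k 0).card := by
  have h5 := sum5 (k := k) (M := 0) hk (by omega)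
  simp only [Finset.sum_range_succ, Finset.sum_range_zero] at h5
  have z1 : (k % 2 ≠ 0 ∨ k % 3 ≠ 0) → 1 ≤ (gg 5 k 0).card := gg5_zero_even (by omega) hpp
  have z2 : k % 2 ≠ 0 → k % 3 ≠ 0 → 2 ≤ (gg 5 k 0).card := gg5_zero_two (by omega) hpp
  have hρ : k % 6 < 6 := Nat.mod_lt _ (by norm_num)
  have hW : ∀ a, a < 6 → Wt' a 0 ≤
      (if a = 0 then 0 else if a = 1 ∨ a = 5 then 2 else 1) := by decide +kernel
  have hWM := hW (k % 6) hρ
  split_ifs at hWM <;> omega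

lemma key_small1 {k : ℕ} (hpp : ¬ IsPrimePow k) (hk : 4000 < k) :
    Wt' (k % 6) 1 ≤ (PP k 1).card := by
  have h5 := sum5 (k := k) (M := 1) hk (by omega)
  simp only [Finset.sum_range_succ, Finset.sum_range_zero] at h5
  have z1 : (k % 2 ≠ 0 ∨ k % 3 ≠ 0) → 1 ≤ (gg 5 k 0).card := gg5_zero_even (by omega) hpp
  have z2 : k % 2 ≠ 0 → k % 3 ≠ 0 → 2 ≤ (gg 5 k 0).card := gg5_zero_two (by omega) hpp
  have c1 : (k - 1) % 2 ≠ 0 → (k - 1) % 3 ≠ 0 → 1 ≤ (gg 5 k 1).card :=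
    fun h2 h3 => gg5_coprime6 h2 h3 (by omega)
  have hρ : k % 6 < 6 := Nat.mod_lt _ (by norm_num)
  have hW : ∀ a, a < 6 → Wt' a 1 ≤
      (if a = 1 ∨ a = 5 ∨ a = 2 then 2 else 1) := by decide +kernel
  have hWM := hW (k % 6) hρ
  split_ifs at hWM <;> omega

lemma key_small2 {k : ℕ} (hpp : ¬ IsPrimePow k) (hk : 4000 < k) :
    Wt' (k % 6) 2 ≤ (PP k 2).card := by
  have h5 := sum5 (k := k) (M := 2) hk (by omega)
  simp only [Finset.sum_range_succ, Finset.sum_range_zero] at h5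
  have z1 : (k % 2 ≠ 0 ∨ k % 3 ≠ 0) → 1 ≤ (gg 5 k 0).card := gg5_zero_even (by omega) hpp
  have z2 : k % 2 ≠ 0 → k % 3 ≠ 0 → 2 ≤ (gg 5 k 0).card := gg5_zero_two (by omega) hpp
  have c1 : (k - 1) % 2 ≠ 0 → (k - 1) % 3 ≠ 0 → 1 ≤ (gg 5 k 1).card :=
    fun h2 h3 => gg5_coprime6 h2 h3 (by omega)
  have c2 : (k - 2) % 2 ≠ 0 → (k - 2) % 3 ≠ 0 → 1 ≤ (gg 5 k 2).card :=
    fun h2 h3 => gg5_coprime6 h2 h3 (by omega)
  have g02 := gg5_gap (k := k) (i := 0) (j := 2) (by omega) (by omega) (by omega)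
  have g12 := gg5_gap (k := k) (i := 1) (j := 2) (by omega) (by omega) (by omega)
  have hρ : k % 6 < 6 := Nat.mod_lt _ (by norm_num)
  have hW : ∀ a, a < 6 → Wt' a 2 ≤
      (if a = 1 then 3 else if a = 4 then 1 else 2) := by decide +kernel
  have hWM := hW (k % 6) hρ
  generalize Wt' (k % 6) 2 = W at *
  generalize (PP k 2).card = P at *
  generalize (gg 5 k 0).card = n0 at *
  generalize (gg 5 k 1).card = n1 at *
  generalize (gg 5 k 2).card = n2 at *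
  have hcase : k % 6 = 0 ∨ k % 6 = 1 ∨ k % 6 = 2 ∨ k % 6 = 3 ∨ k % 6 = 4 ∨ k % 6 = 5 := by omega
  rcases hcase with h | h | h | h | h | h <;> rw [h] at hWM <;> norm_num at hWM <;> omega

lemma key_small3 {k : ℕ} (hpp : ¬ IsPrimePow k) (hk : 4000 < k) :
    Wt' (k % 6) 3 ≤ (PP k 3).card := by
  have h5 := sum5 (k := k) (M := 3) hk (by omega)
  simp only [Finset.sum_range_succ, Finset.sum_range_zero] at h5
  have z1 : (k % 2 ≠ 0 ∨ k % 3 ≠ 0) → 1 ≤ (gg 5 k 0).card := gg5_zero_even (by omega) hpp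
  have z2 : k % 2 ≠ 0 → k % 3 ≠ 0 → 2 ≤ (gg 5 k 0).card := gg5_zero_two (by omega) hpp
  have c1 : (k - 1) % 2 ≠ 0 → (k - 1) % 3 ≠ 0 → 1 ≤ (gg 5 k 1).card :=
    fun h2 h3 => gg5_coprime6 h2 h3 (by omega)
  have c2 : (k - 2) % 2 ≠ 0 → (k - 2) % 3 ≠ 0 → 1 ≤ (gg 5 k 2).card :=
    fun h2 h3 => gg5_coprime6 h2 h3 (by omega)
  have c3 : (k - 3) % 2 ≠ 0 → (k - 3) % 3 ≠ 0 → 1 ≤ (gg 5 k 3).card :=
    fun h2 h3 => gg5_coprime6 h2 h3 (by omega)
  have g02 := gg5_gap (k := k) (i := 0) (j := 2) (by omega) (by omega) (by omega)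
  have g03 := gg5_gap (k := k) (i := 0) (j := 3) (by omega) (by omega) (by omega)
  have g12 := gg5_gap (k := k) (i := 1) (j := 2) (by omega) (by omega) (by omega)
  have g23 := gg5_gap (k := k) (i := 2) (j := 3) (by omega) (by omega) (by omega)
  have hρ : k % 6 < 6 := Nat.mod_lt _ (by norm_num)
  have hW : ∀ a, a < 6 → Wt' a 3 ≤
      (if a ≤ 2 then 3 else 2) := by decide +kernel
  have hWM := hW (k % 6) hρ
  generalize Wt' (k % 6) 3 = W at *
  generalize (PP k 3).card = P at *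
  generalize (gg 5 k 0).card = n0 at *
  generalize (gg 5 k 1).card = n1 at *
  generalize (gg 5 k 2).card = n2 at *
  generalize (gg 5 k 3).card = n3 at *
  have hcase : k % 6 = 0 ∨ k % 6 = 1 ∨ k % 6 = 2 ∨ k % 6 = 3 ∨ k % 6 = 4 ∨ k % 6 = 5 := by omega
  rcases hcase with h | h | h | h | h | h <;> rw [h] at hWM <;> norm_num at hWM <;> omega

lemma key_small4 {k : ℕ} (hpp : ¬ IsPrimePow k) (hk : 4000 < k) :
    Wt' (k % 6) 4 ≤ (PP k 4).card := by
  have h5 := sum5 (k := k) (M := 4) hk (by omega)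
  simp only [Finset.sum_range_succ, Finset.sum_range_zero] at h5
  have z1 : (k % 2 ≠ 0 ∨ k % 3 ≠ 0) → 1 ≤ (gg 5 k 0).card := gg5_zero_even (by omega) hpp
  have z2 : k % 2 ≠ 0 → k % 3 ≠ 0 → 2 ≤ (gg 5 k 0).card := gg5_zero_two (by omega) hpp
  have c1 : (k - 1) % 2 ≠ 0 → (k - 1) % 3 ≠ 0 → 1 ≤ (gg 5 k 1).card :=
    fun h2 h3 => gg5_coprime6 h2 h3 (by omega)
  have c2 : (k - 2) % 2 ≠ 0 → (k - 2) % 3 ≠ 0 → 1 ≤ (gg 5 k 2).card :=
    fun h2 h3 => gg5_coprime6 h2 h3 (by omega)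
  have c3 : (k - 3) % 2 ≠ 0 → (k - 3) % 3 ≠ 0 → 1 ≤ (gg 5 k 3).card :=
    fun h2 h3 => gg5_coprime6 h2 h3 (by omega)
  have c4 : (k - 4) % 2 ≠ 0 → (k - 4) % 3 ≠ 0 → 1 ≤ (gg 5 k 4).card :=
    fun h2 h3 => gg5_coprime6 h2 h3 (by omega)
  have g02 := gg5_gap (k := k) (i := 0) (j := 2) (by omega) (by omega) (by omega)
  have g03 := gg5_gap (k := k) (i := 0) (j := 3) (by omega) (by omega) (by omega)
  have g04 := gg5_gap (k := k) (i := 0) (j := 4) (by omega) (by omega) (by omega)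
  have g12 := gg5_gap (k := k) (i := 1) (j := 2) (by omega) (by omega) (by omega)
  have g13 := gg5_gap (k := k) (i := 1) (j := 3) (by omega) (by omega) (by omega)
  have g23 := gg5_gap (k := k) (i := 2) (j := 3) (by omega) (by omega) (by omega)
  have g24 := gg5_gap (k := k) (i := 2) (j := 4) (by omega) (by omega) (by omega)
  have g34 := gg5_gap (k := k) (i := 3) (j := 4) (by omega) (by omega) (by omega)
  have hρ : k % 6 < 6 := Nat.mod_lt _ (by norm_num)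
  have hW : ∀ a, a < 6 → Wt' a 4 ≤
      (if a = 4 then 3 else 4) := by decide +kernel
  have hWM := hW (k % 6) hρ
  generalize Wt' (k % 6) 4 = W at *
  generalize (PP k 4).card = P at *
  generalize (gg 5 k 0).card = n0 at *
  generalize (gg 5 k 1).card = n1 at *
  generalize (gg 5 k 2).card = n2 at *
  generalize (gg 5 k 3).card = n3 at *
  generalize (gg 5 k 4).card = n4 at *
  have hcase : k % 6 = 0 ∨ k % 6 = 1 ∨ k % 6 = 2 ∨ k % 6 = 3 ∨ k % 6 = 4 ∨ k % 6 = 5 := by omega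
  rcases hcase with h | h | h | h | h | h <;> rw [h] at hWM <;> norm_num at hWM
  · have := c1 (by omega) (by omega)
    clear c1 c2 c3 c4 z1 z2
    omega
  · have := z2 (by omega) (by omega)
    clear c1 c2 c3 c4 z1 z2
    omega
  · have := c1 (by omega) (by omega)
    have := z1 (by omega)
    clear c1 c2 c3 c4 z1 z2
    omega
  · have := c2 (by omega) (by omega)
    have := c4 (by omega) (by omega)
    have := z1 (by omega)
    clear c1 c2 c3 c4 z1 z2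
    omega
  · have := c3 (by omega) (by omega)
    have := z1 (by omega)
    clear c1 c2 c3 c4 z1 z2
    omega
  · have := c4 (by omega) (by omega)
    have := z2 (by omega) (by omega)
    clear c1 c2 c3 c4 z1 z2
    omega

/-- the key inequality between weights and primes -/
lemma key_ineq {k M : ℕ} (hpp : ¬ IsPrimePow k) (hk : 4000 + M ^ M + M < k) :
    Wt' (k % 6) M ≤ (PP k M).card := by
  have hρ : k % 6 < 6 := Nat.mod_lt _ (by norm_num)
  by_cases h8 : 8 ≤ M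
  · have h1 := Wt'_le hρ M h8
    have h2 := grimm (k := k) (M := M) (by omega) (by omega)
    omega
  push Not at h8
  have hgr : 1 ≤ M → M ≤ (PP k M).card + 1 := fun h => grimm h (by omega)
  have hk4 : 4000 < k := by omega
  by_cases h6 : M = 6 ∧ (k % 6 = 1 ∨ k % 6 = 5)
  · obtain ⟨rfl, h6⟩ := h6
    have h := key_six hpp hk4 h6
    refine le_trans ?_ h
    have hW : ∀ (a : Fin 6), Wt' a.1 6 ≤ 6 := by decide +kernel
    exact hW ⟨k % 6, hρ⟩
  · have hW : ∀ (a : Fin 6), (Wt' a.1 5 ≤ 4) ∧ (Wt' a.1 6 ≤ 5 ∨ a.1 = 1 ∨ a.1 = 5) ∧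
        Wt' a.1 7 ≤ 6 := by decide +kernel
    have hWM := hW ⟨k % 6, hρ⟩
    simp only at hWM
    interval_cases M
    · exact key_small0 hpp hk4
    · exact key_small1 hpp hk4
    · exact key_small2 hpp hk4
    · exact key_small3 hpp hk4
    · exact key_small4 hpp hk4
    · have := hgr (by omega)
      omega
    · have := hgr (by omega)
      omega
    · have := hgr (by omega)
      omega

end Pool.Agent.W_MP_83c777_nt
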