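import Mathlib
import Pool.Agent.W_MP_83c777_nt.Basic
import Pool.Agent.W_MP_83c777_nt.KeyIneq
import Pool.Agent.W_MP_83c777_nt.Hall

set_option autoImplicit false

namespace Pool.Agent.W_MP_83c777_nt

open Finset

/-- the near positions which are not covered by 2, 3 -/
def X1 (k L : ℕ) : Finset ℕ := (range k).filter (fun x => idx k x ≤ L ∧ Unc (k % 6) x)

/-- allowed primes at least 5 -/
def tt (k x : ℕ) : Finset ℕ := (range (k + 1)).filter (fun q => q.Prime ∧ 5 ≤ q ∧ Al k q x)

lemma Unc_congr {ρ x y : ℕ} (h : x % 6 = y % 6) : Unc ρ x ↔ Unc ρ y := by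
  unfold Unc
  have h1 : x % 2 = y % 2 := by omega
  have h2 : x % 3 = y % 3 := by omega
  rw [h1, h2]

lemma card_level (k L i : ℕ) : ((X1 k L).filter (fun x => idx k x = i)).card ≤ wt (k % 6) i := by
  classical
  have hsub : (X1 k L).filter (fun x => idx k x = i) ⊆
      (if Unc (k % 6) i then {i} else ∅) ∪
      (if Unc (k % 6) ((k % 6 + 11 - i % 6) % 6) then {k - 1 - i} else ∅) := by
    intro x hx
    rw [mem_filter, X1, mem_filter, mem_range] at hx
    obtain ⟨⟨hxk, _, hU⟩, hi⟩ := hx
    unfold idx at hi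
    rw [mem_union]
    rcases le_total x (k - 1 - x) with h | h
    · rw [min_eq_left h] at hi
      subst hi
      left
      rw [if_pos hU]
      simp
    · rw [min_eq_right h] at hi
      right
      have hxi : x = k - 1 - i := by omega
      have hmod : x % 6 = ((k % 6 + 11 - i % 6) % 6) % 6 := by omega
      rw [if_pos ((Unc_congr hmod).1 hU), hxi]
      simp
  refine (Finset.card_le_card hsub).trans ((Finset.card_union_le _ _).trans ?_)
  unfold wt
  apply Nat.add_le_add
  · split_ifs <;> simp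
  · split_ifs <;> simp

lemma wt_le_wt' (ρ i : ℕ) : wt ρ i ≤ wt' ρ i := by
  unfold wt'
  split_ifs
  · exact le_max_right _ _
  · exact le_refl _

lemma card_le_sum_level (k L M : ℕ) (s : Finset ℕ) (hs : s ⊆ X1 k L) (hM : ∀ x ∈ s, idx k x ≤ M)
    (P : ℕ → Prop) [DecidablePred P] (hP : ∀ x ∈ s, P (idx k x)) :
    s.card ≤ ∑ i ∈ (range (M + 1)).filter P, wt (k % 6) i := by
  classical
  have h1 : s.card = ∑ i ∈ (range (M + 1)).filter P, (s.filter (fun x => idx k x = i)).card := by
    apply Finset.card_eq_sum_card_fiberwise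
    intro x hx
    rw [mem_coe] at hx
    rw [mem_coe, mem_filter, mem_range]
    exact ⟨Nat.lt_succ_of_le (hM x hx), hP x hx⟩
  rw [h1]
  apply Finset.sum_le_sum
  intro i _
  exact (Finset.card_le_card (Finset.filter_subset_filter _ hs)).trans (card_level k L i)

lemma card_X1_le (k L : ℕ) : (X1 k L).card ≤ Wt (k % 6) L := by
  have h := card_le_sum_level k L L (X1 k L) (subset_refl _)
    (fun x hx => by rw [X1, mem_filter] at hx; exact hx.2.1) (fun _ => True) (fun _ _ => trivial)
  simpa [Wt] using h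

lemma hall_cond {k L : ℕ} (hpp : ¬ IsPrimePow k) (hk : 4000 + (L + 1) ^ (L + 1) + L < k) :
    ∀ s ⊆ X1 k L, s.card ≤ (s.biUnion (tt k)).card := by
  classical
  intro s hs
  rcases s.eq_empty_or_nonempty with h0 | h0
  · rw [h0]; simp
  obtain ⟨xM, hxM, hmax⟩ := Finset.exists_max_image s (idx k) h0
  set M := idx k xM with hMdef
  have hML : M ≤ L := by
    have := hs hxM
    rw [X1, mem_filter] at this
    exact this.2.1
  have hlt : ∀ x ∈ s, x < k := by
    intro x hx
    have := hs hx
    rw [X1, mem_filter, mem_range] at this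
    exact this.1
  have hMM : M ^ M ≤ (L + 1) ^ (L + 1) :=
    (Nat.pow_le_pow_left (by omega) M).trans (Nat.pow_le_pow_right (by omega) (by omega))
  have hkM : 4000 + M ^ M + M < k := by omega
  have hkey := key_ineq hpp hkM
  set Z := PP k M \ s.biUnion (tt k) with hZ
  have hZfacts : ∀ q ∈ Z, q.Prime ∧ 5 ≤ q ∧ q ≤ M ∧ ∀ x ∈ s, idx k x + 1 ≠ q := by
    intro q hq
    rw [hZ, mem_sdiff, mem_PP (by omega)] at hq
    obtain ⟨⟨hqp, hq5, j, hj, hdvd⟩, hn⟩ := hq
    have hqk : q ≤ k := by
      have := Nat.le_of_dvd (by omega) hdvd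
      omega
    have hnal : ∀ x ∈ s, ¬ Al k q x := by
      intro x hx hal
      apply hn
      rw [mem_biUnion]
      refine ⟨x, hx, ?_⟩
      rw [tt, mem_filter, mem_range]
      exact ⟨by omega, hqp, hq5, hal⟩
    have hkj : k % q = j % q := by
      have h1 : k = (k - j) + j := by omega
      conv_lhs => rw [h1]
      obtain ⟨c, hc⟩ := hdvd
      rw [hc, Nat.mul_add_mod]
    refine ⟨hqp, hq5, ?_, ?_⟩
    · by_contra hcon
      push Not at hcon
      apply hnal xM hxM
      rw [al_idx (hlt xM hxM) hqp.pos]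
      unfold Al
      rw [hkj, Nat.mod_eq_of_lt (by omega), ← hMdef, Nat.mod_eq_of_lt hcon]
      exact hj
    · intro x hx hcon
      apply hnal x hx
      rw [al_idx (hlt x hx) hqp.pos]
      unfold Al
      have h1 : idx k x = q - 1 := by omega
      have h2 : q - 1 < q := by have := hqp.pos; omega
      have h3 := Nat.mod_lt k hqp.pos
      rw [h1, Nat.mod_eq_of_lt h2]
      omega
  have h1 : s.card ≤ ∑ i ∈ (range (M + 1)).filter (fun i => i + 1 ∉ Z), wt (k % 6) i := by
    apply card_le_sum_level k L M s hs (fun x hx => hmax x hx) (fun i => i + 1 ∉ Z)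
    intro x hx hcon
    exact (hZfacts _ hcon).2.2.2 x hx rfl
  have h2 : Z.card ≤ ∑ i ∈ (range (M + 1)).filter (fun i => ¬ (i + 1 ∉ Z)), wt' (k % 6) i := by
    calc Z.card = ∑ _q ∈ Z, 1 := by simp
      _ ≤ ∑ i ∈ (range (M + 1)).filter (fun i => ¬ (i + 1 ∉ Z)), 1 := by
          rw [← Finset.card_eq_sum_ones, ← Finset.card_eq_sum_ones]
          have hsub : Z ⊆ ((range (M + 1)).filter (fun i => ¬ (i + 1 ∉ Z))).image (· + 1) := by
            intro q hq
            obtain ⟨h1, h2, h3, _⟩ := hZfacts q hq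
            rw [mem_image]
            refine ⟨q - 1, ?_, by omega⟩
            rw [mem_filter, mem_range, not_not, Nat.sub_add_cancel (by omega)]
            exact ⟨by omega, hq⟩
          exact (Finset.card_le_card hsub).trans Finset.card_image_le
      _ ≤ _ := by
          apply Finset.sum_le_sum
          intro i hi
          rw [mem_filter, not_not] at hi
          obtain ⟨hp, h5, _, _⟩ := hZfacts _ hi.2
          unfold wt'
          have hmod : (i + 1) % 6 = 1 ∨ (i + 1) % 6 = 5 := by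
            have e2 : ¬ 2 ∣ i + 1 := by
              intro h
              have := (Nat.prime_dvd_prime_iff_eq Nat.prime_two hp).1 h
              omega
            have e3 : ¬ 3 ∣ i + 1 := by
              intro h
              have := (Nat.prime_dvd_prime_iff_eq Nat.prime_three hp).1 h
              omega
            omega
          rw [if_pos ⟨by omega, hmod⟩]
          exact le_max_left _ _
  have h3 : s.card + Z.card ≤ Wt' (k % 6) M := by
    unfold Wt'
    rw [← Finset.sum_filter_add_sum_filter_not (range (M + 1)) (fun i => i + 1 ∉ Z)]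
    apply Nat.add_le_add _ h2
    exact h1.trans (Finset.sum_le_sum (fun i _ => wt_le_wt' _ _))
  have h4 : (PP k M).card ≤ Z.card + (s.biUnion (tt k)).card := by
    have := Finset.card_le_card_sdiff_add_card (s := PP k M) (t := s.biUnion (tt k))
    rw [← hZ] at this
    exact this
  omega

theorem r1 (L : ℕ) : ∃ K, ∀ k, K ≤ k → ¬ IsPrimePow k → ∃ (C1 : Finset ℕ) (r : ℕ → ℕ),
    (∀ q ∈ C1, q.Prime ∧ q ≤ k ∧ k % q ≤ r q ∧ r q < q) ∧ 2 ∈ C1 ∧ 3 ∈ C1 ∧
    3 * C1.card ≤ 2 * L + 30 ∧ ∀ x < k, idx k x ≤ L → ∃ q ∈ C1, x % q = r q := by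
  classical
  refine ⟨4001 + (L + 1) ^ (L + 1) + L, fun k hk hpp => ?_⟩
  obtain ⟨r, T, hT1, hT2, hT3, hT4⟩ := hall_res (X1 k L) (tt k) (hall_cond hpp (by omega))
    (fun q => if q = 2 then k % 2 else R3 (k % 6))
  have hk6 : k % 6 < 6 := Nat.mod_lt _ (by norm_num)
  have hR3 : ∀ a, a < 6 → a % 3 ≤ R3 a ∧ R3 a < 3 := by decide
  have h2T : 2 ∉ T := by
    intro h
    obtain ⟨x, _, hx, _⟩ := hT2 2 h
    rw [tt, mem_filter] at hx
    omega
  have h3T : 3 ∉ T := by
    intro h
    obtain ⟨x, _, hx, _⟩ := hT2 3 h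
    rw [tt, mem_filter] at hx
    omega
  have hr2 : r 2 = k % 2 := by rw [hT3 2 h2T]; simp
  have hr3 : r 3 = R3 (k % 6) := by rw [hT3 3 h3T]; simp
  refine ⟨insert 2 (insert 3 T), r, ?_, ?_, ?_, ?_, ?_⟩
  · intro q hq
    rw [mem_insert, mem_insert] at hq
    rcases hq with rfl | rfl | hq
    · rw [hr2]
      exact ⟨Nat.prime_two, by omega, le_refl _, Nat.mod_lt _ (by norm_num)⟩
    · rw [hr3]
      have := hR3 (k % 6) hk6
      refine ⟨Nat.prime_three, by omega, ?_, this.2⟩
      omega
    · obtain ⟨x, hx, hqx, hrx⟩ := hT2 q hq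
      rw [tt, mem_filter, mem_range] at hqx
      refine ⟨hqx.2.1, by omega, ?_, ?_⟩
      · rw [hrx]; exact hqx.2.2.2
      · rw [hrx]; exact Nat.mod_lt _ hqx.2.1.pos
  · simp
  · simp
  · have h1 := Finset.card_insert_le 2 (insert 3 T)
    have h2 := Finset.card_insert_le 3 T
    have h3 := card_X1_le k L
    have h4 := Wt_le hk6 L
    omega
  · intro x hx hi
    by_cases hU : Unc (k % 6) x
    · have hxX : x ∈ X1 k L := by
        rw [X1, mem_filter, mem_range]
        exact ⟨hx, hi, hU⟩
      obtain ⟨q, hq, _, hqr⟩ := hT4 x hxX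
      exact ⟨q, by simp [hq], hqr⟩
    · unfold Unc at hU
      by_cases h2 : x % 2 = k % 6 % 2
      · refine ⟨2, by simp, ?_⟩
        rw [hr2]
        omega
      · refine ⟨3, by simp, ?_⟩
        rw [hr3]
        by_contra h3
        exact hU ⟨h2, h3⟩

end Pool.Agent.W_MP_83c777_nt
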