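import Mathlib
import Pool.Agent.W_MP_83c777_nt.Dem
import Pool.Agent.W_MP_83c777_nt.R1

set_option autoImplicit false

namespace Pool.Agent.W_MP_83c777_nt

open Finset Filter

/-- Final combinatorial step. -/
lemma cov_of_parts {k : ℕ} (C1 CC : Finset ℕ) (r0 : ℕ → ℕ) (U : Finset ℕ) (A : ℕ → Finset ℕ)
    (hr0 : ∀ q : ℕ, q.Prime → q ≤ k → q ∉ CC → k % q ≤ r0 q ∧ r0 q < q)
    (hUdef : ∀ x, x ∈ U ↔ x < k ∧ ∀ q : ℕ, q.Prime → q ≤ k → q ∉ CC → x % q ≠ r0 q)
    (hA : ∀ x ∈ U, ∀ q ∈ A x, q ∈ CC ∧ q.Prime ∧ q ≤ k ∧ Al k q x)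
    (hdem : ∀ x ∈ U, (U.filter (fun y => idx k y ≤ idx k x)).card ≤ (A x).card) : Cov k := by
  classical
  have hhall : ∀ s ⊆ U, s.card ≤ (s.biUnion A).card := by
    intro s hs
    rcases s.eq_empty_or_nonempty with h0 | h0
    · rw [h0]; simp
    obtain ⟨xM, hxM, hmax⟩ := Finset.exists_max_image s (idx k) h0
    calc s.card ≤ (U.filter (fun y => idx k y ≤ idx k xM)).card := by
          apply Finset.card_le_card
          intro y hy
          rw [mem_filter]
          exact ⟨hs hy, hmax y hy⟩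
      _ ≤ (A xM).card := hdem xM (hs hxM)
      _ ≤ (s.biUnion A).card := by
          apply Finset.card_le_card
          exact Finset.subset_biUnion_of_mem A hxM
  obtain ⟨r, T, _, hT2, hT3, hT4⟩ := hall_res U A hhall (fun q => if q ∈ CC then k % q else r0 q)
  have hTC : ∀ q ∈ T, q ∈ CC := by
    intro q hq
    obtain ⟨x, hx, hqx, _⟩ := hT2 q hq
    exact (hA x hx q hqx).1
  refine ⟨r, ?_, ?_⟩
  · intro q hq hqk
    by_cases hqT : q ∈ T
    · obtain ⟨x, hx, hqx, hrx⟩ := hT2 q hqT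
      rw [hrx]
      exact ⟨(hA x hx q hqx).2.2.2, Nat.mod_lt _ hq.pos⟩
    · rw [hT3 q hqT]
      by_cases hqC : q ∈ CC
      · simp only [hqC, if_true]
        exact ⟨le_refl _, Nat.mod_lt _ hq.pos⟩
      · simp only [hqC, if_false]
        exact hr0 q hq hqk hqC
  · intro x hxk
    by_cases hxU : x ∈ U
    · obtain ⟨q, hqT, hqA, hqr⟩ := hT4 x hxU
      obtain ⟨_, h2, h3, _⟩ := hA x hxU q hqA
      exact ⟨q, h2, h3, hqr⟩
    · rw [hUdef] at hxU
      push Not at hxU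
      obtain ⟨q, hq, hqk, hqC, hqr⟩ := hxU hxk
      refine ⟨q, hq, hqk, ?_⟩
      have hqT : q ∉ T := fun h => hqC (hTC q h)
      rw [hT3 q hqT]
      simp only [hqC, if_false]
      exact hqr

theorem main_cov : ∀ᶠ k : ℕ in atTop, ¬ IsPrimePow k → Cov k := by
  classical
  obtain ⟨CD, hCD, hdl⟩ := demand_low
  obtain ⟨B0, hB0⟩ := eventually_atTop.1 hdl
  obtain ⟨j1, hj1⟩ := lev_sum CD (1 / 2) hCD (by norm_num)
  obtain ⟨j2, hj2⟩ := eventually_atTop.1 (lev_facts CD hCD)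
  set j0 := max (max j1 j2) (max 6 B0) with hj0
  have hj0_1 : j1 ≤ j0 := (le_max_left _ _).trans (le_max_left _ _)
  have hj0_2 : j2 ≤ j0 := (le_max_right _ _).trans (le_max_left _ _)
  have hj0_6 : 6 ≤ j0 := (le_max_left _ _).trans (le_max_right _ _)
  have hj0_B : B0 ≤ j0 := (le_max_right _ _).trans (le_max_right _ _)
  have hlev : ∀ j, j0 ≤ j → LevOK CD j := fun j hj => hj2 j (hj0_2.trans hj)
  have hB0' : ∀ j, j0 ≤ j → B0 ≤ 2 ^ j := fun j hj =>
    (hj0_B.trans hj).trans (Nat.lt_two_pow_self).le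
  obtain ⟨K1, hK1⟩ := r1 (2 ^ j0)
  set c : ℝ := (2 * 2 ^ j0 + 30) / 3 with hc
  have hc0 : 0 < c := by positivity
  filter_upwards [eventually_ge_atTop K1, eventually_ge_atTop (2 ^ (j0 + 3)),
    supply_low CD hCD j0 hj0_6 hlev, sum_zS CD hCD j0 hlev,
    demand_high (c + 1) (1 / 8) (by norm_num), high1 CD c hCD hc0, high2 c hc0, basic_facts,
    more_facts, ev_lam (ev_pow_le_exp (2 * c) 50)] with k hkK1 hkj0 hsup hzs hdh hh1 hh2 hbf hmf hexp50
  intro hpp
  obtain ⟨C1, r1', hC1, h2C1, h3C1, hC1card, hC1cov⟩ := hK1 k hkK1 hpp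
  obtain ⟨h3, hk0, hkexp, _, hz16, _, hzSyS, hySy1, hy1, hyS⟩ := hbf
  obtain ⟨h64, hA80, hB5, hC80, hk_lt, hexpy, hyk, hy1k, h1000, hzb⟩ := hmf
  have hC1c : (C1.card : ℝ) ≤ c := by
    have h4 : 3 * (C1.card : ℝ) ≤ 2 * 2 ^ j0 + 30 := by exact_mod_cast hC1card
    rw [hc]; linarith
  -- levels
  set t : Finset ℕ := (range (k + 1)).filter (fun j => j0 ≤ j ∧ (2 : ℝ) ^ j ≤ yS k) with ht
  have hex : ∀ j : ℕ, ∃ T : Finset ℕ, j ∈ t → T ⊆ supp k (2 ^ j + 1) (Qj j) \ C1 ∧ T.card = Dj CD j := by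
    intro j
    by_cases hj : j ∈ t
    · rw [ht, mem_filter] at hj
      obtain ⟨T, hT1, hT2⟩ := Finset.exists_subset_card_eq (hsup j hj.2.1 hj.2.2 C1 hC1card)
      exact ⟨T, fun _ => ⟨hT1, hT2⟩⟩
    · exact ⟨∅, fun h => absurd h hj⟩
  choose CJ hCJ using hex
  have hCJmem : ∀ j ∈ t, ∀ q ∈ CJ j, q ∈ supp k (2 ^ j + 1) (Qj j) ∧ q ∉ C1 := by
    intro j hj q hq
    have := (hCJ j hj).1 hq
    rwa [Finset.mem_sdiff] at this
  set CL : Finset ℕ := t.biUnion CJ with hCL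
  set CH : Finset ℕ := (range (k + 1)).filter (fun q : ℕ => q.Prime ∧ yS k < q ∧ q ∉ C1) with hCH
  set CC : Finset ℕ := CL ∪ CH with hCC
  have hCLfacts : ∀ q ∈ CL, q.Prime ∧ q ≤ k ∧ q ∉ C1 := by
    intro q hq
    rw [hCL, mem_biUnion] at hq
    obtain ⟨j, hj, hqj⟩ := hq
    obtain ⟨h1, h2⟩ := hCJmem j hj q hqj
    rw [supp, mem_filter, mem_range] at h1
    exact ⟨h1.2.1, by omega, h2⟩
  have hCCfacts : ∀ q ∈ CC, q.Prime ∧ q ≤ k ∧ q ∉ C1 := by
    intro q hq
    rw [hCC, mem_union] at hq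
    rcases hq with hq | hq
    · exact hCLfacts q hq
    · rw [hCH, mem_filter, mem_range] at hq
      exact ⟨hq.2.1, by omega, hq.2.2.2⟩
  have hCCnot : ∀ q ∈ CC, (q : ℝ) ≤ yS k → q ∈ CL := by
    intro q hq hqy
    rw [hCC, mem_union] at hq
    rcases hq with hq | hq
    · exact hq
    · rw [hCH, mem_filter] at hq
      exact absurd hq.2.2.1 (not_lt.2 hqy)
  have hlevC : ∀ j ∈ t, (CJ j).card ≤ Dj CD j ∧ ∀ q ∈ CJ j, Qj j < q := by
    intro j hj
    refine ⟨(hCJ j hj).2.le, ?_⟩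
    intro q hq
    have := (hCJmem j hj q hq).1
    rw [supp, mem_filter] at this
    exact this.2.2.1
  have htfacts : ∀ j ∈ t, j0 ≤ j ∧ (2 : ℝ) ^ j ≤ yS k := by
    intro j hj
    rw [ht, mem_filter] at hj
    exact hj.2
  -- sums
  have hCLsum : ∑ q ∈ CL, 1 / (q : ℝ) ≤ 1 / 2 := by
    have h1 := sum_biUnion_le t CJ (fun _ => True)
    simp only [Finset.filter_true] at h1
    refine h1.trans ?_
    refine le_trans ?_ (hj1 t (fun j hj => hj0_1.trans (htfacts j hj).1))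
    apply Finset.sum_le_sum
    intro j hj
    exact level_sum (hlev j (htfacts j hj).1) (CJ j) (hlevC j hj).1 (hlevC j hj).2
  have hCLz : ∑ q ∈ CL.filter (fun q : ℕ => zS k < q), 1 / (q : ℝ) ≤ 1 / (2 * (lam k) ^ 50) :=
    hzs t CJ htfacts hlevC
  have hnn : ∀ (X : Finset ℕ) (q : ℕ), q ∈ X → (0 : ℝ) ≤ 1 / (q : ℝ) := fun _ _ _ => by positivity
  have hsum1 : ∀ b : ℕ, 1 ≤ b → b ≤ k →
      ∑ q ∈ CC.filter (fun q : ℕ => q.Prime ∧ (q : ℝ) ≤ zb b), 1 / (q : ℝ) ≤ 1 := by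
    intro b hb1 hbk
    have hsub : CC.filter (fun q : ℕ => q.Prime ∧ (q : ℝ) ≤ zb b) ⊆ CL := by
      intro q hq
      rw [mem_filter] at hq
      exact hCCnot q hq.1 (hq.2.2.trans (hzb b hb1 hbk))
    have := Finset.sum_le_sum_of_subset_of_nonneg (f := fun q : ℕ => 1 / (q : ℝ)) hsub
      (fun q _ _ => by positivity)
    linarith
  have hC1sum : ∑ q ∈ C1, 1 / (q : ℝ) ≤ c := by
    refine (sum_inv_le_card_div C1 1 one_pos ?_).trans ?_
    · intro q hq
      have := (hC1 q hq).1.one_lt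
      exact_mod_cast this.le
    · rw [div_one]; exact hC1c
  have hUnionSum : ∀ X Y : Finset ℕ, ∑ q ∈ X ∪ Y, 1 / (q : ℝ) ≤
      ∑ q ∈ X, 1 / (q : ℝ) + ∑ q ∈ Y, 1 / (q : ℝ) := by
    intro X Y
    have h := Finset.sum_union_inter (s₁ := X) (s₂ := Y) (f := fun q : ℕ => 1 / (q : ℝ))
    have h2 : 0 ≤ ∑ q ∈ X ∩ Y, 1 / (q : ℝ) := Finset.sum_nonneg (fun q _ => by positivity)
    linarith
  have hsum2 : ∑ q ∈ (C1 ∪ CC).filter (fun q : ℕ => q.Prime ∧ (q : ℝ) ≤ yS k), 1 / (q : ℝ) ≤ c + 1 := by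
    have hsub : (C1 ∪ CC).filter (fun q : ℕ => q.Prime ∧ (q : ℝ) ≤ yS k) ⊆ C1 ∪ CL := by
      intro q hq
      rw [mem_filter, mem_union] at hq
      rw [mem_union]
      rcases hq.1 with h | h
      · exact Or.inl h
      · exact Or.inr (hCCnot q h hq.2.2)
    have h1 := Finset.sum_le_sum_of_subset_of_nonneg (f := fun q : ℕ => 1 / (q : ℝ)) hsub
      (fun q _ _ => by positivity)
    have h2 := hUnionSum C1 CL
    linarith
  have hlam0 : 0 < lam k := by linarith
  have hsum3 : ∑ q ∈ (C1 ∪ CC).filter (fun q : ℕ => q.Prime ∧ zS k < q ∧ (q : ℝ) ≤ yS k), 1 / (q : ℝ)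
      ≤ 1 / (lam k) ^ 50 := by
    have hsub : (C1 ∪ CC).filter (fun q : ℕ => q.Prime ∧ zS k < q ∧ (q : ℝ) ≤ yS k) ⊆
        C1.filter (fun q : ℕ => zS k < q) ∪ CL.filter (fun q : ℕ => zS k < q) := by
      intro q hq
      rw [mem_filter, mem_union] at hq
      rw [mem_union, mem_filter, mem_filter]
      rcases hq.1 with h | h
      · exact Or.inl ⟨h, hq.2.2.1⟩
      · exact Or.inr ⟨hCCnot q h hq.2.2.2, hq.2.2.1⟩
    have h1 := Finset.sum_le_sum_of_subset_of_nonneg (f := fun q : ℕ => 1 / (q : ℝ)) hsub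
      (fun q _ _ => by positivity)
    have h2 := hUnionSum (C1.filter (fun q : ℕ => zS k < q)) (CL.filter (fun q : ℕ => zS k < q))
    have h4 : ∑ q ∈ C1.filter (fun q : ℕ => zS k < q), 1 / (q : ℝ) ≤ 1 / (2 * (lam k) ^ 50) := by
      refine (sum_inv_le_card_div _ (zS k) (by linarith) (fun q hq => ?_)).trans ?_
      · rw [mem_filter] at hq; exact hq.2.le
      · rw [div_le_div_iff₀ (by linarith) (by positivity)]
        have h5 : ((C1.filter (fun q : ℕ => zS k < q)).card : ℝ) ≤ c := by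
          refine le_trans ?_ hC1c
          exact_mod_cast Finset.card_le_card (Finset.filter_subset _ _)
        have h6 : Real.exp (lam k) ≤ zS k := by
          unfold zS
          apply Real.exp_le_exp.2
          calc lam k = lam k ^ 1 := by ring
            _ ≤ lam k ^ 93 := pow_le_pow_right₀ (by linarith) (by norm_num)
        calc ((C1.filter (fun q : ℕ => zS k < q)).card : ℝ) * (2 * (lam k) ^ 50)
            ≤ c * (2 * (lam k) ^ 50) := by gcongr
          _ = 2 * c * (lam k) ^ 50 := by ring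
          _ ≤ Real.exp (lam k) := hexp50
          _ ≤ 1 * zS k := by rw [one_mul]; exact h6
    have h7 : 1 / (lam k) ^ 50 = 1 / (2 * (lam k) ^ 50) + 1 / (2 * (lam k) ^ 50) := by
      field_simp; norm_num
    linarith
  -- default residues
  set r0 : ℕ → ℕ := fun q => if q ∈ C1 then r1' q else if (q : ℝ) ≤ zS k then k % q else q - 1 with hr0
  have hr0facts : ∀ q : ℕ, q.Prime → q ≤ k → q ∉ CC → k % q ≤ r0 q ∧ r0 q < q := by
    intro q hq hqk hqC
    rw [hr0]
    by_cases h1 : q ∈ C1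
    · simp only [h1, if_true]
      exact (hC1 q h1).2.2
    · simp only [h1, if_false]
      have := Nat.mod_lt k hq.pos
      split_ifs
      · exact ⟨le_refl _, this⟩
      · have := hq.pos
        omega
  set U : Finset ℕ := (range k).filter
    (fun x => ∀ q : ℕ, q.Prime → q ≤ k → q ∉ CC → x % q ≠ r0 q) with hU
  have hUdef : ∀ x, x ∈ U ↔ x < k ∧ ∀ q : ℕ, q.Prime → q ≤ k → q ∉ CC → x % q ≠ r0 q := by
    intro x
    rw [hU, mem_filter, mem_range]
  have hUk : ∀ x ∈ U, x < k := fun x hx => ((hUdef x).1 hx).1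
  have hUr : ∀ x ∈ U, ∀ q : ℕ, q.Prime → q ≤ k → q ∉ CC → x % q ≠ r0 q :=
    fun x hx => ((hUdef x).1 hx).2
  have hUidx : ∀ x ∈ U, 2 ^ j0 < idx k x := by
    intro x hx
    by_contra hcon
    push Not at hcon
    obtain ⟨q, hq, hqr⟩ := hC1cov x (hUk x hx) hcon
    have hqC : q ∉ CC := fun h => (hCCfacts q h).2.2 hq
    apply hUr x hx q (hC1 q hq).1 (hC1 q hq).2.1 hqC
    rw [hr0]
    simp only [hq, if_true]
    exact hqr
  have hU1 : ∀ x ∈ U, ∀ q : ℕ, q.Prime → zS k < q → (q : ℝ) ≤ yS k → q ∉ C1 ∪ CC → x % q ≠ q - 1 := by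
    intro x hx q hq h1 h2 h4
    rw [mem_union, not_or] at h4
    have h5 := hUr x hx q hq (by exact_mod_cast h2.trans hyk) h4.2
    rw [hr0] at h5
    simp only [h4.1, if_false, not_le.2 h1] at h5
    exact h5
  have hU2 : ∀ x ∈ U, ∀ q : ℕ, q.Prime → (q : ℝ) ≤ zS k → q ∉ C1 ∪ CC → x % q ≠ k % q := by
    intro x hx q hq h1 h4
    rw [mem_union, not_or] at h4
    have h5 := hUr x hx q hq (by exact_mod_cast (h1.trans hzSyS).trans hyk) h4.2
    rw [hr0] at h5
    simp only [h4.1, if_false, h1, if_true] at h5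
    exact h5
  -- demands
  have hdemlow : ∀ b : ℕ, B0 ≤ b → 1 ≤ b → b ≤ k →
      ((U.filter (fun x => idx k x < b)).card : ℝ) ≤ 2 * CD * b / (lam b) ^ 97 := by
    intro b hb hb1 hbk
    exact dem_low (hB0 b hb) CC r0 U hUk (fun q hq hqk hqC => (hr0facts q hq hqk hqC).2) hUr hbk
      ((hzb b hb1 hbk).trans hyk) (hsum1 b hb1 hbk)
  have hdemhigh : ∀ b : ℕ, y1 k ≤ b → b ≤ k →
      ((U.filter (fun x => idx k x < b)).card : ℝ) ≤ 2 * (1 / 8) * b / Real.log k := by
    intro b hb hbk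
    exact dem_high hdh (C1 ∪ CC) U hUk hsum2 hsum3 hU1 hU2 hb hbk
  have hidx : ∀ x ∈ U, 2 * (idx k x + 1) ≤ k + 1 := by
    intro x hx
    have := hUk x hx
    unfold idx
    rcases le_total x (k - 1 - x) with h | h
    · rw [min_eq_left h]; omega
    · rw [min_eq_right h]; omega
  -- allowed sets
  set A : ℕ → Finset ℕ := fun x => if (2 : ℝ) ^ (Nat.log 2 (idx k x)) ≤ yS k then
      CJ (Nat.log 2 (idx k x)) else supp k (idx k x + 1) ⌊yS k⌋₊ \ C1 with hA
  have hlogfacts : ∀ x ∈ U, 2 ^ (Nat.log 2 (idx k x)) ≤ idx k x ∧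
      idx k x < 2 ^ (Nat.log 2 (idx k x) + 1) ∧ j0 ≤ Nat.log 2 (idx k x) := by
    intro x hx
    have h1 := hUidx x hx
    have h2 : idx k x ≠ 0 := by omega
    refine ⟨Nat.pow_log_le_self 2 h2, Nat.lt_pow_succ_log_self (by norm_num) _, ?_⟩
    exact Nat.le_log_of_pow_le (by norm_num) h1.le
  have hmemt : ∀ x ∈ U, (2 : ℝ) ^ (Nat.log 2 (idx k x)) ≤ yS k → Nat.log 2 (idx k x) ∈ t := by
    intro x hx h
    obtain ⟨h1, h2, h4⟩ := hlogfacts x hx
    rw [ht, mem_filter, mem_range]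
    refine ⟨?_, h4, h⟩
    have h5 := Nat.lt_two_pow_self (n := Nat.log 2 (idx k x))
    have h6 := hidx x hx
    omega
  have hy0 : 0 < yS k := by rw [hyS]; exact Real.exp_pos _
  apply cov_of_parts C1 CC r0 U A hr0facts hUdef
  · -- allowed
    intro x hx q hq
    obtain ⟨h1, h2, h4⟩ := hlogfacts x hx
    have h6 := hidx x hx
    rw [hA] at hq
    by_cases hcase : (2 : ℝ) ^ (Nat.log 2 (idx k x)) ≤ yS k
    · simp only [hcase, if_true] at hq
      have hjt := hmemt x hx hcase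
      obtain ⟨hq1, hq2⟩ := hCJmem _ hjt q hq
      have hqCL : q ∈ CL := by
        rw [hCL, mem_biUnion]
        exact ⟨_, hjt, hq⟩
      obtain ⟨f1, f2, f3⟩ := hCLfacts q hqCL
      refine ⟨by rw [hCC, mem_union]; exact Or.inl hqCL, f1, f2, ?_⟩
      rw [al_idx (hUk x hx) f1.pos]
      have hQ := (hlev _ h4).2.1
      have hQq := (hlevC _ hjt).2 q hq
      have hpow : 2 ^ (Nat.log 2 (idx k x) + 1) = 2 * 2 ^ (Nat.log 2 (idx k x)) := by
        rw [pow_succ]; ring
      have hpos : 1 ≤ 2 ^ (Nat.log 2 (idx k x)) := Nat.one_le_two_pow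
      exact al_of_supp_low hq1 (by omega) h1 (by omega) (by omega)
    · simp only [hcase, if_false] at hq
      rw [Finset.mem_sdiff, supp, mem_filter, mem_range] at hq
      obtain ⟨⟨f1, f2, f3, f4⟩, f5⟩ := hq
      have f6 : yS k < q := (Nat.floor_lt hy0.le).1 f3
      refine ⟨?_, f2, by omega, ?_⟩
      · rw [hCC, mem_union, hCH, mem_filter, mem_range]
        exact Or.inr ⟨f1, f2, f6, f5⟩
      · rw [al_idx (hUk x hx) f2.pos]
        apply al_of_dvd_choose_sq f2 _ (by omega) f4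
        have f7 : (k : ℝ) < (q : ℝ) ^ 2 := by
          refine hk_lt.trans ?_
          exact pow_lt_pow_left₀ f6 hy0.le (by norm_num)
        exact_mod_cast f7
  · -- demand
    intro x hx
    obtain ⟨h1, h2, h4⟩ := hlogfacts x hx
    have h6 := hidx x hx
    rw [hA]
    by_cases hcase : (2 : ℝ) ^ (Nat.log 2 (idx k x)) ≤ yS k
    · simp only [hcase, if_true]
      have hjt := hmemt x hx hcase
      rw [(hCJ _ hjt).2]
      set j := Nat.log 2 (idx k x) with hj
      have hb1 : 1 ≤ 2 ^ (j + 1) := Nat.one_le_two_pow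
      have hpow : 2 ^ (j + 1) = 2 * 2 ^ j := by rw [pow_succ]; ring
      have h7 := hdemlow (2 ^ (j + 1)) (hB0' (j + 1) (by omega)) hb1 (by omega)
      have h8 : ((U.filter (fun y => idx k y ≤ idx k x)).card : ℝ) ≤
          4 * CD * 2 ^ j / (mu j) ^ 97 := by
        have h9 : ((U.filter (fun y => idx k y ≤ idx k x)).card : ℝ) ≤
            ((U.filter (fun y => idx k y < 2 ^ (j + 1))).card : ℝ) := by
          have : (U.filter (fun y => idx k y ≤ idx k x)) ⊆ (U.filter (fun y => idx k y < 2 ^ (j + 1))) := by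
            intro y hy
            rw [mem_filter] at *
            exact ⟨hy.1, by omega⟩
          exact_mod_cast Finset.card_le_card this
        refine h9.trans (h7.trans (le_of_eq ?_))
        rw [mu]
        push_cast
        rw [pow_succ]
        ring
      have h10 : ((U.filter (fun y => idx k y ≤ idx k x)).card : ℝ) ≤ (Dj CD j : ℝ) :=
        h8.trans (Nat.le_ceil _)
      exact_mod_cast h10
    · simp only [hcase, if_false]
      push Not at hcase
      set i := idx k x with hi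
      have hyi : yS k < ((i + 1 : ℕ) : ℝ) := by
        have h7 : (2 : ℝ) ^ (Nat.log 2 i) ≤ (i : ℝ) := by exact_mod_cast h1
        push_cast
        linarith
      have hik : i + 1 ≤ k := by omega
      have hset : (U.filter (fun y => idx k y ≤ i)) = (U.filter (fun y => idx k y < i + 1)) := by
        apply Finset.filter_congr
        intro y _
        omega
      rw [hset]
      have hk2 : 2 ≤ k := by
        have : 1 ≤ 2 ^ j0 := Nat.one_le_two_pow
        have := hUidx x hx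
        omega
      have hs := supply (k := k) (r := i + 1) (Q := ⌊yS k⌋₊) (by omega) hik hk2
      have hcard : ((supp k (i + 1) ⌊yS k⌋₊).card : ℝ) ≤
          ((supp k (i + 1) ⌊yS k⌋₊ \ C1).card : ℝ) + c := by
        have g1 := Finset.card_le_card_sdiff_add_card (s := supp k (i + 1) ⌊yS k⌋₊) (t := C1)
        have g2 : ((supp k (i + 1) ⌊yS k⌋₊).card : ℝ) ≤
          ((supp k (i + 1) ⌊yS k⌋₊ \ C1).card : ℝ) + C1.card := by exact_mod_cast g1
        linarith
      have hdem : ((U.filter (fun y => idx k y < i + 1)).card : ℝ) ≤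
          ((supp k (i + 1) ⌊yS k⌋₊ \ C1).card : ℝ) := by
        by_cases hy : ((i + 1 : ℕ) : ℝ) ≤ y1 k
        · have g1 := hh1 (i + 1) hyi hy
          have hBi : B0 ≤ i + 1 := by
            have := hUidx x hx
            have := hB0' j0 (le_refl _)
            omega
          have g2 := hdemlow (i + 1) hBi (by omega) hik
          linarith
        · push Not at hy
          have g1 := hh2 (i + 1) hy h6
          have g2 := hdemhigh (i + 1) hy.le hik
          have g3 : 2 * (1 / 8) * ((i + 1 : ℕ) : ℝ) / Real.log k =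
              1 / 4 * ((i + 1 : ℕ) : ℝ) / Real.log k := by ring
          rw [g3] at g2
          linarith
      exact_mod_cast hdem

/-- Only finitely many non-prime-powers satisfy Schinzel's property. -/
theorem finite_exceptions : ¬ (Set.Infinite {k : ℕ | ¬ IsPrimePow k ∧
    ∀ n : ℕ, 2 * k ≤ n → ∃ i : ℕ, i < k ∧ (n - i) ∣ n.choose k}) := by
  intro hinf
  obtain ⟨K, hK⟩ := eventually_atTop.1 main_cov
  obtain ⟨k, hk, hKk⟩ := hinf.exists_gt (max K 1)
  have h1 : K ≤ k := (le_max_left _ _).trans hKk.le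
  have h2 : 1 ≤ k := (le_max_right K 1).trans hKk.le
  obtain ⟨n, hn, hno⟩ := not_H_of_cov h2 (hK k h1 hk.1)
  obtain ⟨i, hi, hdvd⟩ := hk.2 n hn
  exact hno i hi hdvd

end Pool.Agent.W_MP_83c777_nt
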